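import Mathlib
import Pool.Agent.Helper549.Tri.Defs
import Pool.Agent.Helper549.Tri.Basic
import Pool.Agent.Helper549.Tri.AngleSum
import Pool.Agent.TH387.Base

/-!
# A formal boundary identity implies a dissection (job 39, MP_a03157_co)
-/

set_option autoImplicit false
noncomputable section
open scoped BigOperators
open MeasureTheory

namespace Pool.Agent.TH609.J39

open Pool.Agent.Helper549.Tri Pool.Agent.TH387
open Pool.Agent.Helper549.Tri.Basic

/-! ### Functionals -/

theorem fun_seg {A : Type*} [AddCommGroup A] (F : ℂ × ℂ → A) (p q : ℂ) :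
    Finsupp.linearCombination ℤ F (seg p q) = F (cl (q - p), q) - F (cl (q - p), p) := by
  rw [seg, map_sub, Finsupp.linearCombination_single, Finsupp.linearCombination_single, one_smul,
    one_smul]

theorem fun_bdc {A : Type*} [AddCommGroup A] (F : ℂ × ℂ → A) (v : Fin 3 → ℂ) :
    Finsupp.linearCombination ℤ F (bdc v) =
      ∑ k : Fin 3, (F (cl (sd v k), v (k + 2)) - F (cl (sd v k), v (k + 1))) := by
  rw [bdc, map_sum]
  refine Finset.sum_congr rfl fun k _ => ?_
  rw [fun_seg]
  rfl

/-! ### Area -/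

def FA (x : ℂ × ℂ) : ℝ := (1 / 2) * ((starRingEnd ℂ x.2) ^ 2 * x.1).im

theorem FA_seg (p q : ℂ) : FA (cl (q - p), q) - FA (cl (q - p), p) = cr p q := by
  by_cases h : q - p = 0
  · have : q = p := sub_eq_zero.1 h
    subst this
    simp only [FA, cr, sub_self]
    ring
  · have hc : (starRingEnd ℂ) (q - p) ≠ 0 := (map_ne_zero _).2 h
    have e : ((starRingEnd ℂ) q ^ 2 - (starRingEnd ℂ) p ^ 2) * cl (q - p) =
        (q - p) * ((starRingEnd ℂ) q + (starRingEnd ℂ) p) := by
      rw [cl, mul_div_assoc', div_eq_iff hc, map_sub]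
      ring
    have e2 : FA (cl (q - p), q) - FA (cl (q - p), p) =
        (1 / 2) * (((starRingEnd ℂ) q ^ 2 - (starRingEnd ℂ) p ^ 2) * cl (q - p)).im := by
      simp only [FA]
      rw [sub_mul, Complex.sub_im]
      ring
    rw [e2, e]
    simp only [cr, Complex.mul_im, Complex.sub_re, Complex.sub_im, Complex.add_re, Complex.add_im,
      Complex.conj_re, Complex.conj_im]
    ring

theorem area (v : Fin 3 → ℂ) : Finsupp.linearCombination ℤ FA (bdc v) = dd v := by
  rw [fun_bdc, Fin.sum_univ_three]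
  simp only [sd, FA_seg, e01, e02, e11, e12, e21, e22]
  simp only [dd, cr, Complex.sub_re, Complex.sub_im]
  ring

/-! ### Crossing numbers -/

open Classical in
/-- crossing functional -/
def FC (z : ℂ) (x : ℂ × ℂ) : ℤ :=
  if z.im < x.2.im ∧ (z - x.2).re < ((starRingEnd ℂ) x.1 * (z - x.2)).re then 1 else 0

theorem cl_cond (d w : ℂ) (hd : d ≠ 0) :
    w.re < ((starRingEnd ℂ) (cl d) * w).re ↔ 0 < cr d w * d.im := by
  have hn : 0 < d.re ^ 2 + d.im ^ 2 := by
    have := Complex.normSq_pos.2 hd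
    rw [Complex.normSq_apply] at this
    nlinarith
  have hd' : (starRingEnd ℂ) d ≠ 0 := (map_ne_zero _).2 hd
  have e : (starRingEnd ℂ) (cl d) * w = ((starRingEnd ℂ) d ^ 2 * w) / ((d.re ^ 2 + d.im ^ 2 : ℝ) : ℂ) := by
    have h1 : d * (starRingEnd ℂ) d = ((d.re ^ 2 + d.im ^ 2 : ℝ) : ℂ) := by
      rw [Complex.mul_conj, Complex.normSq_apply]
      congr 1
      ring
    rw [← h1, cl, map_div₀, Complex.conj_conj]
    field_simp
  rw [e, Complex.div_ofReal_re, lt_div_iff₀ hn]
  have e2 : ((starRingEnd ℂ) d ^ 2 * w).re = (d.re ^ 2 - d.im ^ 2) * w.re + 2 * d.re * d.im * w.im := by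
    simp only [pow_two, Complex.mul_re, Complex.mul_im, Complex.conj_re, Complex.conj_im]
    ring
  rw [e2, cr]
  constructor <;> intro h <;> nlinarith

open Classical in
theorem FC_seg (z p q : ℂ) (h : q - p ≠ 0) :
    FC z (cl (q - p), q) - FC z (cl (q - p), p) =
      (if 0 < cr (q - p) (z - p) * ((q.im - z.im) - (p.im - z.im)) then 1 else 0) *
        ((if 0 < q.im - z.im then 1 else 0) - (if 0 < p.im - z.im then 1 else 0)) := by
  have e1 : (q.im - z.im) - (p.im - z.im) = (q - p).im := by rw [Complex.sub_im]; ring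
  have e2 : cr (q - p) (z - q) = cr (q - p) (z - p) := by
    simp only [cr, Complex.sub_re, Complex.sub_im]
    ring
  have k1 := cl_cond (q - p) (z - q) h
  have k2 := cl_cond (q - p) (z - p) h
  rw [e2] at k1
  simp only [FC, e1, k1, k2, sub_pos]
  by_cases a1 : 0 < cr (q - p) (z - p) * (q - p).im <;> by_cases a2 : z.im < q.im <;>
    by_cases a3 : z.im < p.im <;> simp [a1, a2, a3]

open Classical in
theorem term (L a b : ℝ) (ha : a ≠ 0) (hb : b ≠ 0) :
    ((if 0 < L * (b - a) then 1 else 0) * ((if 0 < b then 1 else 0) - (if 0 < a then 1 else 0)) : ℤ)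
      = if 0 < b ∧ a < 0 ∧ 0 < L then 1 else if b < 0 ∧ 0 < a ∧ L < 0 then -1 else 0 := by
  rcases lt_or_gt_of_ne ha with h1 | h1 <;> rcases lt_or_gt_of_ne hb with h2 | h2
  · simp [h1.not_gt, h2.not_gt]
  · have : 0 < b - a := by linarith
    have e : 0 < L * (b - a) ↔ 0 < L := by
      rw [mul_pos_iff_of_pos_right this]
    simp [e, h1, h2, h1.not_gt, h2.not_gt]
  · have : b - a < 0 := by linarith
    have e : 0 < L * (b - a) ↔ L < 0 := by
      rw [mul_pos_iff]
      constructor
      · rintro (⟨_, h⟩ | ⟨h, _⟩)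
        · linarith
        · exact h
      · intro h; exact Or.inr ⟨h, this⟩
    simp [e, h1, h2, h1.not_gt, h2.not_gt]
    by_cases hL : L < 0 <;> simp [hL]
  · simp [h1.not_gt, h2.not_gt, h1, h2]

open Classical in
theorem cross (L0 L1 L2 y0 y1 y2 : ℝ) (hs : 0 < L0 + L1 + L2)
    (hb : L0 * y0 + L1 * y1 + L2 * y2 = 0)
    (a0 : L0 ≠ 0) (a1 : L1 ≠ 0) (a2 : L2 ≠ 0) (b0 : y0 ≠ 0) (b1 : y1 ≠ 0) (b2 : y2 ≠ 0) :
    ((if 0 < L0 * (y2 - y1) then 1 else 0) * ((if 0 < y2 then 1 else 0) - (if 0 < y1 then 1 else 0))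
    + (if 0 < L1 * (y0 - y2) then 1 else 0) * ((if 0 < y0 then 1 else 0) - (if 0 < y2 then 1 else 0))
    + (if 0 < L2 * (y1 - y0) then 1 else 0) * ((if 0 < y1 then 1 else 0) - (if 0 < y0 then 1 else 0))
      : ℤ) = if 0 < L0 ∧ 0 < L1 ∧ 0 < L2 then 1 else 0 := by
  rw [term L0 y1 y2 b1 b2, term L1 y2 y0 b2 b0, term L2 y0 y1 b0 b1]
  rcases lt_or_gt_of_ne b0 with c0 | c0 <;> rcases lt_or_gt_of_ne b1 with c1 | c1 <;>
  rcases lt_or_gt_of_ne b2 with c2 | c2 <;> rcases lt_or_gt_of_ne a0 with d0 | d0 <;>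
  rcases lt_or_gt_of_ne a1 with d1 | d1 <;> rcases lt_or_gt_of_ne a2 with d2 | d2 <;>
  first
    | (simp [c0, c1, c2, d0, d1, d2, c0.not_gt, c1.not_gt, c2.not_gt, d0.not_gt, d1.not_gt,
        d2.not_gt]; done)
    | (exfalso
       have m0 := mul_pos (abs_pos.2 a0) (abs_pos.2 b0)
       have m1 := mul_pos (abs_pos.2 a1) (abs_pos.2 b1)
       have m2 := mul_pos (abs_pos.2 a2) (abs_pos.2 b2)
       simp only [abs_of_pos, abs_of_neg, c0, c1, c2, d0, d1, d2] at m0 m1 m2
       linarith)

open Classical in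
/-- the crossing number of a triangle -/
theorem wind (v : Fin 3 → ℂ) (hv : 0 < dd v) (z : ℂ) (h1 : ∀ k, z.im ≠ (v k).im)
    (h2 : ∀ k, lam v k z ≠ 0) :
    Finsupp.linearCombination ℤ (FC z) (bdc v) = if z ∈ interior (hull v) then 1 else 0 := by
  have hne : ∀ k, sd v k ≠ 0 := by
    intro k h0
    have h3 := len_pos v hv k
    rw [len, h0, norm_zero] at h3
    exact lt_irrefl _ h3
  rw [fun_bdc]
  have e : ∀ k, FC z (cl (sd v k), v (k + 2)) - FC z (cl (sd v k), v (k + 1)) =
      (if 0 < lam v k z * (((v (k + 2)).im - z.im) - ((v (k + 1)).im - z.im)) then 1 else 0) *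
        ((if 0 < (v (k + 2)).im - z.im then 1 else 0) -
          (if 0 < (v (k + 1)).im - z.im then 1 else 0)) :=
    fun k => FC_seg z (v (k + 1)) (v (k + 2)) (hne k)
  rw [Finset.sum_congr rfl fun k _ => e k, Fin.sum_univ_three]
  simp only [e01, e02, e11, e12, e21, e22]
  have hs := lam_sum v z
  have hb := congrArg Complex.im (bary v hv z)
  simp only [Complex.add_im, Complex.smul_im, smul_eq_mul] at hb
  have hd := hv.ne'
  have hb2 : lam v 0 z * ((v 0).im - z.im) + lam v 1 z * ((v 1).im - z.im) +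
      lam v 2 z * ((v 2).im - z.im) = 0 := by
    field_simp at hb
    linear_combination (-1) * hb - z.im * hs
  have key := cross (lam v 0 z) (lam v 1 z) (lam v 2 z) ((v 0).im - z.im) ((v 1).im - z.im)
    ((v 2).im - z.im) (by rw [hs]; exact hv) hb2 (h2 0) (h2 1) (h2 2)
    (sub_ne_zero.2 (h1 0).symm) (sub_ne_zero.2 (h1 1).symm) (sub_ne_zero.2 (h1 2).symm)
  refine key.trans ?_
  have h3 : (0 < lam v 0 z ∧ 0 < lam v 1 z ∧ 0 < lam v 2 z) ↔ z ∈ interior (hull v) := by
    rw [mem_int v hv]
    constructor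
    · rintro ⟨a, b, c⟩ k
      obtain rfl | rfl | rfl := fin3_cases k
      exacts [a, b, c]
    · intro h
      exact ⟨h 0, h 1, h 2⟩
  simp only [h3]

/-! ### Generic points -/

theorem dense_ne (g : ℂ → ℝ) (hg : ∀ (p q : ℂ) (a b : ℝ), a + b = 1 →
    g (a • p + b • q) = a * g p + b * g q) (w : ℂ) (hw : g w ≠ 0) : Dense {z | g z ≠ 0} := by
  intro z
  by_cases hz : g z = 0
  · have ht : Filter.Tendsto (fun s : ℝ => (1 - s) • z + s • w) (nhdsWithin 0 {0}ᶜ) (nhds z) := by
      have hc : Continuous fun s : ℝ => (1 - s) • z + s • w := by fun_prop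
      have := hc.tendsto 0
      simp only [sub_zero, one_smul, zero_smul, add_zero] at this
      exact this.mono_left nhdsWithin_le_nhds
    refine mem_closure_of_tendsto ht ?_
    filter_upwards [self_mem_nhdsWithin] with s hs
    show g ((1 - s) • z + s • w) ≠ 0
    rw [hg _ _ _ _ (by ring), hz, mul_zero, zero_add]
    exact mul_ne_zero hs hw
  · exact subset_closure hz

/-- generic points with respect to a triangle -/
def Gen (v : Fin 3 → ℂ) : Set ℂ := {z | (∀ k, z.im ≠ (v k).im) ∧ ∀ k, lam v k z ≠ 0}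

theorem gen_eq (v : Fin 3 → ℂ) :
    Gen v = ⋂ x : Fin 3 ⊕ Fin 3, Sum.elim (fun k => {z : ℂ | z.im - (v k).im ≠ 0})
      (fun k => {z : ℂ | lam v k z ≠ 0}) x := by
  ext z
  simp only [Gen, Set.mem_setOf_eq, Set.mem_iInter, Sum.forall, Sum.elim_inl, Sum.elim_inr,
    sub_ne_zero]

theorem gen_open (v : Fin 3 → ℂ) : IsOpen (Gen v) := by
  rw [gen_eq]
  refine isOpen_iInter_of_finite fun x => ?_
  rcases x with k | k
  · exact isOpen_ne_fun (by fun_prop) continuous_const
  · exact isOpen_ne_fun (lam_cont v k) continuous_const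

theorem gen_dense (v : Fin 3 → ℂ) (hv : 0 < dd v) : Dense (Gen v) := by
  rw [gen_eq]
  refine dense_iInter_of_isOpen (fun x => ?_) fun x => ?_
  · rcases x with k | k
    · exact isOpen_ne_fun (by fun_prop) continuous_const
    · exact isOpen_ne_fun (lam_cont v k) continuous_const
  · rcases x with k | k
    · refine dense_ne (fun z => z.im - (v k).im) ?_ (v k + Complex.I) (by simp)
      intro p q a b hab
      have hb : b = 1 - a := by linarith
      subst hb
      simp only [Complex.add_im, Complex.smul_im, smul_eq_mul]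
      ring
    · refine dense_ne (lam v k) (fun p q a b hab => lam_affine v k p q a b hab) (v k) ?_
      rw [lam_self]
      exact hv.ne'

theorem closure_int (v : Fin 3 → ℂ) (hv : 0 < dd v) (G : Set ℂ) (hG : Dense G) (hO : IsOpen G) :
    hull v ⊆ closure (interior (hull v) ∩ G) := by
  have hconv : Convex ℝ (hull v) := convex_convexHull ℝ _
  have hcl : closure (interior (hull v)) = closure (hull v) :=
    hconv.closure_interior_eq_closure_of_nonempty_interior
      (Pool.Agent.Helper549.Tri.AngleSum.hull_interior_nonempty v hv)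
  intro x hx
  have hx2 : x ∈ closure (interior (hull v)) := by
    rw [hcl]; exact subset_closure hx
  have := (hG.open_subset_closure_inter isOpen_interior : interior (hull v) ⊆ _)
  exact closure_minimal this isClosed_closure hx2

end Pool.Agent.TH609.J39

namespace Pool.Agent.TH387
open Pool.Agent.Helper549.Tri Pool.Agent.TH609.J39
open Pool.Agent.Helper549.Tri.Basic

open Classical in
/-- if the formal boundaries of positively oriented triangles `t i` add up to the formal boundary
of `T`, then the `t i` dissect `T` -/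
theorem chain_dis {N : ℕ} (hN : 0 < N) (T : Fin 3 → ℂ) (t : Fin N → Fin 3 → ℂ)
    (ht : ∀ i, 0 < dd (t i)) (h : ∑ i, bdc (t i) = bdc T) : Dis N T t := by
  have hT : 0 < dd T := by
    rw [← area T, ← h, map_sum]
    simp only [area]
    haveI : Nonempty (Fin N) := ⟨⟨0, hN⟩⟩
    exact Finset.sum_pos (fun i _ => ht i) Finset.univ_nonempty
  let G : Set ℂ := Gen T ∩ ⋂ i, Gen (t i)
  have hGo : IsOpen G := (gen_open T).inter (isOpen_iInter_of_finite fun i => gen_open (t i))
  have hGd : Dense G := (gen_dense T hT).inter_of_isOpen_left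
    (dense_iInter_of_isOpen (fun i => gen_open (t i)) fun i => gen_dense (t i) (ht i)) (gen_open T)
  have key : ∀ z ∈ G, (∑ i, if z ∈ interior (hull (t i)) then (1 : ℤ) else 0) =
      if z ∈ interior (hull T) then 1 else 0 := by
    intro z hz
    rw [← wind T hT z hz.1.1 hz.1.2, ← h, map_sum]
    refine Finset.sum_congr rfl fun i _ => ?_
    have := Set.mem_iInter.1 hz.2 i
    exact (wind (t i) (ht i) z this.1 this.2).symm
  have hle : ∀ z ∈ G, ∀ i, z ∈ interior (hull (t i)) → z ∈ interior (hull T) := by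
    intro z hz i hi
    by_contra hcon
    have h1 := key z hz
    rw [if_neg hcon] at h1
    have h2 := (Finset.sum_eq_zero_iff_of_nonneg (fun j _ => by split_ifs <;> norm_num)).1 h1 i
      (Finset.mem_univ i)
    rw [if_pos hi] at h2
    exact one_ne_zero h2
  refine ⟨hT, ht, ?_, ?_⟩
  · apply Set.Subset.antisymm
    · refine Set.iUnion_subset fun i => ?_
      refine (closure_int (t i) (ht i) G hGd hGo).trans ?_
      refine closure_minimal ?_ (hull_closed T)
      rintro z ⟨hz1, hz2⟩
      exact interior_subset (hle z hz2 i hz1)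
    · refine (closure_int T hT G hGd hGo).trans ?_
      refine closure_minimal ?_ (isClosed_iUnion_of_finite fun i => hull_closed (t i))
      rintro z ⟨hz1, hz2⟩
      have h1 := key z hz2
      rw [if_pos hz1] at h1
      by_contra hcon
      have h2 : (∑ i, if z ∈ interior (hull (t i)) then (1 : ℤ) else 0) = 0 := by
        refine Finset.sum_eq_zero fun i _ => ?_
        rw [if_neg]
        intro hi
        exact hcon (Set.mem_iUnion.2 ⟨i, interior_subset hi⟩)
      rw [h2] at h1
      exact zero_ne_one h1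
  · intro i j hij
    rw [Set.disjoint_iff_inter_eq_empty]
    by_contra hne
    have hne' := Set.nonempty_iff_ne_empty.2 hne
    obtain ⟨z, hz1, hz2⟩ := hGd.inter_open_nonempty _ (isOpen_interior.inter isOpen_interior) hne'
    have h1 := key z hz2
    rw [if_pos (hle z hz2 i hz1.1)] at h1
    have h2 : (∑ k ∈ ({i, j} : Finset (Fin N)), if z ∈ interior (hull (t k)) then (1 : ℤ) else 0) ≤
        ∑ k, if z ∈ interior (hull (t k)) then (1 : ℤ) else 0 :=
      Finset.sum_le_sum_of_subset_of_nonneg (Finset.subset_univ _)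
        (fun k _ _ => by split_ifs <;> norm_num)
    rw [Finset.sum_pair hij, if_pos hz1.1, if_pos hz1.2, h1] at h2
    norm_num at h2

end Pool.Agent.TH387
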