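import Mathlib
import Pool.Agent.Helper549.Tri.Defs
import Pool.Agent.Helper549.Tri.Opp
import Pool.Agent.Helper549.Tri.Odd
import Pool.Agent.Helper549.Tri.Corner
import Pool.Agent.Helper549.Tri.DataDef
import Pool.Agent.TH387.Base

/-!
# Job 40 (MP_a03157_co): a dissection gives the formal boundary identity; corners
-/

set_option autoImplicit false
noncomputable section
open scoped BigOperators

namespace Pool.Agent.TH609.J40
open Pool.Agent.Helper549.Tri Pool.Agent.TH387
open Pool.Agent.Helper549.Tri.Basic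

/-! ### Points near a point of the line of a side -/

theorem ev_ne (x u w : ℂ) (hu : ‖u‖ = 1) :
    ∀ᶠ ε : ℝ in nhdsWithin 0 (Set.Ioi 0), x + (ε : ℂ) * u ≠ w := by
  by_cases h : x = w
  · filter_upwards [self_mem_nhdsWithin] with ε hε
    have hε' : (0 : ℝ) < ε := hε
    intro h2
    rw [h, add_eq_left] at h2
    have h3 := congrArg norm h2
    rw [norm_mul, hu, mul_one, norm_zero, Complex.norm_real, Real.norm_of_nonneg hε'.le] at h3
    exact hε'.ne' h3
  · have hpos : 0 < ‖w - x‖ := norm_pos_iff.2 (sub_ne_zero.2 (Ne.symm h))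
    filter_upwards [Ioo_mem_nhdsGT hpos] with ε hε
    intro h2
    have h3 : (ε : ℂ) * u = w - x := by rw [← h2]; ring
    have h4 := congrArg norm h3
    rw [norm_mul, hu, mul_one, Complex.norm_real, Real.norm_of_nonneg hε.1.le] at h4
    exact absurd h4 hε.2.ne

theorem ev_real (σ ℓ : ℝ) : ∀ᶠ ε : ℝ in nhdsWithin 0 (Set.Ioi 0),
    ((0 < σ + ε ∧ σ + ε < ℓ) ↔ (0 ≤ σ ∧ σ < ℓ)) ∧
    ((0 < σ - ε ∧ σ - ε < ℓ) ↔ (0 < σ ∧ σ ≤ ℓ)) := by
  have h1 : ∀ᶠ ε : ℝ in nhdsWithin 0 (Set.Ioi 0), σ ≠ 0 → ε < |σ| := by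
    by_cases h : σ = 0
    · exact Filter.Eventually.of_forall fun ε h2 => absurd h h2
    · filter_upwards [Ioo_mem_nhdsGT (abs_pos.2 h)] with ε hε _
      exact hε.2
  have h2 : ∀ᶠ ε : ℝ in nhdsWithin 0 (Set.Ioi 0), ℓ - σ ≠ 0 → ε < |ℓ - σ| := by
    by_cases h : ℓ - σ = 0
    · exact Filter.Eventually.of_forall fun ε h2 => absurd h h2
    · filter_upwards [Ioo_mem_nhdsGT (abs_pos.2 h)] with ε hε _
      exact hε.2
  filter_upwards [h1, h2, self_mem_nhdsWithin] with ε e1 e2 hε
  have hε' : (0 : ℝ) < ε := hε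
  have f1 : σ < 0 → ε < -σ := fun h => by
    have := e1 h.ne
    rwa [abs_of_neg h] at this
  have f2 : 0 < σ → ε < σ := fun h => by
    have := e1 h.ne'
    rwa [abs_of_pos h] at this
  have f3 : ℓ - σ < 0 → ε < -(ℓ - σ) := fun h => by
    have := e2 h.ne
    rwa [abs_of_neg h] at this
  have f4 : 0 < ℓ - σ → ε < ℓ - σ := fun h => by
    have := e2 h.ne'
    rwa [abs_of_pos h] at this
  constructor
  · constructor
    · rintro ⟨a, b⟩
      refine ⟨?_, by linarith⟩
      by_contra hc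
      have := f1 (not_le.1 hc)
      linarith
    · rintro ⟨a, b⟩
      have := f4 (by linarith)
      exact ⟨by linarith, by linarith⟩
  · constructor
    · rintro ⟨a, b⟩
      refine ⟨by linarith, ?_⟩
      by_contra hc
      have := f3 (by linarith [not_le.1 hc])
      linarith
    · rintro ⟨a, b⟩
      have := f2 a
      exact ⟨by linarith, by linarith⟩

theorem side_par (v : Fin 3 → ℂ) (hv : 0 < dd v) (k : Fin 3) :
    v (k + 2) = v (k + 1) + (len v k : ℂ) * dir v k := by
  rw [← sd_eq v hv k, sd]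
  ring

theorem onSide_par (v : Fin 3 → ℂ) (hv : 0 < dd v) (k : Fin 3) (σ : ℝ) :
    onSide v k (v (k + 1) + (σ : ℂ) * dir v k) ↔ 0 < σ ∧ σ < len v k := by
  have hl := len_pos v hv k
  have hd : dir v k ≠ 0 := by
    intro h
    have := norm_dir v hv k
    rw [h, norm_zero] at this
    exact zero_ne_one this
  constructor
  · rintro ⟨a, b, ha, hb, hab, he⟩
    have ha' : a = 1 - b := by linarith
    subst ha'
    rw [side_par v hv k] at he
    have h1 : ((b * len v k : ℝ) : ℂ) * dir v k = (σ : ℂ) * dir v k := by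
      have h2 : (1 - b) • v (k + 1) + b • (v (k + 1) + (len v k : ℂ) * dir v k) =
          v (k + 1) + ((b * len v k : ℝ) : ℂ) * dir v k := by
        simp only [Complex.real_smul]
        push_cast
        ring
      rw [h2] at he
      exact add_left_cancel he
    have h3 : b * len v k = σ := by exact_mod_cast mul_right_cancel₀ hd h1
    rw [← h3]
    refine ⟨mul_pos hb hl, ?_⟩
    have : b < 1 := by linarith
    nlinarith
  · rintro ⟨h1, h2⟩
    refine ⟨1 - σ / len v k, σ / len v k, ?_, div_pos h1 hl, by ring, ?_⟩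
    · rw [sub_pos, div_lt_one hl]
      exact h2
    · rw [side_par v hv k]
      simp only [Complex.real_smul]
      have hl' : (len v k : ℂ) ≠ 0 := by exact_mod_cast hl.ne'
      push_cast
      field_simp
      ring

open Classical in
theorem lemA (v : Fin 3 → ℂ) (hv : 0 < dd v) (k : Fin 3) (x : ℂ) :
    ∀ᶠ ε : ℝ in nhdsWithin 0 (Set.Ioi 0),
      (if onSide v k (x + (ε : ℂ) * dir v k) then (1 : ℝ) else 0) -
        (if onSide v k (x - (ε : ℂ) * dir v k) then 1 else 0) =
      (if v (k + 1) = x then 1 else 0) - (if v (k + 2) = x then 1 else 0) := by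
  have hl := len_pos v hv k
  have hd : dir v k ≠ 0 := by
    intro h
    have := norm_dir v hv k
    rw [h, norm_zero] at this
    exact zero_ne_one this
  by_cases hx : ∃ σ : ℝ, x = v (k + 1) + (σ : ℂ) * dir v k
  · obtain ⟨σ, rfl⟩ := hx
    filter_upwards [ev_real σ (len v k)] with ε hε
    have e1 : v (k + 1) + (σ : ℂ) * dir v k + (ε : ℂ) * dir v k =
        v (k + 1) + ((σ + ε : ℝ) : ℂ) * dir v k := by push_cast; ring
    have e2 : v (k + 1) + (σ : ℂ) * dir v k - (ε : ℂ) * dir v k =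
        v (k + 1) + ((σ - ε : ℝ) : ℂ) * dir v k := by push_cast; ring
    have e3 : v (k + 1) = v (k + 1) + (σ : ℂ) * dir v k ↔ σ = 0 := by
      rw [left_eq_add, mul_eq_zero]
      simp [hd]
    have e4 : v (k + 2) = v (k + 1) + (σ : ℂ) * dir v k ↔ σ = len v k := by
      rw [side_par v hv k, add_right_inj]
      constructor
      · intro h
        have := mul_right_cancel₀ hd h
        exact_mod_cast this.symm
      · intro h
        rw [h]
    rw [e1, e2, if_congr ((onSide_par v hv k _).trans hε.1) rfl rfl,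
      if_congr ((onSide_par v hv k _).trans hε.2) rfl rfl, if_congr e3 rfl rfl, if_congr e4 rfl rfl]
    rcases lt_trichotomy σ 0 with h | h | h
    · have a1 : ¬ (0 ≤ σ ∧ σ < len v k) := fun h2 => absurd h2.1 (not_le.2 h)
      have a2 : ¬ (0 < σ ∧ σ ≤ len v k) := fun h2 => absurd h2.1 h.not_gt
      have a4 : ¬ σ = len v k := by linarith
      rw [if_neg a1, if_neg a2, if_neg h.ne, if_neg a4]
    · have a1 : (0 ≤ σ ∧ σ < len v k) := ⟨h.ge, by rw [h]; exact hl⟩
      have a2 : ¬ (0 < σ ∧ σ ≤ len v k) := fun h2 => absurd h2.1 (by rw [h]; exact lt_irrefl _)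
      have a4 : ¬ σ = len v k := by rw [h]; exact hl.ne
      rw [if_pos a1, if_neg a2, if_pos h, if_neg a4]
    · rcases lt_trichotomy σ (len v k) with h' | h' | h'
      · rw [if_pos ⟨h.le, h'⟩, if_pos ⟨h, h'.le⟩, if_neg h.ne', if_neg h'.ne]
        ring
      · have a1 : ¬ (0 ≤ σ ∧ σ < len v k) := fun h2 => absurd h2.2 (by rw [h']; exact lt_irrefl _)
        rw [if_neg a1, if_pos ⟨h, h'.le⟩, if_neg h.ne', if_pos h']
      · have a1 : ¬ (0 ≤ σ ∧ σ < len v k) := fun h2 => absurd h2.2 h'.not_gt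
        have a2 : ¬ (0 < σ ∧ σ ≤ len v k) := fun h2 => absurd h2.2 (not_le.2 h')
        rw [if_neg a1, if_neg a2, if_neg h.ne', if_neg h'.ne']
  · have hno : ∀ ε : ℝ, ¬ onSide v k (x + (ε : ℂ) * dir v k) := by
      rintro ε ⟨a, b, ha, hb, hab, he⟩
      apply hx
      refine ⟨b * len v k - ε, ?_⟩
      have ha' : a = 1 - b := by linarith
      subst ha'
      rw [side_par v hv k] at he
      simp only [Complex.real_smul] at he
      push_cast at he ⊢
      linear_combination -he
    have hno' : ∀ ε : ℝ, ¬ onSide v k (x - (ε : ℂ) * dir v k) := by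
      intro ε h
      apply hno (-ε)
      push_cast
      rwa [neg_mul, ← sub_eq_add_neg]
    have e3 : ¬ v (k + 1) = x := fun h => hx ⟨0, by rw [h]; simp⟩
    have e4 : ¬ v (k + 2) = x := fun h => hx ⟨len v k, by rw [← side_par v hv k, h]⟩
    refine Filter.Eventually.of_forall fun ε => ?_
    rw [if_neg (hno ε), if_neg (hno' ε), if_neg e3, if_neg e4]

open Classical in
/-- count of a side at `p` -/
def G (v : Fin 3 → ℂ) (k : Fin 3) (u p : ℂ) : ℝ :=
  if onSide v k p then ((if dir v k = u then (1:ℝ) else 0) - (if dir v k = -u then 1 else 0)) else 0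

open Classical in
/-- coefficient of a side -/
def Cf (v : Fin 3 → ℂ) (k : Fin 3) (u x : ℂ) : ℝ :=
  if dir v k = u ∨ dir v k = -u then
    (if v (k + 1) = x then 1 else 0) - (if v (k + 2) = x then 1 else 0) else 0

theorem lemB (v : Fin 3 → ℂ) (hv : 0 < dd v) (k : Fin 3) (u x : ℂ) (hu : ‖u‖ = 1) :
    ∀ᶠ ε : ℝ in nhdsWithin 0 (Set.Ioi 0),
      G v k u (x + (ε : ℂ) * u) - G v k u (x + (ε : ℂ) * (-u)) = Cf v k u x := by
  have hune : u ≠ -u := by
    intro h
    have h2 : u = 0 := self_eq_neg.mp h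
    rw [h2, norm_zero] at hu
    exact zero_ne_one hu
  by_cases h1 : dir v k = u
  · filter_upwards [lemA v hv k x] with ε hε
    have e1 : x + (ε : ℂ) * (-u) = x - (ε : ℂ) * u := by ring
    rw [h1] at hε
    simp only [G, Cf, h1, true_or, if_true, if_neg hune, sub_zero]
    rw [e1]
    exact hε
  · by_cases h2 : dir v k = -u
    · filter_upwards [lemA v hv k x] with ε hε
      have e1 : x - (ε : ℂ) * (-u) = x + (ε : ℂ) * u := by ring
      rw [h2, e1] at hε
      have hune' : ¬ (-u = u) := fun h => hune h.symm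
      simp only [G, Cf, h2, or_true, if_true, if_neg hune', zero_sub]
      rw [← hε]
      split_ifs <;> norm_num
    · refine Filter.Eventually.of_forall fun ε => ?_
      have h3 : ¬ (dir v k = u ∨ dir v k = -u) := by
        rintro (h | h)
        · exact h1 h
        · exact h2 h
      simp only [G, Cf, if_neg h1, if_neg h2, if_neg h3, sub_self, ite_self]

theorem cl_dir (v : Fin 3 → ℂ) (hv : 0 < dd v) (k : Fin 3) : cl (sd v k) = dir v k ^ 2 := by
  have hl := len_pos v hv k
  have hn := norm_dir v hv k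
  have hd : dir v k ≠ 0 := by
    intro h
    rw [h, norm_zero] at hn
    exact zero_ne_one hn
  have hc : (starRingEnd ℂ) (dir v k) ≠ 0 := (map_ne_zero _).2 hd
  have hl' : (len v k : ℂ) ≠ 0 := by exact_mod_cast hl.ne'
  have h1 : dir v k * (starRingEnd ℂ) (dir v k) = 1 := by
    rw [Complex.mul_conj, Complex.normSq_eq_norm_sq, hn]
    simp
  rw [cl, sd_eq v hv k, map_mul, Complex.conj_ofReal, mul_div_mul_left _ _ hl', div_eq_iff hc]
  linear_combination (-dir v k) * h1

theorem coef (v : Fin 3 → ℂ) (hv : 0 < dd v) (u x : ℂ) :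
    ((bdc v (u ^ 2, x) : ℤ) : ℝ) = -∑ k, Cf v k u x := by
  classical
  rw [bdc, Finsupp.finsetSum_apply, Int.cast_sum, ← Finset.sum_neg_distrib]
  refine Finset.sum_congr rfl fun k _ => ?_
  rw [seg, Finsupp.sub_apply, Finsupp.single_apply, Finsupp.single_apply]
  have e : cl (v (k + 2) - v (k + 1)) = dir v k ^ 2 := cl_dir v hv k
  rw [e]
  have e2 : dir v k ^ 2 = u ^ 2 ↔ (dir v k = u ∨ dir v k = -u) := sq_eq_sq_iff_eq_or_eq_neg
  simp only [Prod.mk.injEq, e2, Cf]
  by_cases h : dir v k = u ∨ dir v k = -u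
  · simp only [h, true_and, if_true]
    push_cast
    ring
  · simp only [h, false_and, if_false]
    simp

end Pool.Agent.TH609.J40

namespace Pool.Agent.TH387
open Pool.Agent.Helper549.Tri Pool.Agent.TH609.J40
open Pool.Agent.Helper549.Tri.Basic

/-- TARGET 1: in a dissection the formal boundaries add up -/
theorem dis_chain {N : ℕ} {T : Fin 3 → ℂ} {t : Fin N → Fin 3 → ℂ} (h : Dis N T t) :
    ∑ i, bdc (t i) = bdc T := by
  classical
  ext ⟨c, x⟩
  by_cases hc : ∃ u : ℂ, ‖u‖ = 1 ∧ u ^ 2 = c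
  · obtain ⟨u, hu, rfl⟩ := hc
    have hu0 : u ≠ 0 := by
      intro h0
      rw [h0, norm_zero] at hu
      exact zero_ne_one hu
    have hnu : ‖-u‖ = 1 := by rwa [norm_neg]
    have key : (∑ i, ∑ k, Cf (t i) k u x) = ∑ k, Cf T k u x := by
      have e1 : ∀ᶠ ε : ℝ in nhdsWithin 0 (Set.Ioi 0), ∀ i k,
          x + (ε : ℂ) * u ≠ t i k ∧ x + (ε : ℂ) * (-u) ≠ t i k ∧
          G (t i) k u (x + (ε : ℂ) * u) - G (t i) k u (x + (ε : ℂ) * (-u)) = Cf (t i) k u x := by
        refine Filter.eventually_all.2 fun i => Filter.eventually_all.2 fun k => ?_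
        exact (ev_ne x u _ hu).and ((ev_ne x (-u) _ hnu).and (lemB (t i) (h.ccwt i) k u x hu))
      have e2 : ∀ᶠ ε : ℝ in nhdsWithin 0 (Set.Ioi 0), ∀ k,
          x + (ε : ℂ) * u ≠ T k ∧ x + (ε : ℂ) * (-u) ≠ T k ∧
          G T k u (x + (ε : ℂ) * u) - G T k u (x + (ε : ℂ) * (-u)) = Cf T k u x := by
        refine Filter.eventually_all.2 fun k => ?_
        exact (ev_ne x u _ hu).and ((ev_ne x (-u) _ hnu).and (lemB T h.ccwT k u x hu))
      obtain ⟨ε, h1, h2⟩ := (e1.and e2).exists
      have s1 := Pool.Agent.Helper549.Tri.Opp.side_count h (x + (ε : ℂ) * u) u hu0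
        (fun i k => (h1 i k).1) (fun k => (h2 k).1)
      have s2 := Pool.Agent.Helper549.Tri.Opp.side_count h (x + (ε : ℂ) * (-u)) u hu0
        (fun i k => (h1 i k).2.1) (fun k => (h2 k).2.1)
      have s1' : (∑ i, ∑ k, G (t i) k u (x + (ε : ℂ) * u)) = ∑ k, G T k u (x + (ε : ℂ) * u) := s1
      have s2' : (∑ i, ∑ k, G (t i) k u (x + (ε : ℂ) * (-u))) =
          ∑ k, G T k u (x + (ε : ℂ) * (-u)) := s2
      calc (∑ i, ∑ k, Cf (t i) k u x)
          = ∑ i, ∑ k, (G (t i) k u (x + (ε : ℂ) * u) - G (t i) k u (x + (ε : ℂ) * (-u))) :=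
            Finset.sum_congr rfl fun i _ => Finset.sum_congr rfl fun k _ => ((h1 i k).2.2).symm
        _ = ∑ k, (G T k u (x + (ε : ℂ) * u) - G T k u (x + (ε : ℂ) * (-u))) := by
            simp only [Finset.sum_sub_distrib]
            rw [s1', s2']
        _ = ∑ k, Cf T k u x := Finset.sum_congr rfl fun k _ => (h2 k).2.2
    have : (((∑ i, bdc (t i)) (u ^ 2, x) : ℤ) : ℝ) = ((bdc T (u ^ 2, x) : ℤ) : ℝ) := by
      rw [Finsupp.finsetSum_apply, Int.cast_sum, coef T h.ccwT, ← key, ← Finset.sum_neg_distrib]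
      exact Finset.sum_congr rfl fun i _ => coef (t i) (h.ccwt i) u x
    exact_mod_cast this
  · have hz : ∀ v : Fin 3 → ℂ, 0 < dd v → bdc v (c, x) = 0 := by
      intro v hv
      rw [bdc, Finsupp.finsetSum_apply]
      refine Finset.sum_eq_zero fun k _ => ?_
      rw [seg, Finsupp.sub_apply, Finsupp.single_apply, Finsupp.single_apply]
      have e : cl (v (k + 2) - v (k + 1)) = dir v k ^ 2 := cl_dir v hv k
      rw [e]
      have hne : ¬ dir v k ^ 2 = c := fun h2 => hc ⟨dir v k, norm_dir v hv k, h2⟩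
      simp [hne]
    rw [Finsupp.finsetSum_apply, hz T h.ccwT]
    exact Finset.sum_eq_zero fun i _ => hz (t i) (h.ccwt i)

theorem bcnt_pos {N : ℕ} {T : Fin 3 → ℂ} {t : Fin N → Fin 3 → ℂ} {τ : Fin N → Equiv.Perm (Fin 3)}
    {j : Fin 3} {i : Fin N} {l : Fin 3} (h : onBd T (t i) l j) : 0 < bcnt T t τ j (τ i l) := by
  classical
  unfold bcnt
  have h1 : (1 : ℕ) ≤ ∑ l' : Fin 3, if onBd T (t i) l' j ∧ τ i l' = τ i l then 1 else 0 := by
    have := Finset.single_le_sum (f := fun l' : Fin 3 =>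
      if onBd T (t i) l' j ∧ τ i l' = τ i l then 1 else 0) (fun _ _ => Nat.zero_le _)
      (Finset.mem_univ l)
    simpa [h] using this
  have h2 := Finset.single_le_sum (f := fun i' : Fin N => ∑ l' : Fin 3,
    if onBd T (t i') l' j ∧ τ i' l' = τ i l then 1 else 0) (fun _ _ => Nat.zero_le _)
    (Finset.mem_univ i)
  exact lt_of_lt_of_le Nat.one_pos (h1.trans h2)

/-- TARGET 2: the corner information of a dissection into congruent tiles -/
theorem dis_corners {N : ℕ} {T : Fin 3 → ℂ} {t : Fin N → Fin 3 → ℂ} (h : Dis N T t)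
    (τ : Fin N → Equiv.Perm (Fin 3)) :
    Corners (fun j k => cnt t τ (T j) k) (fun j k => bcnt T t τ j k) := by
  classical
  intro j k1 k2 hk1 hk2 hk
  obtain ⟨i1, m1, l1, a1, a2, a3⟩ := Pool.Agent.Helper549.Tri.Corner.corner_side h j k1 hk1.symm
  obtain ⟨i2, m2, l2, b1, b2, b3⟩ := Pool.Agent.Helper549.Tri.Corner.corner_side h j k2 hk2.symm
  have hone : ∀ i m, t i m = T j → 1 ≤ ∑ m' : Fin 3, if t i m' = T j ∧ τ i m' = τ i m then 1 else 0 := by
    intro i m hm
    have := Finset.single_le_sum (f := fun m' : Fin 3 =>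
      if t i m' = T j ∧ τ i m' = τ i m then 1 else 0) (fun _ _ => Nat.zero_le _)
      (Finset.mem_univ m)
    simpa [hm] using this
  have hpos : ∀ i m, t i m = T j → 0 < cnt t τ (T j) (τ i m) := by
    intro i m hm
    unfold cnt
    have h2 := Finset.single_le_sum (f := fun i' : Fin N => ∑ m' : Fin 3,
      if t i' m' = T j ∧ τ i' m' = τ i m then 1 else 0) (fun _ _ => Nat.zero_le _)
      (Finset.mem_univ i)
    exact lt_of_lt_of_le Nat.one_pos ((hone i m hm).trans h2)
  refine ⟨τ i1 m1, τ i1 l1, τ i2 m2, τ i2 l2, fun e => a2 ((τ i1).injective e).symm,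
    fun e => b2 ((τ i2).injective e).symm, hpos i1 m1 a1, hpos i2 m2 b1, bcnt_pos a3, bcnt_pos b3, ?_⟩
  by_cases hi : i1 = i2
  · subst hi
    left
    have hm : m1 = m2 := vertex_inj (t i1) (h.ccwt i1) (a1.trans b1.symm)
    refine ⟨by rw [hm], fun e => ?_⟩
    have hl := (τ i1).injective e
    rw [← hl] at b3
    exact hk (Pool.Agent.Helper549.Tri.Corner.h_dir_inj T h.ccwT (a3.1.symm.trans b3.1))
  · by_cases hx : τ i1 m1 = τ i2 m2
    · right; right
      show 2 ≤ cnt t τ (T j) (τ i1 m1)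
      unfold cnt
      have h2 := Finset.sum_le_sum_of_subset (f := fun i' : Fin N => ∑ m' : Fin 3,
        if t i' m' = T j ∧ τ i' m' = τ i1 m1 then 1 else 0)
        (Finset.subset_univ ({i1, i2} : Finset (Fin N)))
      rw [Finset.sum_pair hi] at h2
      have h3 := hone i1 m1 a1
      have h4 := hone i2 m2 b1
      rw [← hx] at h4
      omega
    · right; left
      exact hx

end Pool.Agent.TH387
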