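import Mathlib

/-!
# Job 37 (MP_a03157_co): number theory of dissections with rational angles
-/

set_option autoImplicit false

namespace Pool.Agent.TH609.J37

theorem cases3 (x y z : Fin 3) (h1 : x ≠ y) (h2 : x ≠ z) (h3 : y ≠ z) (j : Fin 3) :
    j = x ∨ j = y ∨ j = z := by
  revert x y z j
  decide

theorem sum3 {M : Type*} [AddCommMonoid M] (f : Fin 3 → M) (x y z : Fin 3) (h1 : x ≠ y)
    (h2 : x ≠ z) (h3 : y ≠ z) : ∑ k, f k = f x + f y + f z := by
  have hu : (Finset.univ : Finset (Fin 3)) = {x, y, z} := by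
    revert x y z
    decide
  rw [hu, Finset.sum_insert (by simp [h1, h2]), Finset.sum_insert (by simp [h3]),
    Finset.sum_singleton, add_assoc]

/-- lifting of units -/
theorem lift (L n u : ℕ) (hL : 0 < L) (hn : n ∣ L) (hu : u.Coprime n) :
    ∃ m : ℕ, m.Coprime L ∧ m ≡ u [MOD n] := by
  have : NeZero L := ⟨hL.ne'⟩
  obtain ⟨v, hv⟩ := ZMod.unitsMap_surjective hn (ZMod.unitOfCoprime u hu)
  refine ⟨(v : ZMod L).val, ZMod.val_coe_unit_coprime v, ?_⟩
  rw [← ZMod.natCast_eq_natCast_iff]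
  have h2 := congrArg (fun w : (ZMod n)ˣ => (w : ZMod n)) hv
  simp only [ZMod.unitsMap_val, ZMod.coe_unitOfCoprime] at h2
  rw [ZMod.natCast_val, h2]

theorem scal (L h Q c a m w : ℕ) (hL : L = h * Q) (hc : c = h * a) (hm : m ≡ w [MOD Q]) :
    (m * c) % L = h * ((w * a) % Q) := by
  rw [hL, hc, show m * (h * a) = h * (m * a) by ring, Nat.mul_mod_mul_left]
  congr 1
  exact hm.mul_right a

section
variable {L : ℕ} {c : Fin 3 → ℕ} {κ : Fin 3 → Fin 3 → ℕ}

/-- the hypotheses -/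
structure Hyp (L : ℕ) (c : Fin 3 → ℕ) (κ : Fin 3 → Fin 3 → ℕ) : Prop where
  hL : 0 < L
  hc : ∀ k, 0 < c k
  hs : ∑ k, c k = L
  hκ : ∀ j, ∃ k, 0 < κ j k
  hK : ∀ m : ℕ, m.Coprime L → ∑ k, (m * c k) % L = L →
      ∑ k, (∑ j, κ j k) * ((m * c k) % L) = L

/-- the second and the third alternative -/
def Alt23 (L : ℕ) (c : Fin 3 → ℕ) (κ : Fin 3 → Fin 3 → ℕ) : Prop :=
  (∃ i j, i ≠ j ∧ ∑ k, κ i k * c k = ∑ k, κ j k * c k) ∨
    (∃ σ : Equiv.Perm (Fin 3), ∀ j : Fin 3, 6 * ∑ k, κ (σ j) k * c k = (j.val + 1) * L)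

theorem lt_L (H : Hyp L c κ) (k : Fin 3) : c k < L := by
  have h0 := H.hc 0
  have h1 := H.hc 1
  have h2 := H.hc 2
  have hs := H.hs
  rw [Fin.sum_univ_three] at hs
  have : k = 0 ∨ k = 1 ∨ k = 2 := by revert k; decide
  rcases this with e | e | e <;> rw [e] <;> omega

theorem one (H : Hyp L c κ) : ∑ k, (∑ j, κ j k) * c k = L := by
  have h1 := H.hK 1 (Nat.coprime_one_left L)
  have e : ∀ k, (1 * c k) % L = c k := fun k => by
    rw [one_mul, Nat.mod_eq_of_lt (lt_L H k)]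
  simp only [e] at h1
  exact h1 H.hs

/-- total of the angles -/
theorem tot (H : Hyp L c κ) : ∑ j, ∑ k, κ j k * c k = L := by
  rw [Finset.sum_comm]
  simp only [← Finset.sum_mul]
  exact one H

theorem contra (H : Hyp L c κ) (h Q w : ℕ) (a : Fin 3 → ℕ) (hL : L = h * Q)
    (hc : ∀ k, c k = h * a k) (hw : w.Coprime Q) (h1 : ∑ k, (w * a k) % Q = Q)
    (h2 : ∑ k, (∑ j, κ j k) * ((w * a k) % Q) ≠ Q) : False := by
  obtain ⟨m, hm, hmw⟩ := lift L Q w H.hL ⟨h, by rw [hL]; ring⟩ hw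
  have e : ∀ k, (m * c k) % L = h * ((w * a k) % Q) := fun k =>
    scal L h Q (c k) (a k) m w hL (hc k) hmw
  have h3 := H.hK m hm
  simp only [e] at h3
  rw [← Finset.mul_sum, h1] at h3
  have h4 := h3 hL.symm
  have h5 : ∑ k, (∑ j, κ j k) * (h * ((w * a k) % Q)) =
      h * ∑ k, (∑ j, κ j k) * ((w * a k) % Q) := by
    rw [Finset.mul_sum]
    exact Finset.sum_congr rfl fun k _ => by ring
  rw [h5] at h4
  have hh : 0 < h := by
    rcases Nat.eq_zero_or_pos h with h0 | h0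
    · exfalso
      have := H.hL
      rw [hL, h0, zero_mul] at this
      exact lt_irrefl _ this
    · exact h0
  apply h2
  have h6 : h * ∑ k, (∑ j, κ j k) * ((w * a k) % Q) = h * Q := by rw [h4]; exact hL
  exact Nat.eq_of_mul_eq_mul_left hh h6

theorem perm123 (B : Fin 3 → ℕ) (h1 : ∀ j, 0 < B j) (h2 : B 0 + B 1 + B 2 = 6)
    (h3 : B 0 ≠ B 1) (h4 : B 0 ≠ B 2) (h5 : B 1 ≠ B 2) :
    ∃ σ : Equiv.Perm (Fin 3), ∀ j : Fin 3, B (σ j) = j.val + 1 := by
  have key : ∀ a b d : Fin 5, (a.val + b.val + d.val = 6 ∧ 0 < a.val ∧ 0 < b.val ∧ 0 < d.val ∧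
      a ≠ b ∧ a ≠ d ∧ b ≠ d) → ∃ σ : Equiv.Perm (Fin 3), ∀ j : Fin 3,
      (![a.val, b.val, d.val] : Fin 3 → ℕ) (σ j) = j.val + 1 := by
    decide +kernel
  have g0 := h1 0
  have g1 := h1 1
  have g2 := h1 2
  have hB : B = ![B 0, B 1, B 2] := by
    funext k
    have : k = 0 ∨ k = 1 ∨ k = 2 := by revert k; decide
    rcases this with e | e | e <;> rw [e] <;> rfl
  obtain ⟨σ, hσ⟩ := key ⟨B 0, by omega⟩ ⟨B 1, by omega⟩ ⟨B 2, by omega⟩
    ⟨h2, g0, g1, g2, by simpa using h3, by simpa using h4, by simpa using h5⟩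
  refine ⟨σ, fun j => ?_⟩
  rw [hB]
  exact hσ j

/-- everything is a multiple of `L / Q`, `Q ≤ 6` -/
theorem finB (H : Hyp L c κ) (h Q : ℕ) (B : Fin 3 → ℕ) (hL : L = h * Q) (hQ : Q ≤ 6)
    (hA : ∀ j, ∑ k, κ j k * c k = h * B j) : Alt23 L c κ := by
  by_cases hcon : ∃ i j, i ≠ j ∧ ∑ k, κ i k * c k = ∑ k, κ j k * c k
  · exact Or.inl hcon
  have hh : 0 < h := by
    rcases Nat.eq_zero_or_pos h with h0 | h0
    · exfalso
      have := H.hL
      rw [hL, h0, zero_mul] at this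
      exact lt_irrefl _ this
    · exact h0
  have hpos : ∀ j, 0 < B j := by
    intro j
    obtain ⟨k, hk⟩ := H.hκ j
    have h1 : 0 < κ j k * c k := Nat.mul_pos hk (H.hc k)
    have h2 : 0 < ∑ k, κ j k * c k :=
      lt_of_lt_of_le h1 (Finset.single_le_sum (f := fun k => κ j k * c k)
        (fun _ _ => Nat.zero_le _) (Finset.mem_univ k))
    rw [hA] at h2
    exact Nat.pos_of_mul_pos_left h2
  have htot : ∑ j, B j = Q := by
    have h1 := tot H
    simp only [hA] at h1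
    rw [← Finset.mul_sum, hL] at h1
    exact Nat.eq_of_mul_eq_mul_left hh h1
  rw [Fin.sum_univ_three] at htot
  have hne : ∀ i j, i ≠ j → B i ≠ B j := by
    intro i j hij h1
    exact hcon ⟨i, j, hij, by rw [hA, hA, h1]⟩
  have e1 := hne 0 1 (by decide)
  have e2 := hne 0 2 (by decide)
  have e3 := hne 1 2 (by decide)
  have p0 := hpos 0
  have p1 := hpos 1
  have p2 := hpos 2
  have hQ6 : Q = 6 := by omega
  obtain ⟨σ, hσ⟩ := perm123 B hpos (by omega) e1 e2 e3
  right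
  refine ⟨σ, fun j => ?_⟩
  rw [hA, hσ j, hL, hQ6]
  ring

/-- three tiles at the corners, two of them of the same type -/
theorem three (H : Hyp L c κ) (hP : ∑ k, ∑ j, κ j k = 3) (x : Fin 3) (hx : 2 ≤ ∑ j, κ j x) :
    ∃ i j, i ≠ j ∧ ∑ k, κ i k * c k = ∑ k, κ j k * c k := by
  have hrow : ∀ j, ∑ k, κ j k = 1 := by
    have h1 : ∑ j, ∑ k, κ j k = 3 := by rw [Finset.sum_comm]; exact hP
    have h2 : ∀ j, 1 ≤ ∑ k, κ j k := by
      intro j
      obtain ⟨k, hk⟩ := H.hκ j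
      exact le_trans hk (Finset.single_le_sum (f := fun k => κ j k)
        (fun _ _ => Nat.zero_le _) (Finset.mem_univ k))
    rw [Fin.sum_univ_three] at h1
    have a0 := h2 0
    have a1 := h2 1
    have a2 := h2 2
    intro j
    have : j = 0 ∨ j = 1 ∨ j = 2 := by revert j; decide
    rcases this with e | e | e <;> rw [e] <;> omega
  have hle : ∀ j, κ j x ≤ 1 := by
    intro j
    rw [← hrow j]
    exact Finset.single_le_sum (f := fun k => κ j k) (fun _ _ => Nat.zero_le _)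
      (Finset.mem_univ x)
  have hval : ∀ j, κ j x = 1 → ∑ k, κ j k * c k = c x := by
    intro j hj
    have h0 : ∀ k, k ≠ x → κ j k = 0 := by
      intro k hk
      by_contra h0
      have := Finset.sum_le_sum_of_subset (f := fun k => κ j k)
        (Finset.subset_univ ({x, k} : Finset (Fin 3)))
      rw [Finset.sum_pair hk.symm, hrow j] at this
      omega
    rw [Finset.sum_eq_single x (fun k _ hk => by rw [h0 k hk, zero_mul])
      (fun h => absurd (Finset.mem_univ _) h), hj, one_mul]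
  rw [Fin.sum_univ_three] at hx
  have b0 := hle 0
  have b1 := hle 1
  have b2 := hle 2
  by_cases h0 : κ 0 x = 1
  · by_cases h1 : κ 1 x = 1
    · exact ⟨0, 1, by decide, by rw [hval 0 h0, hval 1 h1]⟩
    · have h2 : κ 2 x = 1 := by omega
      exact ⟨0, 2, by decide, by rw [hval 0 h0, hval 2 h2]⟩
  · have h1 : κ 1 x = 1 := by omega
    have h2 : κ 2 x = 1 := by omega
    exact ⟨1, 2, by decide, by rw [hval 1 h1, hval 2 h2]⟩

/-- every unit or its negative is plus -/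
theorem plus (H : Hyp L c κ) (m : ℕ) (hm : m.Coprime L) :
    (∑ k, (∑ j, κ j k) * ((m * c k) % L) = L) ∨
    (∑ k, (∑ j, κ j k) * (L - (m * c k) % L) = L) := by
  have hL := H.hL
  have hpos : ∀ k, 0 < (m * c k) % L := by
    intro k
    rcases Nat.eq_zero_or_pos ((m * c k) % L) with h0 | h0
    · exfalso
      have h1 : L ∣ m * c k := Nat.dvd_of_mod_eq_zero h0
      have h2 : L ∣ c k := (Nat.Coprime.symm hm).dvd_of_dvd_mul_left h1
      have h3 := Nat.le_of_dvd (H.hc k) h2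
      have h4 := lt_L H k
      omega
    · exact h0
  have hlt : ∀ k, (m * c k) % L < L := fun k => Nat.mod_lt _ hL
  have hmod : (∑ k, (m * c k) % L) % L = 0 := by
    rw [← Finset.sum_nat_mod, ← Finset.mul_sum, H.hs]
    simp
  have hsum : ∑ k, (m * c k) % L = L ∨ ∑ k, (m * c k) % L = 2 * L := by
    obtain ⟨q, hq⟩ := Nat.dvd_of_mod_eq_zero hmod
    rw [Fin.sum_univ_three] at hq ⊢
    have a0 := hpos 0
    have a1 := hpos 1
    have a2 := hpos 2
    have b0 := hlt 0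
    have b1 := hlt 1
    have b2 := hlt 2
    have q1 : 0 < q := by
      rcases Nat.eq_zero_or_pos q with h0 | h0
      · rw [h0, mul_zero] at hq; omega
      · exact h0
    have q2 : q < 3 := by
      by_contra h0
      have : L * 3 ≤ L * q := Nat.mul_le_mul_left L (by omega)
      omega
    have : q = 1 ∨ q = 2 := by omega
    rcases this with e | e
    · left; rw [hq, e, mul_one]
    · right; rw [hq, e, mul_comm]
  rcases hsum with h1 | h1
  · left
    exact H.hK m hm h1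
  · right
    -- the negative
    have hm1 : 0 < m ∨ L = 1 := by
      rcases Nat.eq_zero_or_pos m with h0 | h0
      · right
        rw [h0, Nat.coprime_zero_left] at hm
        exact hm
      · exact Or.inl h0
    have hneg : ∀ k, ((m * (L - 1)) * c k) % L = L - (m * c k) % L := by
      intro k
      have e1 : ((m * (L - 1)) * c k) % L + (m * c k) % L ≡ 0 [MOD L] := by
        have h2 : ((m * (L - 1)) * c k) % L + (m * c k) % L ≡
            (m * (L - 1)) * c k + m * c k [MOD L] :=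
          (Nat.mod_modEq _ _).add (Nat.mod_modEq _ _)
        refine h2.trans ?_
        have h3 : (m * (L - 1)) * c k + m * c k = (m * c k) * L := by
          obtain ⟨l, rfl⟩ : ∃ l, L = l + 1 := ⟨L - 1, by omega⟩
          simp only [Nat.add_sub_cancel]
          ring
        rw [h3]
        exact (Nat.modEq_zero_iff_dvd).2 ⟨m * c k, mul_comm _ _⟩
      obtain ⟨q, hq⟩ := (Nat.modEq_zero_iff_dvd).1 e1
      have a1 := hpos k
      have a2 := hlt k
      have a3 : ((m * (L - 1)) * c k) % L < L := Nat.mod_lt _ hL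
      have q1 : 0 < q := by
        rcases Nat.eq_zero_or_pos q with h0 | h0
        · rw [h0, mul_zero] at hq; omega
        · exact h0
      have q2 : q < 2 := by
        by_contra h0
        have : L * 2 ≤ L * q := Nat.mul_le_mul_left L (by omega)
        omega
      have : q = 1 := by omega
      rw [this, mul_one] at hq
      omega
    have hcop : (m * (L - 1)).Coprime L := by
      refine Nat.Coprime.mul_left hm ?_
      rw [Nat.coprime_comm]
      have : L = (L - 1) + 1 := by omega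
      conv_lhs => rw [this]
      simp
    have h2 := H.hK (m * (L - 1)) hcop
    simp only [hneg] at h2
    apply h2
    rw [Fin.sum_univ_three] at h1 ⊢
    have b0 := hlt 0
    have b1 := hlt 1
    have b2 := hlt 2
    omega


theorem finA (H : Hyp L c κ) (h Q : ℕ) (a : Fin 3 → ℕ) (hL : L = h * Q) (hQ : Q ≤ 6)
    (hc : ∀ k, c k = h * a k) : Alt23 L c κ := by
  refine finB H h Q (fun j => ∑ k, κ j k * a k) hL hQ fun j => ?_
  rw [Finset.mul_sum]
  exact Finset.sum_congr rfl fun k _ => by rw [hc k]; ring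


theorem cop_odd (k : ℕ) : k.Coprime (2 * k + 1) := by
  have : 2 * k + 1 = k + (k + 1) := by ring
  rw [this, Nat.coprime_self_add_right]
  simp

theorem cop_four (l : ℕ) : (2 * l + 1).Coprime (4 * (l + 1)) := by
  have h1 : (2 * l + 1).Coprime 2 := by
    rw [Nat.coprime_two_right]
    exact ⟨l, rfl⟩
  have h2 : (2 * l + 1).Coprime (2 * (l + 1)) := by
    have : 2 * (l + 1) = (2 * l + 1) + 1 := by ring
    rw [this]
    simp
  have : 4 * (l + 1) = 2 * (2 * (l + 1)) := by ring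
  rw [this]
  exact Nat.Coprime.mul_right h1 h2

theorem cop_four' (l : ℕ) : (2 * l + 1).Coprime (4 * (l + 1) + 2) := by
  have h1 : (2 * l + 1).Coprime 2 := by
    rw [Nat.coprime_two_right]
    exact ⟨l, rfl⟩
  have h2 : (2 * l + 1).Coprime (2 * (l + 1) + 1) := by
    have : 2 * (l + 1) + 1 = (2 * l + 1) + 2 := by ring
    rw [this, Nat.coprime_self_add_right]
    exact h1
  have : 4 * (l + 1) + 2 = 2 * (2 * (l + 1) + 1) := by ring
  rw [this]
  exact Nat.Coprime.mul_right h1 h2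

/-- a unit in the middle -/
theorem mid (n : ℕ) (hn : 7 ≤ n) : ∃ u, u.Coprime n ∧ 1 < u ∧ u < n - 1 := by
  rcases Nat.even_or_odd' n with ⟨k, rfl | rfl⟩
  · rcases Nat.even_or_odd' k with ⟨l, rfl | rfl⟩
    · obtain ⟨l, rfl⟩ : ∃ l', l = l' + 1 := ⟨l - 1, by omega⟩
      refine ⟨2 * l + 1, ?_, by omega, by omega⟩
      have := cop_four l
      rwa [show 2 * (2 * (l + 1)) = 4 * (l + 1) by ring]
    · obtain ⟨l, rfl⟩ : ∃ l', l = l' + 1 := ⟨l - 1, by omega⟩
      refine ⟨2 * l + 1, ?_, by omega, by omega⟩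
      have := cop_four' l
      rwa [show 2 * (2 * (l + 1) + 1) = 4 * (l + 1) + 2 by ring]
  · refine ⟨2, ?_, by omega, by omega⟩
    rw [Nat.coprime_two_left]
    exact ⟨k, rfl⟩

/-- one type only -/
theorem py0 (H : Hyp L c κ) (x y z : Fin 3) (h1 : x ≠ y) (h2 : x ≠ z) (h3 : y ≠ z)
    (hz : ∑ j, κ j z = 0) (hy : ∑ j, κ j y = 0) : Alt23 L c κ := by
  have hone := one H
  rw [sum3 _ x y z h1 h2 h3, hy, hz, zero_mul, zero_mul, add_zero, add_zero] at hone
  have hyj : ∀ j, κ j y = 0 := fun j => (Finset.sum_eq_zero_iff.1 hy) j (Finset.mem_univ j)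
  have hzj : ∀ j, κ j z = 0 := fun j => (Finset.sum_eq_zero_iff.1 hz) j (Finset.mem_univ j)
  have hA : ∀ j, ∑ k, κ j k * c k = c x * κ j x := by
    intro j
    rw [sum3 _ x y z h1 h2 h3, hyj, hzj]
    ring
  have hLP : L = c x * ∑ j, κ j x := by rw [← hone]; ring
  by_cases h7 : ∑ j, κ j x ≤ 6
  · exact finB H (c x) _ (fun j => κ j x) hLP h7 hA
  exfalso
  obtain ⟨u, hu, hu1, hu2⟩ := mid (∑ j, κ j x) (by omega)
  obtain ⟨m, hm, hmu⟩ := lift L _ u H.hL ⟨c x, by rw [mul_comm]; exact hLP⟩ hu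
  have hcx := H.hc x
  have e : (m * c x) % L = c x * u := by
    rw [scal L (c x) (∑ j, κ j x) (c x) 1 m u hLP (by ring) hmu, mul_one,
      Nat.mod_eq_of_lt (by omega)]
  rcases plus H m hm with h | h
  · rw [sum3 _ x y z h1 h2 h3, hy, hz, e] at h
    have h4 : c x * ((∑ j, κ j x) * u) = c x * ((∑ j, κ j x) * 1) := by
      have : c x * ((∑ j, κ j x) * u) = (∑ j, κ j x) * (c x * u) + 0 * (m * c y % L) +
        0 * (m * c z % L) := by ring
      rw [this, h, hLP]
      ring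
    have h5 := Nat.eq_of_mul_eq_mul_left hcx h4
    have h6 := Nat.eq_of_mul_eq_mul_left (by omega) h5
    omega
  · rw [sum3 _ x y z h1 h2 h3, hy, hz, e, zero_mul, zero_mul, add_zero, add_zero] at h
    obtain ⟨v, hv⟩ : ∃ v, ∑ j, κ j x = u + v := ⟨∑ j, κ j x - u, by omega⟩
    have h4 : L - c x * u = c x * v := by
      rw [hLP, hv, mul_add]
      omega
    rw [h4] at h
    have h5 : c x * ((∑ j, κ j x) * v) = c x * ((∑ j, κ j x) * 1) := by
      have : c x * ((∑ j, κ j x) * v) = (∑ j, κ j x) * (c x * v) := by ring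
      rw [this, h, mul_one]
      exact hLP
    have h6 := Nat.eq_of_mul_eq_mul_left hcx h5
    have h7 := Nat.eq_of_mul_eq_mul_left (by omega) h6
    omega

/-- the first fraction -/
theorem frac (H : Hyp L c κ) (x y z : Fin 3) (h1 : x ≠ y) (h2 : x ≠ z) (h3 : y ≠ z)
    (hz : ∑ j, κ j z = 0) (hy : 1 ≤ ∑ j, κ j y) (hx : 3 ≤ ∑ j, κ j x) :
    ∃ g, 0 < g ∧
    ((L = g * 4 ∧ c x = g ∧ ∑ j, κ j x = 3) ∨
     (L = g * 6 ∧ c x = g ∧ ∑ j, κ j x ≤ 5) ∨
     (L = g * 10 ∧ c x = g ∧ ∑ j, κ j x = 3) ∨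
     (L = g * 10 ∧ c x = g * 3 ∧ ∑ j, κ j x = 3)) := by
  have hone := one H
  rw [sum3 _ x y z h1 h2 h3, hz, zero_mul, add_zero] at hone
  have hL := H.hL
  have hcx := H.hc x
  have hcy := H.hc y
  obtain ⟨g, n, r, hg, hnr, hn, hr⟩ : ∃ g n r : ℕ, 0 < g ∧ r.Coprime n ∧ L = g * n ∧
      c x = g * r := by
    have hg0 : 0 < Nat.gcd (c x) L := Nat.gcd_pos_of_pos_left _ hcx
    obtain ⟨g, a, b, hg, hco, ha, hb⟩ := Nat.exists_coprime' (m := c x) (n := L) hg0
    exact ⟨g, b, a, hg, hco, by rw [hb]; ring, by rw [ha]; ring⟩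
  generalize hP : ∑ j, κ j x = p at *
  generalize hR : ∑ j, κ j y = q at *
  have hn0 : 0 < n := by
    rcases Nat.eq_zero_or_pos n with h0 | h0
    · rw [h0, mul_zero] at hn; omega
    · exact h0
  have key : ∀ u, u.Coprime n → u < n → p * u < n ∨ p * (n - u) < n := by
    intro u hu hun
    -- invert `r`
    have : NeZero n := ⟨hn0.ne'⟩
    obtain ⟨w, hw, hwu⟩ : ∃ w, w.Coprime n ∧ w * r ≡ u [MOD n] := by
      refine ⟨(ZMod.unitOfCoprime u hu * (ZMod.unitOfCoprime r hnr)⁻¹ : (ZMod n)ˣ).val.val,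
        ZMod.val_coe_unit_coprime _, ?_⟩
      rw [← ZMod.natCast_eq_natCast_iff]
      push_cast
      rw [ZMod.natCast_val, ZMod.cast_id', id]
      have : (r : ZMod n) = ((ZMod.unitOfCoprime r hnr : (ZMod n)ˣ) : ZMod n) := by simp
      rw [this, mul_assoc, Units.inv_mul, mul_one]
      rfl
    obtain ⟨m, hm, hmw⟩ := lift L n w hL ⟨g, by rw [hn]; ring⟩ hw
    have e : (m * c x) % L = g * u := by
      rw [scal L g n (c x) r m w hn hr hmw]
      congr 1
      have : w * r % n = u % n := hwu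
      rw [this, Nat.mod_eq_of_lt hun]
    have hfy : (m * c y) % L < L := Nat.mod_lt _ hL
    have hfy0 : 0 < (m * c y) % L := by
      rcases Nat.eq_zero_or_pos ((m * c y) % L) with h0 | h0
      · exfalso
        have h1 : L ∣ m * c y := Nat.dvd_of_mod_eq_zero h0
        have h2 : L ∣ c y := (Nat.Coprime.symm hm).dvd_of_dvd_mul_left h1
        have h3 := Nat.le_of_dvd hcy h2
        have h4 := lt_L H y
        omega
      · exact h0
    rcases plus H m hm with h | h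
    · left
      rw [sum3 _ x y z h1 h2 h3, hP, hR, hz, e, zero_mul, add_zero] at h
      have h4 : 0 < q * (m * c y % L) := Nat.mul_pos hy hfy0
      have h5 : g * (p * u) < g * n := by
        rw [← hn]
        have : g * (p * u) = p * (g * u) := by ring
        omega
      exact Nat.lt_of_mul_lt_mul_left h5
    · right
      rw [sum3 _ x y z h1 h2 h3, hP, hR, hz, e, zero_mul, add_zero] at h
      have h4 : 0 < q * (L - m * c y % L) := Nat.mul_pos hy (by omega)
      have h5 : g * (p * (n - u)) < g * n := by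
        rw [← hn]
        have h6 : L - g * u = g * (n - u) := by rw [hn, Nat.mul_sub]
        have : g * (p * (n - u)) = p * (g * (n - u)) := by ring
        rw [h6] at h
        omega
      exact Nat.lt_of_mul_lt_mul_left h5
  have hprn : p * r < n := by
    have h4 : g * (p * r) < g * n := by
      rw [← hn]
      have h5 : 0 < q * c y := Nat.mul_pos hy hcy
      have : g * (p * r) = p * c x := by rw [hr]; ring
      omega
    exact Nat.lt_of_mul_lt_mul_left h4
  have hr0 : 0 < r := by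
    rcases Nat.eq_zero_or_pos r with h0 | h0
    · rw [h0, mul_zero] at hr; omega
    · exact h0
  have hn' : n = 4 ∨ n = 6 ∨ n = 10 := by
    rcases Nat.even_or_odd' n with ⟨k, rfl | rfl⟩
    · rcases Nat.even_or_odd' k with ⟨l, rfl | rfl⟩
      · obtain ⟨l, rfl⟩ : ∃ l', l = l' + 1 := ⟨l - 1, by omega⟩
        have h4 := cop_four l
        rw [show 4 * (l + 1) = 2 * (2 * (l + 1)) by ring] at h4
        rcases key _ h4 (by omega) with h5 | h5
        · have : 3 * (2 * l + 1) ≤ p * (2 * l + 1) := Nat.mul_le_mul_right _ hx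
          omega
        · have : 3 * (2 * (2 * (l + 1)) - (2 * l + 1)) ≤ p * (2 * (2 * (l + 1)) - (2 * l + 1)) :=
            Nat.mul_le_mul_right _ hx
          omega
      · rcases Nat.eq_zero_or_pos l with h0 | h0
        · subst h0
          have : 3 * r ≤ p * r := Nat.mul_le_mul_right _ hx
          omega
        obtain ⟨l, rfl⟩ : ∃ l', l = l' + 1 := ⟨l - 1, by omega⟩
        have h4 := cop_four' l
        rw [show 4 * (l + 1) + 2 = 2 * (2 * (l + 1) + 1) by ring] at h4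
        rcases key _ h4 (by omega) with h5 | h5
        · have : 3 * (2 * l + 1) ≤ p * (2 * l + 1) := Nat.mul_le_mul_right _ hx
          omega
        · have : 3 * (2 * (2 * (l + 1) + 1) - (2 * l + 1)) ≤
              p * (2 * (2 * (l + 1) + 1) - (2 * l + 1)) := Nat.mul_le_mul_right _ hx
          omega
    · have h4 := cop_odd k
      have h6 : 3 * r ≤ p * r := Nat.mul_le_mul_right _ hx
      rcases key _ h4 (by omega) with h5 | h5
      · have : 3 * k ≤ p * k := Nat.mul_le_mul_right _ hx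
        omega
      · have : 3 * (2 * k + 1 - k) ≤ p * (2 * k + 1 - k) := Nat.mul_le_mul_right _ hx
        omega
  refine ⟨g, hg, ?_⟩
  have h3r : 3 * r ≤ p * r := Nat.mul_le_mul_right _ hx
  rcases hn' with e | e | e
  · left
    subst e
    have hr1 : r = 1 := by omega
    rw [hr1, mul_one] at hprn hr
    exact ⟨hn, hr, by omega⟩
  · right; left
    subst e
    have hr1 : r = 1 := by omega
    rw [hr1, mul_one] at hprn hr
    exact ⟨hn, hr, by omega⟩
  · right; right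
    subst e
    have hr1 : r = 1 ∨ r = 2 ∨ r = 3 := by omega
    rcases hr1 with e | e | e
    · left
      rw [e, mul_one] at hprn hr
      refine ⟨hn, hr, ?_⟩
      have h4 := key 3 (by decide) (by omega)
      omega
    · exfalso
      rw [e] at hnr
      exact absurd hnr (by decide)
    · right
      rw [e] at hprn hr
      refine ⟨hn, hr, by omega⟩

/-- the last two alternatives -/
def Alt45 (L : ℕ) (c : Fin 3 → ℕ) (κ : Fin 3 → Fin 3 → ℕ) : Prop :=
  (∃ x y z : Fin 3, x ≠ y ∧ x ≠ z ∧ y ≠ z ∧ 2 * c z = L ∧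
      ∑ j, κ j x = 2 ∧ ∑ j, κ j y = 2 ∧ ∑ j, κ j z = 0) ∨
    (∃ x y z : Fin 3, x ≠ y ∧ x ≠ z ∧ y ≠ z ∧
      ((10 * c x = L ∧ 5 * c y = L ∧ 10 * c z = 7 * L ∧
          ∑ j, κ j x = 3 ∧ ∑ j, κ j y = 0 ∧ ∑ j, κ j z = 1) ∨
       (10 * c x = 3 * L ∧ 5 * c y = 3 * L ∧ 10 * c z = L ∧
          ∑ j, κ j x = 3 ∧ ∑ j, κ j y = 0 ∧ ∑ j, κ j z = 1)))

/-- a function with three given values -/
def fn (x y : Fin 3) (a b d : ℕ) : Fin 3 → ℕ := fun k => if k = x then a else if k = y then b else d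

theorem fn_x (x y : Fin 3) (a b d : ℕ) : fn x y a b d x = a := by simp [fn]
theorem fn_y (x y : Fin 3) (h : x ≠ y) (a b d : ℕ) : fn x y a b d y = b := by
  simp [fn, h.symm]
theorem fn_z (x y z : Fin 3) (h2 : x ≠ z) (h3 : y ≠ z) (a b d : ℕ) : fn x y a b d z = d := by
  simp [fn, h2.symm, h3.symm]

theorem fn_all (x y z : Fin 3) (h1 : x ≠ y) (h2 : x ≠ z) (h3 : y ≠ z) (h a b d : ℕ)
    (hx : c x = h * a) (hy : c y = h * b) (hz : c z = h * d) (k : Fin 3) :
    c k = h * fn x y a b d k := by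
  rcases cases3 x y z h1 h2 h3 k with e | e | e
  · rw [e, fn_x, hx]
  · rw [e, fn_y _ _ h1, hy]
  · rw [e, fn_z _ _ _ h2 h3, hz]

theorem con3 (H : Hyp L c κ) (x y z : Fin 3) (h1 : x ≠ y) (h2 : x ≠ z) (h3 : y ≠ z)
    (hz : ∑ j, κ j z = 0) (p : ℕ) (hx : ∑ j, κ j x = p) (hy : ∑ j, κ j y = 2)
    (h Q w a b d : ℕ) (hL : L = h * Q) (ha : c x = h * a) (hb : c y = h * b) (hd : c z = h * d)
    (hw : w.Coprime Q) (e1 : (w * a) % Q + (w * b) % Q + (w * d) % Q = Q)
    (e2 : p * ((w * a) % Q) + 2 * ((w * b) % Q) ≠ Q) : False := by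
  refine contra H h Q w (fn x y a b d) hL (fn_all x y z h1 h2 h3 h a b d ha hb hd) hw ?_ ?_
  · rw [sum3 _ x y z h1 h2 h3, fn_x, fn_y _ _ h1, fn_z _ _ _ h2 h3]
    exact e1
  · rw [sum3 _ x y z h1 h2 h3, fn_x, fn_y _ _ h1, fn_z _ _ _ h2 h3, hx, hy, hz]
    intro h0
    apply e2
    rw [zero_mul, add_zero] at h0
    exact h0

theorem main (H : Hyp L c κ) (x y z : Fin 3) (h1 : x ≠ y) (h2 : x ≠ z) (h3 : y ≠ z)
    (hz : ∑ j, κ j z = 0) (hxy : ∑ j, κ j y ≤ ∑ j, κ j x) : Alt23 L c κ ∨ Alt45 L c κ := by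
  have hone := one H
  rw [sum3 _ x y z h1 h2 h3, hz, zero_mul, add_zero] at hone
  have hsum := H.hs
  rw [sum3 _ x y z h1 h2 h3] at hsum
  have hL := H.hL
  have hcx := H.hc x
  have hcy := H.hc y
  have hcz := H.hc z
  have htot : 3 ≤ ∑ j, κ j x + ∑ j, κ j y := by
    have h4 : ∀ j, 1 ≤ ∑ k, κ j k := by
      intro j
      obtain ⟨k, hk⟩ := H.hκ j
      exact le_trans hk (Finset.single_le_sum (f := fun k => κ j k)
        (fun _ _ => Nat.zero_le _) (Finset.mem_univ k))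
    have h5 : ∑ j, ∑ k, κ j k = ∑ k, ∑ j, κ j k := Finset.sum_comm
    rw [sum3 (fun k => ∑ j, κ j k) x y z h1 h2 h3, hz, add_zero] at h5
    rw [← h5, Fin.sum_univ_three]
    have a0 := h4 0
    have a1 := h4 1
    have a2 := h4 2
    omega
  by_cases hy0 : ∑ j, κ j y = 0
  · exact Or.inl (py0 H x y z h1 h2 h3 hz hy0)
  by_cases h3' : ∑ j, κ j x + ∑ j, κ j y = 3
  · left; left
    refine three H ?_ x (by omega)
    rw [sum3 (fun k => ∑ j, κ j k) x y z h1 h2 h3, hz, add_zero]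
    exact h3'
  by_cases hx2 : ∑ j, κ j x ≤ 2
  · -- both are two
    right; left
    have hx' : ∑ j, κ j x = 2 := by omega
    have hy' : ∑ j, κ j y = 2 := by omega
    refine ⟨x, y, z, h1, h2, h3, ?_, hx', hy', hz⟩
    rw [hx', hy'] at hone
    omega
  obtain ⟨g, hg, hcase⟩ := frac H x y z h1 h2 h3 hz (by omega) (by omega)
  by_cases hy3 : 3 ≤ ∑ j, κ j y
  · obtain ⟨g', hg', hcase'⟩ := frac H y x z h1.symm h3 h2 hz (by omega) hy3
    -- both are three
    have hboth : ∑ j, κ j x = 3 ∧ ∑ j, κ j y = 3 ∧ L = g * 6 ∧ c x = g ∧ c y = g := by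
      rcases hcase with ⟨q1, q2, q3⟩ | ⟨q1, q2, q3⟩ | ⟨q1, q2, q3⟩ | ⟨q1, q2, q3⟩
      · exfalso
        rw [q3, q2] at hone
        have : ∑ j, κ j y = 3 := by omega
        rw [this] at hone
        rcases hcase' with ⟨w1, w2, w3⟩ | ⟨w1, w2, w3⟩ | ⟨w1, w2, w3⟩ | ⟨w1, w2, w3⟩ <;> omega
      · have hp : ∑ j, κ j x = 3 ∨ ∑ j, κ j x = 4 ∨ ∑ j, κ j x = 5 := by omega
        have hq : ∑ j, κ j y = 3 ∨ ∑ j, κ j y = 4 ∨ ∑ j, κ j y = 5 := by omega
        rcases hp with hp | hp | hp <;> rcases hq with hq | hq | hq <;> rw [hp, hq] at hone <;>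
        rcases hcase' with ⟨w1, w2, w3⟩ | ⟨w1, w2, w3⟩ | ⟨w1, w2, w3⟩ | ⟨w1, w2, w3⟩ <;> omega
      · exfalso
        rw [q3, q2] at hone
        have : ∑ j, κ j y = 3 := by omega
        rw [this] at hone
        rcases hcase' with ⟨w1, w2, w3⟩ | ⟨w1, w2, w3⟩ | ⟨w1, w2, w3⟩ | ⟨w1, w2, w3⟩ <;> omega
      · exfalso
        rw [q3, q2] at hone
        have : ∑ j, κ j y = 3 := by omega
        rw [this] at hone
        rcases hcase' with ⟨w1, w2, w3⟩ | ⟨w1, w2, w3⟩ | ⟨w1, w2, w3⟩ | ⟨w1, w2, w3⟩ <;> omega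
    obtain ⟨-, -, q1, q2, q3⟩ := hboth
    left
    exact finA H g 6 (fn x y 1 1 4) q1 le_rfl
      (fn_all x y z h1 h2 h3 g 1 1 4 (by omega) (by omega) (by omega))
  have hy12 : ∑ j, κ j y = 1 ∨ ∑ j, κ j y = 2 := by omega
  rcases hy12 with hy1 | hy2
  · rw [hy1, one_mul] at hone
    rcases hcase with ⟨q1, q2, q3⟩ | ⟨q1, q2, q3⟩ | ⟨q1, q2, q3⟩ | ⟨q1, q2, q3⟩
    · left
      rw [q3] at hone
      exact finA H g 4 (fn x y 1 1 2) q1 (by norm_num)
        (fn_all x y z h1 h2 h3 g 1 1 2 (by omega) (by omega) (by omega))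
    · left
      have hp : ∑ j, κ j x = 3 ∨ ∑ j, κ j x = 4 ∨ ∑ j, κ j x = 5 := by omega
      rcases hp with hp | hp | hp <;> rw [hp] at hone
      · exact finA H g 6 (fn x y 1 3 2) q1 le_rfl
          (fn_all x y z h1 h2 h3 g 1 3 2 (by omega) (by omega) (by omega))
      · exact finA H g 6 (fn x y 1 2 3) q1 le_rfl
          (fn_all x y z h1 h2 h3 g 1 2 3 (by omega) (by omega) (by omega))
      · exact finA H g 6 (fn x y 1 1 4) q1 le_rfl
          (fn_all x y z h1 h2 h3 g 1 1 4 (by omega) (by omega) (by omega))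
    · right; right
      rw [q3] at hone
      exact ⟨x, z, y, h2, h1, h3.symm, Or.inl ⟨by omega, by omega, by omega, q3, hz, hy1⟩⟩
    · right; right
      rw [q3] at hone
      exact ⟨x, z, y, h2, h1, h3.symm, Or.inr ⟨by omega, by omega, by omega, q3, hz, hy1⟩⟩
  · rw [hy2] at hone
    rcases hcase with ⟨q1, q2, q3⟩ | ⟨q1, q2, q3⟩ | ⟨q1, q2, q3⟩ | ⟨q1, q2, q3⟩
    · exfalso
      rw [q3] at hone
      obtain ⟨h, hh⟩ : ∃ h, g = 2 * h := ⟨g / 2, by omega⟩
      exact con3 H x y z h1 h2 h3 hz 3 q3 hy2 h 8 5 2 1 5 (by omega) (by omega) (by omega)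
        (by omega) (by decide) (by decide) (by decide)
    · have hp : ∑ j, κ j x = 3 ∨ ∑ j, κ j x = 4 ∨ ∑ j, κ j x = 5 := by omega
      rcases hp with hp | hp | hp <;> rw [hp] at hone
      · exfalso
        obtain ⟨h, hh⟩ : ∃ h, g = 2 * h := ⟨g / 2, by omega⟩
        exact con3 H x y z h1 h2 h3 hz 3 hp hy2 h 12 7 2 3 7 (by omega) (by omega) (by omega)
          (by omega) (by decide) (by decide) (by decide)
      · left
        exact finA H g 6 (fn x y 1 1 4) q1 le_rfl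
          (fn_all x y z h1 h2 h3 g 1 1 4 (by omega) (by omega) (by omega))
      · exfalso
        obtain ⟨h, hh⟩ : ∃ h, g = 2 * h := ⟨g / 2, by omega⟩
        exact con3 H x y z h1 h2 h3 hz 5 hp hy2 h 12 7 2 1 9 (by omega) (by omega) (by omega)
          (by omega) (by decide) (by decide) (by decide)
    · exfalso
      rw [q3] at hone
      obtain ⟨h, hh⟩ : ∃ h, g = 2 * h := ⟨g / 2, by omega⟩
      exact con3 H x y z h1 h2 h3 hz 3 q3 hy2 h 20 13 2 7 11 (by omega) (by omega) (by omega)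
        (by omega) (by decide) (by decide) (by decide)
    · exfalso
      rw [q3] at hone
      obtain ⟨h, hh⟩ : ∃ h, g = 2 * h := ⟨g / 2, by omega⟩
      exact con3 H x y z h1 h2 h3 hz 3 q3 hy2 h 20 11 6 1 13 (by omega) (by omega) (by omega)
        (by omega) (by decide) (by decide) (by decide)

end

end Pool.Agent.TH609.J37

namespace Pool.Agent.TH387

open Pool.Agent.TH609.J37 in
/-- number theory of dissections with rational tile angles `π c k / L` -/
theorem ratlem (L : ℕ) (hL : 0 < L) (c : Fin 3 → ℕ) (hc : ∀ k, 0 < c k) (hs : ∑ k, c k = L)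
    (κ : Fin 3 → Fin 3 → ℕ) (hκ : ∀ j, ∃ k, 0 < κ j k)
    (hK : ∀ m : ℕ, m.Coprime L → ∑ k, (m * c k) % L = L →
      ∑ k, (∑ j, κ j k) * ((m * c k) % L) = L) :
    (∀ k, ∑ j, κ j k = 1) ∨
    (∃ i j, i ≠ j ∧ ∑ k, κ i k * c k = ∑ k, κ j k * c k) ∨
    (∃ σ : Equiv.Perm (Fin 3), ∀ j : Fin 3, 6 * ∑ k, κ (σ j) k * c k = (j.val + 1) * L) ∨
    (∃ x y z : Fin 3, x ≠ y ∧ x ≠ z ∧ y ≠ z ∧ 2 * c z = L ∧
      ∑ j, κ j x = 2 ∧ ∑ j, κ j y = 2 ∧ ∑ j, κ j z = 0) ∨
    (∃ x y z : Fin 3, x ≠ y ∧ x ≠ z ∧ y ≠ z ∧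
      ((10 * c x = L ∧ 5 * c y = L ∧ 10 * c z = 7 * L ∧
          ∑ j, κ j x = 3 ∧ ∑ j, κ j y = 0 ∧ ∑ j, κ j z = 1) ∨
       (10 * c x = 3 * L ∧ 5 * c y = 3 * L ∧ 10 * c z = L ∧
          ∑ j, κ j x = 3 ∧ ∑ j, κ j y = 0 ∧ ∑ j, κ j z = 1))) := by
  have H : Hyp L c κ := ⟨hL, hc, hs, hκ, hK⟩
  by_cases hall : ∀ k, 1 ≤ ∑ j, κ j k
  · left
    have hone := one H
    have h1 : ∀ k, c k ≤ (∑ j, κ j k) * c k := fun k => Nat.le_mul_of_pos_left _ (hall k)
    have h2 : ∀ k ∈ (Finset.univ : Finset (Fin 3)), c k = (∑ j, κ j k) * c k :=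
      (Finset.sum_eq_sum_iff_of_le fun k _ => h1 k).1 (by rw [hs, hone])
    intro k
    have h3 := h2 k (Finset.mem_univ k)
    have h4 := hc k
    have h5 : c k * (∑ j, κ j k) = c k * 1 := by rw [mul_comm, ← h3, mul_one]
    exact Nat.eq_of_mul_eq_mul_left h4 h5
  right
  push Not at hall
  obtain ⟨z, hz⟩ := hall
  have hz0 : ∑ j, κ j z = 0 := by omega
  obtain ⟨x, y, h1, h2, h3, hxy⟩ : ∃ x y : Fin 3, x ≠ y ∧ x ≠ z ∧ y ≠ z ∧
      ∑ j, κ j y ≤ ∑ j, κ j x := by
    obtain ⟨x, y, h1, h2, h3⟩ : ∃ x y : Fin 3, x ≠ y ∧ x ≠ z ∧ y ≠ z := by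
      clear hz hz0
      revert z
      decide
    rcases le_total (∑ j, κ j y) (∑ j, κ j x) with h | h
    · exact ⟨x, y, h1, h2, h3, h⟩
    · exact ⟨y, x, h1.symm, h3, h2, h⟩
  rcases main H x y z h1 h2 h3 hz0 hxy with (h | h) | (h | h)
  · exact Or.inl h
  · exact Or.inr (Or.inl h)
  · exact Or.inr (Or.inr (Or.inl h))
  · exact Or.inr (Or.inr (Or.inr h))

end Pool.Agent.TH387
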