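import Mathlib
import Pool.Agent.TH387.Base

/-!
# Job 38 (MP_a03157_co): a 3x3 nonnegative matrix with the eigenvalue `√N`
-/

set_option autoImplicit false
open scoped BigOperators

namespace Pool.Agent.TH609.J38

theorem sum3 {M : Type*} [AddCommMonoid M] (f : Fin 3 → M) (x y z : Fin 3) (h1 : x ≠ y)
    (h2 : x ≠ z) (h3 : y ≠ z) : ∑ k, f k = f x + f y + f z := by
  have hu : (Finset.univ : Finset (Fin 3)) = {x, y, z} := by
    revert x y z
    decide
  rw [hu, Finset.sum_insert (by simp [h1, h2]), Finset.sum_insert (by simp [h3]),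
    Finset.sum_singleton, add_assoc]

theorem third (x y : Fin 3) (h : x ≠ y) : ∃ z, x ≠ z ∧ y ≠ z := by
  revert x y
  decide

theorem cases3 (x y z : Fin 3) (h1 : x ≠ y) (h2 : x ≠ z) (h3 : y ≠ z) (j : Fin 3) :
    j = x ∨ j = y ∨ j = z := by
  revert x y z j
  decide

/-- the second eigenvector -/
theorem eig (N : ℕ) (hN : ¬ IsSquare N) (ℓ : Fin 3 → ℝ) (hℓ : ∀ k, 0 < ℓ k)
    (β : Fin 3 → Fin 3 → ℕ)
    (hβ : ∀ j, Real.sqrt N * ℓ j = ∑ k, (β j k : ℝ) * ℓ k) :
    ∃ v : Fin 3 → ℝ, v ≠ 0 ∧ ∀ j, -(Real.sqrt N * v j) = ∑ k, (β j k : ℝ) * v k := by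
  have hr : Irrational (Real.sqrt N) := by
    rw [irrational_sqrt_natCast_iff]
    exact hN
  set r := Real.sqrt N with hrdef
  have hr2 : r ^ 2 = N := Real.sq_sqrt (Nat.cast_nonneg N)
  let B : Matrix (Fin 3) (Fin 3) ℝ := fun j k => (β j k : ℝ)
  have hdet : (r • (1 : Matrix (Fin 3) (Fin 3) ℝ) - B).det = 0 := by
    rw [← Matrix.exists_mulVec_eq_zero_iff]
    refine ⟨ℓ, ?_, ?_⟩
    · intro h0
      have := hℓ 0
      rw [h0] at this
      simp at this
    · funext j
      have := hβ j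
      simp only [Matrix.sub_mulVec, Matrix.smul_mulVec, Matrix.one_mulVec, Pi.sub_apply,
        Pi.smul_apply, smul_eq_mul, Pi.zero_apply]
      rw [this]
      simp [B, Matrix.mulVec, dotProduct]
  let t : ℤ := β 0 0 + β 1 1 + β 2 2
  let s : ℤ := (β 0 0 : ℤ) * β 1 1 - β 0 1 * β 1 0 + ((β 0 0 : ℤ) * β 2 2 - β 0 2 * β 2 0) +
    ((β 1 1 : ℤ) * β 2 2 - β 1 2 * β 2 1)
  let d : ℤ := (β 0 0 : ℤ) * β 1 1 * β 2 2 - (β 0 0 : ℤ) * β 1 2 * β 2 1 -
    (β 0 1 : ℤ) * β 1 0 * β 2 2 + (β 0 1 : ℤ) * β 1 2 * β 2 0 + (β 0 2 : ℤ) * β 1 0 * β 2 1 -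
    (β 0 2 : ℤ) * β 1 1 * β 2 0
  have key : ∀ x : ℝ, (x • (1 : Matrix (Fin 3) (Fin 3) ℝ) - B).det =
      x ^ 3 - t * x ^ 2 + s * x - d := by
    intro x
    have hent : ∀ j k, (x • (1 : Matrix (Fin 3) (Fin 3) ℝ) - B) j k =
        (if j = k then x else 0) - (β j k : ℝ) := by
      intro j k
      rw [Matrix.sub_apply, Matrix.smul_apply, Matrix.one_apply, smul_eq_mul, mul_ite, mul_one,
        mul_zero]
    rw [Matrix.det_fin_three]
    simp only [hent]
    simp [t, s, d]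
    ring
  have e1 := key r
  rw [hdet] at e1
  have e2 : ((N : ℤ) + s : ℤ) * r = ((t * N + d : ℤ) : ℝ) := by
    push_cast
    have h3 : r ^ 3 = N * r := by rw [pow_succ, hr2]
    rw [h3, hr2] at e1
    linarith
  have e3 : (N : ℤ) + s = 0 := by
    by_contra h0
    apply hr
    refine ⟨((t * N + d : ℤ) : ℚ) / ((N : ℤ) + s : ℤ), ?_⟩
    have h0' : (((N : ℤ) + s : ℤ) : ℝ) ≠ 0 := by exact_mod_cast h0
    push_cast at e2 h0' ⊢
    rw [div_eq_iff h0', ← e2]
    ring
  have e4 : ((t * N + d : ℤ) : ℝ) = 0 := by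
    rw [← e2, e3]
    simp
  have hdet2 : ((-r) • (1 : Matrix (Fin 3) (Fin 3) ℝ) - B).det = 0 := by
    rw [key]
    have h3 : r ^ 3 = N * r := by rw [pow_succ, hr2]
    have e3' : (N : ℝ) + s = 0 := by exact_mod_cast e3
    push_cast at e4
    have h4 : (-r) ^ 3 = -(N * r) := by rw [← h3]; ring
    have h5 : (-r) ^ 2 = N := by rw [neg_sq, hr2]
    rw [h4, h5]
    linear_combination (-r) * e3' - e4
  rw [← Matrix.exists_mulVec_eq_zero_iff] at hdet2
  obtain ⟨v, hv, hv2⟩ := hdet2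
  refine ⟨v, hv, fun j => ?_⟩
  have := congrFun hv2 j
  simp only [Matrix.sub_mulVec, Matrix.smul_mulVec, Matrix.one_mulVec, Pi.sub_apply,
    Pi.smul_apply, smul_eq_mul, Pi.zero_apply] at this
  have h2 : (B.mulVec v) j = ∑ k, (β j k : ℝ) * v k := by
    simp [B, Matrix.mulVec, dotProduct]
  rw [h2] at this
  linarith

/-- structure of `β` -/
theorem struct (N : ℕ) (hN : ¬ IsSquare N) (ℓ : Fin 3 → ℝ) (hℓ : ∀ k, 0 < ℓ k)
    (β : Fin 3 → Fin 3 → ℕ)
    (hβ : ∀ j, Real.sqrt N * ℓ j = ∑ k, (β j k : ℝ) * ℓ k) :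
    ∃ x y z : Fin 3, x ≠ y ∧ x ≠ z ∧ y ≠ z ∧
      ((β x x = 0 ∧ β x y = 0 ∧ β y x = 0 ∧ β y y = 0 ∧ β z z = 0) ∨
        (β x x = 0 ∧ β x z = 0 ∧ β y y = 0 ∧ β y z = 0)) := by
  obtain ⟨v, hv, hv2⟩ := eig N hN ℓ hℓ β hβ
  have hN0 : 0 < (N : ℝ) := by
    rcases Nat.eq_zero_or_pos N with h | h
    · exact absurd ⟨0, by simpa using h⟩ hN
    · exact_mod_cast h
  have hr : 0 < Real.sqrt N := Real.sqrt_pos.2 hN0
  set r := Real.sqrt N with hrdef
  let w : Fin 3 → ℝ := fun k => v k / ℓ k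
  have hw : ∀ k, v k = ℓ k * w k := fun k => by
    simp only [w]
    rw [mul_div_cancel₀ _ (hℓ k).ne']
  obtain ⟨j0, hj0⟩ := Finite.exists_max fun k => |w k|
  have hM : 0 < |w j0| := by
    by_contra h0
    apply hv
    funext k
    have h1 : |w k| ≤ 0 := (hj0 k).trans (not_lt.1 h0)
    have h2 : w k = 0 := abs_eq_zero.1 (le_antisymm h1 (abs_nonneg _))
    rw [hw, h2, mul_zero]
    rfl
  have hrow : ∀ j, ∃ k, 0 < β j k := by
    intro j
    by_contra h0
    push Not at h0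
    have h1 := hβ j
    have h2 : ∑ k, (β j k : ℝ) * ℓ k = 0 := by
      refine Finset.sum_eq_zero fun k _ => ?_
      have : β j k = 0 := Nat.le_zero.1 (h0 k)
      rw [this]
      simp
    rw [h2] at h1
    exact absurd h1 (mul_pos hr (hℓ j)).ne'
  have hkey : ∀ j, |w j| = |w j0| → ∀ k, 0 < β j k → w k = -w j := by
    intro j hj k hk
    have h1 := hv2 j
    have h2 := hβ j
    -- the sum of β_jk ℓ_k (M + e w_k) with e = sign of w_j vanishes
    obtain ⟨e, he, hej⟩ : ∃ e : ℝ, (e = 1 ∨ e = -1) ∧ e * w j = |w j0| := by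
      rcases abs_choice (w j) with h | h
      · exact ⟨1, Or.inl rfl, by rw [one_mul, ← h, hj]⟩
      · exact ⟨-1, Or.inr rfl, by rw [← hj, h]; ring⟩
    have h3 : ∑ k, (β j k : ℝ) * ℓ k * (|w j0| + e * w k) = 0 := by
      have h4 : ∑ k, (β j k : ℝ) * ℓ k * (|w j0| + e * w k) =
          |w j0| * ∑ k, (β j k : ℝ) * ℓ k + e * ∑ k, (β j k : ℝ) * v k := by
        rw [Finset.mul_sum, Finset.mul_sum, ← Finset.sum_add_distrib]
        refine Finset.sum_congr rfl fun k _ => ?_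
        rw [hw k]
        ring
      rw [h4, ← h1, ← h2, hw j, ← hej]
      ring
    have h5 : ∀ k ∈ Finset.univ, 0 ≤ (β j k : ℝ) * ℓ k * (|w j0| + e * w k) := by
      intro k _
      refine mul_nonneg (mul_nonneg (Nat.cast_nonneg _) (hℓ k).le) ?_
      have h6 := hj0 k
      have h7 := abs_le.1 h6
      rcases he with rfl | rfl
      · linarith
      · linarith
    have h8 := (Finset.sum_eq_zero_iff_of_nonneg h5).1 h3 k (Finset.mem_univ k)
    have h9 : (0 : ℝ) < (β j k : ℝ) * ℓ k := mul_pos (by exact_mod_cast hk) (hℓ k)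
    have h10 : |w j0| + e * w k = 0 := by
      rcases mul_eq_zero.1 h8 with h | h
      · exact absurd h h9.ne'
      · exact h
    rw [← hej] at h10
    rcases he with rfl | rfl
    · linarith
    · linarith
  have hz : ∀ j, |w j| = |w j0| → ∀ k, w k ≠ -w j → β j k = 0 := by
    intro j hj k hk
    by_contra h0
    exact hk (hkey j hj k (Nat.pos_of_ne_zero h0))
  obtain ⟨k0, hk0⟩ := hrow j0
  have hwk := hkey j0 rfl k0 hk0
  have hne : w j0 ≠ 0 := abs_pos.1 hM
  have hne2 : w j0 ≠ -w j0 := by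
    intro h
    apply hne
    linarith
  have hjk : j0 ≠ k0 := by
    rintro rfl
    exact hne2 hwk
  have hk0' : |w k0| = |w j0| := by rw [hwk, abs_neg]
  obtain ⟨i, hi1, hi2⟩ := third j0 k0 hjk
  by_cases hi : |w i| = |w j0|
  · rcases abs_eq_abs.1 hi with h | h
    · refine ⟨j0, i, k0, hi1, hjk, hi2.symm, Or.inl ⟨?_, ?_, ?_, ?_, ?_⟩⟩
      · exact hz j0 rfl j0 hne2
      · exact hz j0 rfl i (by rw [h]; exact hne2)
      · exact hz i hi j0 (by rw [h]; exact hne2)
      · exact hz i hi i (by rw [h]; exact hne2)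
      · exact hz k0 hk0' k0 (by rw [hwk, neg_neg]; exact hne2.symm)
    · refine ⟨k0, i, j0, hi2, hjk.symm, hi1.symm, Or.inl ⟨?_, ?_, ?_, ?_, ?_⟩⟩
      · exact hz k0 hk0' k0 (by rw [hwk, neg_neg]; exact hne2.symm)
      · exact hz k0 hk0' i (by rw [hwk, h, neg_neg]; exact hne2.symm)
      · exact hz i hi k0 (by rw [hwk, h, neg_neg]; exact hne2.symm)
      · exact hz i hi i (by rw [h, neg_neg]; exact hne2.symm)
      · exact hz j0 rfl j0 hne2
  · refine ⟨j0, k0, i, hjk, hi1, hi2, Or.inr ⟨?_, ?_, ?_, ?_⟩⟩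
    · exact hz j0 rfl j0 hne2
    · exact hz j0 rfl i (fun h => hi (by rw [h, abs_neg]))
    · exact hz k0 hk0' k0 (by rw [hwk, neg_neg]; exact hne2.symm)
    · exact hz k0 hk0' i (fun h => hi (by rw [h, abs_neg, hk0']))

end Pool.Agent.TH609.J38

namespace Pool.Agent.TH387
open Pool.Agent.TH609.J38

/-- a scalene triangle similar to the tile, `N` not a square, at most four tiles at the corners:
exactly one corner `z` is split, and the two sides adjacent to it are tiled by sides of type `z` -/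
theorem simS (N : ℕ) (hN : ¬ IsSquare N) (ℓ θ : Fin 3 → ℝ) (hℓ : ∀ k, 0 < ℓ k)
    (hθ : Function.Injective θ) (κ β : Fin 3 → Fin 3 → ℕ)
    (hβ : ∀ j, Real.sqrt N * ℓ j = ∑ k, (β j k : ℝ) * ℓ k)
    (hκ : ∀ j, ∑ k, (κ j k : ℝ) * θ k = θ j)
    (hc : Corners κ β) (hP : ∑ j, ∑ k, κ j k ≤ 4) :
    ∃ z, ∑ k, κ z k = 2 ∧ ∀ j, j ≠ z → ∑ k, κ j k = 1 ∧ (∀ k, k ≠ z → β j k = 0) ∧
      Real.sqrt N * ℓ j = (β j z : ℝ) * ℓ z := by
  obtain ⟨x, y, z, hxy, hxz, hyz, h⟩ := struct N hN ℓ hℓ β hβ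
  -- every row of `κ` is nonzero
  have hrow : ∀ j, 1 ≤ ∑ k, κ j k := by
    intro j
    obtain ⟨a, b, ha, hb, hab⟩ : ∃ a b : Fin 3, a ≠ j ∧ b ≠ j ∧ a ≠ b := by
      revert j
      decide
    obtain ⟨x1, y1, x2, y2, h1, h2, h3, -⟩ := hc j a b ha hb hab
    exact le_trans h3 (Finset.single_le_sum (f := fun k => κ j k) (fun _ _ => Nat.zero_le _)
      (Finset.mem_univ x1))
  rw [sum3 (fun j => ∑ k, κ j k) x y z hxy hxz hyz] at hP
  rcases h with ⟨b1, b2, b3, b4, b5⟩ | ⟨b1, b2, b3, b4⟩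
  · -- case 1
    obtain ⟨x1, y1, x2, y2, h1, h2, h3, h4, h5, h6, h7⟩ := hc z x y hxz hyz hxy
    have hy1 : y1 = z := by
      rcases cases3 x y z hxy hxz hyz y1 with h | h | h
      · rw [h, b1] at h5; omega
      · rw [h, b2] at h5; omega
      · exact h
    have hy2 : y2 = z := by
      rcases cases3 x y z hxy hxz hyz y2 with h | h | h
      · rw [h, b3] at h6; omega
      · rw [h, b4] at h6; omega
      · exact h
    have hz2 : 2 ≤ ∑ k, κ z k := by
      rcases h7 with ⟨-, h8⟩ | h8 | h8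
      · exact absurd (hy1.trans hy2.symm) h8
      · have := Finset.sum_le_sum_of_subset (f := fun k => κ z k)
          (Finset.subset_univ ({x1, x2} : Finset (Fin 3)))
        rw [Finset.sum_pair h8] at this
        omega
      · exact le_trans h8 (Finset.single_le_sum (f := fun k => κ z k) (fun _ _ => Nat.zero_le _)
          (Finset.mem_univ x1))
    have hx := hrow x
    have hy := hrow y
    refine ⟨z, by omega, ?_⟩
    have hfin : ∀ j, (j = x ∨ j = y) → (∀ k, k ≠ z → β j k = 0) := by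
      intro j hj k hk
      rcases cases3 x y z hxy hxz hyz k with h | h | h
      · rcases hj with rfl | rfl
        · rw [h]; exact b1
        · rw [h]; exact b3
      · rcases hj with rfl | rfl
        · rw [h]; exact b2
        · rw [h]; exact b4
      · exact absurd h hk
    intro j hj
    have hj' : j = x ∨ j = y := by
      rcases cases3 x y z hxy hxz hyz j with h | h | h
      · exact Or.inl h
      · exact Or.inr h
      · exact absurd h hj
    refine ⟨?_, hfin j hj', ?_⟩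
    · rcases hj' with rfl | rfl
      · omega
      · omega
    · rw [hβ j, sum3 (fun k => (β j k : ℝ) * ℓ k) x y z hxy hxz hyz, hfin j hj' x hxz,
        hfin j hj' y hyz]
      simp
  · -- case 2
    exfalso
    have hsplit : ∀ j k : Fin 3, j ≠ z → k ≠ z → j ≠ k → β k k = 0 → β k z = 0 →
        2 ≤ ∑ i, κ j i := by
      intro j k hj hk hjk c1 c2
      obtain ⟨x1, y1, x2, y2, h1, h2, h3, h4, h5, -⟩ := hc j k z hjk.symm hj.symm hk
      have hy1 : y1 = j := by
        rcases cases3 j k z hjk hj hk y1 with h | h | h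
        · exact h
        · rw [h, c1] at h5; omega
        · rw [h, c2] at h5; omega
      by_contra hlt
      have h6 := hrow j
      have h7 : ∑ i, κ j i = 1 := by omega
      have h8 : ∀ i, i ≠ x1 → κ j i = 0 := by
        intro i hi
        by_contra h0
        have := Finset.sum_le_sum_of_subset (f := fun k => κ j k)
          (Finset.subset_univ ({x1, i} : Finset (Fin 3)))
        rw [Finset.sum_pair hi.symm] at this
        omega
      have h9 : κ j x1 = 1 := by
        rw [Finset.sum_eq_single x1 (fun i _ hi => h8 i hi) (fun h => absurd (Finset.mem_univ _) h)]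
          at h7
        exact h7
      have h10 := hκ j
      rw [Finset.sum_eq_single x1 (fun i _ hi => by rw [h8 i hi]; simp)
        (fun h => absurd (Finset.mem_univ _) h), h9] at h10
      have h11 : x1 = j := hθ (by simpa using h10)
      exact h1 (h11.trans hy1.symm)
    have s1 := hsplit x y hxz hyz hxy b3 b4
    have s2 := hsplit y x hyz hxz hxy.symm b1 b2
    have s3 := hrow z
    omega

end Pool.Agent.TH387
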