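import Mathlib
import Pool.Agent.Helper549.Tri.DataDef
import Pool.Agent.Helper549.Tri.PermX
import Pool.Agent.TH387.Base
import Pool.Agent.TH387.ShapeH

/-!
# Job 42 (MP_a03157_co): bookkeeping of the corner tables
-/

set_option autoImplicit false
noncomputable section
open scoped BigOperators

namespace Pool.Agent.TH609.J42
open Pool.Agent.Helper549.Tri Pool.Agent.TH387

/-- the eleven tables -/
def L11 : List (Fin 3 → Fin 3 → ℕ) :=
  [![![1,0,0],![0,1,0],![0,0,1]], ![![1,0,0],![2,0,0],![0,0,1]], ![![1,0,0],![0,1,0],![1,1,0]],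
   ![![1,0,0],![0,1,0],![2,1,0]], ![![2,0,0],![1,1,0],![0,1,0]], ![![2,0,0],![1,0,0],![0,2,0]],
   ![![1,0,0],![0,1,0],![2,2,0]], ![![3,0,0],![0,1,0],![0,2,0]], ![![2,1,0],![1,0,0],![0,2,0]],
   ![![2,1,0],![1,1,0],![0,1,0]], ![![2,0,0],![1,1,0],![0,2,0]]]

/-- triples with a given sum -/
def comps (n : ℕ) : List (Fin 3 → ℕ) :=
  (List.range (n + 1)).flatMap fun a => (List.range (n + 1 - a)).map fun b => ![a, b, n - a - b]

theorem mem_comps (n : ℕ) (f : Fin 3 → ℕ) (h : ∑ k, f k = n) : f ∈ comps n := by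
  rw [Fin.sum_univ_three] at h
  unfold comps
  rw [List.mem_flatMap]
  refine ⟨f 0, List.mem_range.2 (by omega), ?_⟩
  rw [List.mem_map]
  refine ⟨f 1, List.mem_range.2 (by omega), ?_⟩
  funext k
  obtain rfl | rfl | rfl : k = 0 ∨ k = 1 ∨ k = 2 := by revert k; decide
  · rfl
  · rfl
  · show n - f 0 - f 1 = f 2
    omega

def perms : List (Fin 3 → Fin 3) :=
  [![0,1,2], ![0,2,1], ![1,0,2], ![1,2,0], ![2,0,1], ![2,1,0]]

theorem perms_inj : ∀ p ∈ perms, Function.Injective p := by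
  decide

/-- check of one table, given by its columns -/
def good (a b c : Fin 3 → ℕ) : Bool :=
  let κ : Fin 3 → Fin 3 → ℕ := fun j => ![a j, b j, c j]
  (decide (κ 0 = ![0,0,0])) || (decide (κ 1 = ![0,0,0])) || (decide (κ 2 = ![0,0,0])) ||
  (decide (κ 0 = κ 1)) || (decide (κ 0 = κ 2)) || (decide (κ 1 = κ 2)) ||
  perms.any fun p => perms.any fun q => L11.any fun T =>
    decide (∀ j k, κ (p j) (q k) = T j k)

def check (x y z : ℕ) : Bool :=
  (comps x).all fun a => (comps y).all fun b => (comps z).all fun c => good a b c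

theorem check_all : check 1 1 1 = true ∧ check 2 0 1 = true ∧ check 3 0 1 = true ∧
    check 2 2 0 = true ∧ check 3 2 0 = true ∧ check 3 3 0 = true ∧ check 0 0 3 = true := by
  refine ⟨?_, ?_, ?_, ?_, ?_, ?_, ?_⟩ <;> decide +kernel

theorem good_spec (κ : Fin 3 → Fin 3 → ℕ) (h : good (fun j => κ j 0) (fun j => κ j 1)
    (fun j => κ j 2) = true) :
    (∃ j, ∀ k, κ j k = 0) ∨ (∃ i j, i ≠ j ∧ κ i = κ j) ∨
      ∃ p q : Equiv.Perm (Fin 3), ∃ T ∈ L11, (fun j k => κ (p j) (q k)) = T := by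
  have hκ : ∀ j, (![κ j 0, κ j 1, κ j 2] : Fin 3 → ℕ) = κ j := by
    intro j
    funext k
    obtain rfl | rfl | rfl : k = 0 ∨ k = 1 ∨ k = 2 := by revert k; decide
    · rfl
    · rfl
    · rfl
  have hz : ∀ j, κ j = ![0,0,0] → ∀ k, κ j k = 0 := by
    intro j hj k
    rw [hj]
    revert k
    decide
  unfold good at h
  simp only [hκ, Bool.or_eq_true, decide_eq_true_eq, List.any_eq_true] at h
  rcases h with (((((h | h) | h) | h) | h) | h) | ⟨p, hp, q, hq, T, hT, h⟩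
  · exact Or.inl ⟨0, hz 0 h⟩
  · exact Or.inl ⟨1, hz 1 h⟩
  · exact Or.inl ⟨2, hz 2 h⟩
  · exact Or.inr (Or.inl ⟨0, 1, by decide, h⟩)
  · exact Or.inr (Or.inl ⟨0, 2, by decide, h⟩)
  · exact Or.inr (Or.inl ⟨1, 2, by decide, h⟩)
  · refine Or.inr (Or.inr ⟨Equiv.ofBijective p ?_, Equiv.ofBijective q ?_, T, hT, ?_⟩)
    · exact Finite.injective_iff_bijective.1 (perms_inj p hp)
    · exact Finite.injective_iff_bijective.1 (perms_inj q hq)
    · funext j k
      exact h j k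

theorem tables (κ : Fin 3 → Fin 3 → ℕ) (P : Fin 3 → ℕ) (hP : ∀ k, ∑ j, κ j k = P k)
    (hcl : P = ![1, 1, 1] ∨ P = ![2, 0, 1] ∨ P = ![3, 0, 1] ∨ P = ![2, 2, 0] ∨ P = ![3, 2, 0] ∨
      P = ![3, 3, 0] ∨ P = ![0, 0, 3]) :
    (∃ j, ∀ k, κ j k = 0) ∨ (∃ i j, i ≠ j ∧ κ i = κ j) ∨
      ∃ p q : Equiv.Perm (Fin 3), ∃ T ∈ L11, (fun j k => κ (p j) (q k)) = T := by
  apply good_spec
  have m0 := mem_comps _ (fun j => κ j 0) (hP 0)
  have m1 := mem_comps _ (fun j => κ j 1) (hP 1)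
  have m2 := mem_comps _ (fun j => κ j 2) (hP 2)
  have key : ∀ x y z : ℕ, check x y z = true → P = ![x, y, z] →
      good (fun j => κ j 0) (fun j => κ j 1) (fun j => κ j 2) = true := by
    intro x y z hc hx
    have e0 : P 0 = x := by rw [hx]; rfl
    have e1 : P 1 = y := by rw [hx]; rfl
    have e2 : P 2 = z := by rw [hx]; rfl
    rw [e0] at m0
    rw [e1] at m1
    rw [e2] at m2
    unfold check at hc
    simp only [List.all_eq_true] at hc
    exact hc _ m0 _ m1 _ m2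
  obtain ⟨c1, c2, c3, c4, c5, c6, c7⟩ := check_all
  rcases hcl with h | h | h | h | h | h | h
  · exact key _ _ _ c1 h
  · exact key _ _ _ c2 h
  · exact key _ _ _ c3 h
  · exact key _ _ _ c4 h
  · exact key _ _ _ c5 h
  · exact key _ _ _ c6 h
  · exact key _ _ _ c7 h

theorem like_perm {S : Fin 3 → ℝ} (p : Equiv.Perm (Fin 3)) {x y z : ℝ}
    (h : Like (fun j => S (p j)) x y z) : Like S x y z := by
  obtain ⟨σ, r, hr, h0, h1, h2⟩ := h
  exact ⟨σ.trans p, r, hr, h0, h1, h2⟩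

theorem exc_perm {S : Fin 3 → ℝ} (p : Equiv.Perm (Fin 3)) (h : Exc (fun j => S (p j))) :
    Exc S := by
  rcases h with ⟨i, j, hij, h⟩ | ⟨a, b, ha, hb, hab, h⟩ | h | ⟨s, h1, h2, h3, h⟩ |
    ⟨s, h1, h2, h3, h⟩ | ⟨a, b, c, ha, hb, hc, h⟩
  · exact Or.inl ⟨p i, p j, fun e => hij (p.injective e), h⟩
  · exact Or.inr (Or.inl ⟨a, b, ha, hb, hab, like_perm p h⟩)
  · exact Or.inr (Or.inr (Or.inl (like_perm p h)))
  · exact Or.inr (Or.inr (Or.inr (Or.inl ⟨s, h1, h2, h3, like_perm p h⟩)))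
  · exact Or.inr (Or.inr (Or.inr (Or.inr (Or.inl ⟨s, h1, h2, h3, like_perm p h⟩))))
  · refine Or.inr (Or.inr (Or.inr (Or.inr (Or.inr ⟨a, b, c, ha, hb, hc, ?_⟩))))
    rcases h with ⟨h1, h⟩ | ⟨h1, h⟩ | ⟨h1, h⟩ | ⟨h1, h⟩
    · exact Or.inl ⟨h1, like_perm p h⟩
    · exact Or.inr (Or.inl ⟨h1, like_perm p h⟩)
    · exact Or.inr (Or.inr (Or.inl ⟨h1, like_perm p h⟩))
    · exact Or.inr (Or.inr (Or.inr ⟨h1, like_perm p h⟩))

theorem corners_perm {κ β : Fin 3 → Fin 3 → ℕ} (h : Corners κ β) (p q : Equiv.Perm (Fin 3)) :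
    Corners (fun j k => κ (p j) (q k)) (fun j k => β (p j) (q k)) := by
  intro j k1 k2 h1 h2 h12
  obtain ⟨x1, y1, x2, y2, a1, a2, a3, a4, a5, a6, a7⟩ := h (p j) (p k1) (p k2)
    (fun e => h1 (p.injective e)) (fun e => h2 (p.injective e)) (fun e => h12 (p.injective e))
  refine ⟨q.symm x1, q.symm y1, q.symm x2, q.symm y2, fun e => a1 (q.symm.injective e),
    fun e => a2 (q.symm.injective e), ?_, ?_, ?_, ?_, ?_⟩
  · simpa using a3
  · simpa using a4
  · simpa using a5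
  · simpa using a6
  · rcases a7 with ⟨b1, b2⟩ | b1 | b1
    · exact Or.inl ⟨by rw [b1], fun e => b2 (q.symm.injective e)⟩
    · exact Or.inr (Or.inl fun e => b1 (q.symm.injective e))
    · exact Or.inr (Or.inr (by simpa using b1))

theorem equal_angle {N : ℕ} {ℓ θ S A : Fin 3 → ℝ} {κ β : Fin 3 → Fin 3 → ℕ}
    (h : Data N ℓ θ S A κ β) {i j : Fin 3} (hA : A i = A j) : S i = S j := by
  have h1 := h.sineT i j
  have hi : ∀ i : Fin 3, i = 0 ∨ i = 1 ∨ i = 2 := by decide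
  have hlt : A i < Real.pi := by
    have h2 := h.Asum
    have h3 := h.Apos 0
    have h4 := h.Apos 1
    have h5 := h.Apos 2
    rcases hi i with e | e | e
    all_goals
      rw [e]
      linarith
  have h2 := Real.sin_pos_of_pos_of_lt_pi (h.Apos i) hlt
  rw [← hA] at h1
  exact mul_right_cancel₀ h2.ne' h1

end Pool.Agent.TH609.J42

namespace Pool.Agent.TH387
open Pool.Agent.Helper549.Tri Pool.Agent.TH609.J42

theorem irr_main {N : ℕ}
    (hid : ShapeH N ![![1,0,0],![0,1,0],![0,0,1]])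
    (h301 : ShapeH N ![![1,0,0],![2,0,0],![0,0,1]])
    (h220 : ShapeH N ![![1,0,0],![0,1,0],![1,1,0]])
    (h320 : ShapeH N ![![1,0,0],![0,1,0],![2,1,0]])
    (hc : ShapeH N ![![2,0,0],![1,1,0],![0,1,0]])
    (hd : ShapeH N ![![2,0,0],![1,0,0],![0,2,0]])
    (h330 : ShapeH N ![![1,0,0],![0,1,0],![2,2,0]])
    (hu1 : ShapeH N ![![3,0,0],![0,1,0],![0,2,0]])
    (hu2 : ShapeH N ![![2,1,0],![1,0,0],![0,2,0]])
    (hu3 : ShapeH N ![![2,1,0],![1,1,0],![0,1,0]])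
    (hu4 : ShapeH N ![![2,0,0],![1,1,0],![0,2,0]])
    {ℓ θ S A : Fin 3 → ℝ} {κ β : Fin 3 → Fin 3 → ℕ} (h : Data N ℓ θ S A κ β)
    (hC : Corners κ β) (σ : Equiv.Perm (Fin 3)) (P : Fin 3 → ℕ)
    (hP : ∀ k, ∑ j, κ j (σ k) = P k)
    (hcl : P = ![1, 1, 1] ∨ P = ![2, 0, 1] ∨ P = ![3, 0, 1] ∨ P = ![2, 2, 0] ∨ P = ![3, 2, 0] ∨
      P = ![3, 3, 0] ∨ P = ![0, 0, 3]) : Exc S := by
  rcases tables (fun j k => κ j (σ k)) P hP hcl with ⟨j, hj⟩ | ⟨i, j, hij, he⟩ | ⟨p, q, T, hT, he⟩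
  · exfalso
    obtain ⟨k, hk⟩ := h.kpos j
    have := hj (σ.symm k)
    simp only [Equiv.apply_symm_apply] at this
    omega
  · left
    refine ⟨i, j, hij, equal_angle h ?_⟩
    rw [h.angles i, h.angles j]
    refine Finset.sum_congr rfl fun k _ => ?_
    have := congrFun he (σ.symm k)
    simp only [Equiv.apply_symm_apply] at this
    rw [this]
  · have hall : ∀ T ∈ L11, ShapeH N T := by
      intro T hT
      simp only [L11, List.mem_cons, List.not_mem_nil, or_false] at hT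
      rcases hT with rfl | rfl | rfl | rfl | rfl | rfl | rfl | rfl | rfl | rfl | rfl
      exacts [hid, h301, h220, h320, hc, hd, h330, hu1, hu2, hu3, hu4]
    have d1 := (h.perm_types (q.trans σ)).perm_corners p
    have c1 := corners_perm hC p (q.trans σ)
    have e1 : (fun j k => κ (p j) ((q.trans σ) k)) = T := he
    apply exc_perm p
    have hs : ShapeH N (fun j k => κ (p j) ((q.trans σ) k)) := by
      rw [e1]
      exact @hall T hT
    exact hs d1 c1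

end Pool.Agent.TH387
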