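import Mathlib
import Pool.Agent.Helper549.Tri.DataDef
import Pool.Agent.TH387.Base
import Pool.Agent.TH387.ShapeH
set_option autoImplicit false
noncomputable section
open scoped BigOperators

/-!
# Job 43 (MP_a03157_co): the five tables with a dissected triangle similar to the tile
-/

namespace Pool.Agent.TH609.J43
open Pool.Agent.Helper549.Tri

section
variable {N : ℕ} {ℓ θ S A : Fin 3 → ℝ} {κ β : Fin 3 → Fin 3 → ℕ}

theorem theta_lt (h : Data N ℓ θ S A κ β) (j : Fin 3) : θ j < Real.pi := by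
  have h2 := h.tsum
  have h3 := h.tpos 0
  have h4 := h.tpos 1
  have h5 := h.tpos 2
  have hi : j = 0 ∨ j = 1 ∨ j = 2 := by revert j; decide
  rcases hi with e | e | e
  all_goals
    rw [e]
    linarith

theorem sin_pos (h : Data N ℓ θ S A κ β) (j : Fin 3) : 0 < Real.sin (θ j) :=
  Real.sin_pos_of_pos_of_lt_pi (h.tpos j) (theta_lt h j)

/-- the sine law -/
theorem law (h : Data N ℓ θ S A κ β) : ∃ ρ : ℝ, 0 < ρ ∧ ∀ j, ℓ j = ρ * Real.sin (θ j) := by
  have h0 := sin_pos h 0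
  refine ⟨ℓ 0 / Real.sin (θ 0), div_pos (h.lpos 0) h0, fun j => ?_⟩
  have h1 := h.sinet 0 j
  field_simp
  linarith

theorem sim (h : Data N ℓ θ S A κ β) (hA : ∀ j, A j = θ j) (j : Fin 3) :
    S j = Real.sqrt N * ℓ j := by
  obtain ⟨ρ, hρ, hl⟩ := law h
  have s0 := sin_pos h 0
  have s1 := sin_pos h 1
  have s2 := sin_pos h 2
  obtain ⟨R, hR, hS⟩ : ∃ R : ℝ, 0 < R ∧ ∀ j, S j = R * Real.sin (θ j) := by
    refine ⟨S 0 / Real.sin (θ 0), div_pos (h.Spos 0) s0, fun j => ?_⟩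
    have h1 := h.sineT 0 j
    rw [hA, hA] at h1
    field_simp
    linarith
  have harea := h.area
  rw [hA, hl 0, hl 1, hS 0, hS 1] at harea
  have h1 : R ^ 2 = N * ρ ^ 2 := by
    have h2 : (R ^ 2 - N * ρ ^ 2) * (Real.sin (θ 0) * Real.sin (θ 1) * Real.sin (θ 2)) = 0 := by
      linear_combination -harea
    have h3 : Real.sin (θ 0) * Real.sin (θ 1) * Real.sin (θ 2) ≠ 0 := by positivity
    have h4 := (mul_eq_zero.1 h2).resolve_right h3
    linarith
  have h2 : R = Real.sqrt N * ρ := by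
    rw [← Real.sqrt_sq hR.le, h1, Real.sqrt_mul (Nat.cast_nonneg N), Real.sqrt_sq hρ.le]
  rw [hS, hl, h2]
  ring

theorem eqS (h : Data N ℓ θ S A κ β) (hA : ∀ j, A j = θ j) {i j : Fin 3} (hij : θ i = θ j) :
    S i = S j := by
  obtain ⟨ρ, hρ, hl⟩ := law h
  rw [sim h hA, sim h hA, hl, hl, hij]

/-- triangle inequality for the tile, sines -/
theorem sin_tri {a b : ℝ} (ha : 0 < a) (hb : 0 < b) (hab : a + b < Real.pi) :
    Real.sin (a + b) < Real.sin a + Real.sin b := by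
  have h1 : 0 < Real.sin a := Real.sin_pos_of_pos_of_lt_pi ha (by linarith)
  have h2 : 0 < Real.sin b := Real.sin_pos_of_pos_of_lt_pi hb (by linarith)
  have hc : ∀ x : ℝ, 0 < x → x < Real.pi → Real.cos x < 1 := by
    intro x hx hx2
    rw [← Real.cos_zero]
    exact Real.cos_lt_cos_of_nonneg_of_le_pi le_rfl hx2.le hx
  have h3 := hc a ha (by linarith)
  have h4 := hc b hb (by linarith)
  rw [Real.sin_add]
  nlinarith

theorem tri_ineq (h : Data N ℓ θ S A κ β) :
    ℓ 2 < ℓ 0 + ℓ 1 ∧ ℓ 1 < ℓ 0 + ℓ 2 ∧ ℓ 0 < ℓ 1 + ℓ 2 := by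
  obtain ⟨ρ, hρ, hl⟩ := law h
  have hs := h.tsum
  have t0 := h.tpos 0
  have t1 := h.tpos 1
  have t2 := h.tpos 2
  refine ⟨?_, ?_, ?_⟩
  · rw [hl 0, hl 1, hl 2, ← mul_add]
    refine mul_lt_mul_of_pos_left ?_ hρ
    have e : Real.sin (θ 2) = Real.sin (θ 0 + θ 1) := by
      rw [← Real.sin_pi_sub]
      congr 1
      linarith
    rw [e]
    exact sin_tri t0 t1 (by linarith)
  · rw [hl 0, hl 1, hl 2, ← mul_add]
    refine mul_lt_mul_of_pos_left ?_ hρ
    have e : Real.sin (θ 1) = Real.sin (θ 0 + θ 2) := by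
      rw [← Real.sin_pi_sub]
      congr 1
      linarith
    rw [e]
    exact sin_tri t0 t2 (by linarith)
  · rw [hl 0, hl 1, hl 2, ← mul_add]
    refine mul_lt_mul_of_pos_left ?_ hρ
    have e : Real.sin (θ 0) = Real.sin (θ 1 + θ 2) := by
      rw [← Real.sin_pi_sub]
      congr 1
      linarith
    rw [e]
    exact sin_tri t1 t2 (by linarith)

theorem sqrt_int {M : ℤ} (hM : Real.sqrt N = M) : IsSquare N := by
  have h1 : (N : ℝ) = (M : ℝ) * M := by
    rw [← hM]
    exact (Real.mul_self_sqrt (Nat.cast_nonneg N)).symm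
  have h2 : (N : ℤ) = M * M := by exact_mod_cast h1
  refine ⟨M.natAbs, ?_⟩
  have h3 : ((M.natAbs * M.natAbs : ℕ) : ℤ) = M * M := by
    push_cast
    rw [← abs_mul, abs_mul_self]
  exact_mod_cast h2.trans h3.symm

end

end Pool.Agent.TH609.J43

namespace Pool.Agent.TH387
open Pool.Agent.Helper549.Tri Pool.Agent.TH609.J43

/-- given (job BSTRUCT; in your delivered file keep it as a hypothesis, see the context) -/
def SimS (N : ℕ) : Prop := ∀ (ℓ θ : Fin 3 → ℝ) (_ : ∀ k, 0 < ℓ k)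
    (_ : Function.Injective θ) (κ β : Fin 3 → Fin 3 → ℕ)
    (_ : ∀ j, Real.sqrt N * ℓ j = ∑ k, (β j k : ℝ) * ℓ k)
    (_ : ∀ j, ∑ k, (κ j k : ℝ) * θ k = θ j)
    (_ : Corners κ β) (_ : ∑ j, ∑ k, κ j k ≤ 4),
    ∃ z, ∑ k, κ z k = 2 ∧ ∀ j, j ≠ z → ∑ k, κ j k = 1 ∧ (∀ k, k ≠ z → β j k = 0) ∧
      Real.sqrt N * ℓ j = (β j z : ℝ) * ℓ z

theorem shape_id {N : ℕ} (hN : ¬ IsSquare N) (hS : SimS N) :
    ShapeH N ![![1,0,0],![0,1,0],![0,0,1]] := by
  intro ℓ θ S A β h hC
  have hA : ∀ j, A j = θ j := by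
    intro j
    rw [h.angles j, Fin.sum_univ_three]
    have hi : j = 0 ∨ j = 1 ∨ j = 2 := by revert j; decide
    rcases hi with e | e | e <;> subst e <;> simp
  by_cases hinj : Function.Injective θ
  · exfalso
    obtain ⟨z, hz, -⟩ := hS ℓ θ h.lpos hinj _ β (fun j => by rw [← sim h hA, h.side])
      (fun j => by rw [← h.angles, hA]) hC (by decide)
    revert hz
    have hi : z = 0 ∨ z = 1 ∨ z = 2 := by revert z; decide
    rcases hi with e | e | e <;> subst e <;> decide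
  · left
    rw [Function.Injective] at hinj
    push Not at hinj
    obtain ⟨i, j, hij, hne⟩ := hinj
    exact ⟨i, j, hne, eqS h hA hij⟩

theorem shape_220 {N : ℕ} (hN : ¬ IsSquare N) (hS : SimS N) :
    ShapeH N ![![1,0,0],![0,1,0],![1,1,0]] := by
  intro ℓ θ S A β h hC
  have a0 : A 0 = θ 0 := by
    rw [h.angles 0, Fin.sum_univ_three]; simp
  have a1 : A 1 = θ 1 := by
    rw [h.angles 1, Fin.sum_univ_three]; simp
  have a2 : A 2 = θ 0 + θ 1 := by
    rw [h.angles 2, Fin.sum_univ_three]; simp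
  have hs := h.Asum
  have ht := h.tsum
  have hA : ∀ j, A j = θ j := by
    intro j
    have hi : j = 0 ∨ j = 1 ∨ j = 2 := by revert j; decide
    rcases hi with e | e | e <;> subst e
    · exact a0
    · exact a1
    · linarith
  by_cases hinj : Function.Injective θ
  · right; left
    obtain ⟨z, hz, hz2⟩ := hS ℓ θ h.lpos hinj _ β (fun j => by rw [← sim h hA, h.side])
      (fun j => by rw [← h.angles, hA]) hC (by decide)
    have hz' : z = 2 := by
      clear hz2
      revert hz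
      have hi : z = 0 ∨ z = 1 ∨ z = 2 := by revert z; decide
      rcases hi with e | e | e <;> subst e <;> decide
    subst hz'
    obtain ⟨-, -, h0⟩ := hz2 0 (by decide)
    obtain ⟨-, -, h1⟩ := hz2 1 (by decide)
    have hNpos : 0 < N := by
      rcases Nat.eq_zero_or_pos N with e | e
      · exact absurd (e ▸ IsSquare.zero) hN
      · exact e
    have hsq : 0 < Real.sqrt N := Real.sqrt_pos.2 (by exact_mod_cast hNpos)
    have l0 := h.lpos 0
    have l1 := h.lpos 1
    have l2 := h.lpos 2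
    have hp : 0 < β 0 2 := by
      rcases Nat.eq_zero_or_pos (β 0 2) with e | e
      · rw [e, Nat.cast_zero, zero_mul] at h0
        have := mul_pos hsq l0
        linarith
      · exact e
    have hq : 0 < β 1 2 := by
      rcases Nat.eq_zero_or_pos (β 1 2) with e | e
      · rw [e, Nat.cast_zero, zero_mul] at h1
        have := mul_pos hsq l1
        linarith
      · exact e
    -- the right angle
    have hpy : ℓ 0 ^ 2 + ℓ 1 ^ 2 = ℓ 2 ^ 2 := by
      obtain ⟨ρ, hρ, hl⟩ := law h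
      have e2 : θ 2 = Real.pi / 2 := by linarith
      have e1 : θ 1 = Real.pi / 2 - θ 0 := by linarith
      rw [hl 0, hl 1, hl 2, e2, e1, Real.sin_pi_div_two, Real.sin_pi_div_two_sub]
      have := Real.sin_sq_add_cos_sq (θ 0)
      linear_combination ρ ^ 2 * this
    have hN1 : (N : ℝ) = (β 0 2 : ℝ) ^ 2 + (β 1 2 : ℝ) ^ 2 := by
      have e1 : Real.sqrt N ^ 2 = N := Real.sq_sqrt (Nat.cast_nonneg N)
      have e2 : ((N : ℝ) - ((β 0 2 : ℝ) ^ 2 + (β 1 2 : ℝ) ^ 2)) * ℓ 2 ^ 2 = 0 := by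
        have e3 : (Real.sqrt N * ℓ 0) ^ 2 = ((β 0 2 : ℝ) * ℓ 2) ^ 2 := by rw [h0]
        have e4 : (Real.sqrt N * ℓ 1) ^ 2 = ((β 1 2 : ℝ) * ℓ 2) ^ 2 := by rw [h1]
        rw [mul_pow, e1] at e3 e4
        linear_combination -(N : ℝ) * hpy + e3 + e4
      have e5 : ℓ 2 ^ 2 ≠ 0 := by positivity
      have e6 := (mul_eq_zero.1 e2).resolve_right e5
      linarith
    have hN2 : N = β 0 2 ^ 2 + β 1 2 ^ 2 := by exact_mod_cast hN1
    refine ⟨β 0 2, β 1 2, hp, hq, ?_, 1, ℓ 2, l2, ?_, ?_, ?_⟩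
    · rw [← hN2]; exact hN
    · rw [Equiv.Perm.one_apply, sim h hA, h0]; ring
    · rw [Equiv.Perm.one_apply, sim h hA, h1]; ring
    · rw [Equiv.Perm.one_apply, sim h hA, ← hN1]; ring
  · left
    rw [Function.Injective] at hinj
    push Not at hinj
    obtain ⟨i, j, hij, hne⟩ := hinj
    exact ⟨i, j, hne, eqS h hA hij⟩

theorem shape_301 {N : ℕ} (hN : ¬ IsSquare N) : ShapeH N ![![1,0,0],![2,0,0],![0,0,1]] := by
  intro ℓ θ S A β h hC
  exfalso
  have a0 : A 0 = θ 0 := by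
    rw [h.angles 0, Fin.sum_univ_three]; simp
  have a1 : A 1 = 2 * θ 0 := by
    rw [h.angles 1, Fin.sum_univ_three]; simp
  have a2 : A 2 = θ 2 := by
    rw [h.angles 2, Fin.sum_univ_three]; simp
  have hs := h.Asum
  have ht := h.tsum
  have hA : ∀ j, A j = θ j := by
    intro j
    have hi : j = 0 ∨ j = 1 ∨ j = 2 := by revert j; decide
    rcases hi with e | e | e <;> subst e
    · exact a0
    · linarith
    · exact a2
  obtain ⟨M, -, -, hM, -⟩ := h.char ![1, 1, -1] (by decide) (by decide) ⟨1, by decide⟩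
    (by decide)
  rw [Fin.sum_univ_three, Fin.sum_univ_three, sim h hA, sim h hA, sim h hA] at hM
  have hT := tri_ineq h
  apply hN
  apply sqrt_int (M := M)
  have hne : ℓ 0 + ℓ 1 - ℓ 2 ≠ 0 := by linarith [hT.1]
  apply mul_right_cancel₀ hne
  simp [Fin.prod_univ_three] at hM
  linarith

theorem shape_320 {N : ℕ} (hN : ¬ IsSquare N) : ShapeH N ![![1,0,0],![0,1,0],![2,1,0]] := by
  intro ℓ θ S A β h hC
  exfalso
  have a0 : A 0 = θ 0 := by
    rw [h.angles 0, Fin.sum_univ_three]; simp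
  have a1 : A 1 = θ 1 := by
    rw [h.angles 1, Fin.sum_univ_three]; simp
  have a2 : A 2 = 2 * θ 0 + θ 1 := by
    rw [h.angles 2, Fin.sum_univ_three]; simp
  have hs := h.Asum
  have ht := h.tsum
  have hA : ∀ j, A j = θ j := by
    intro j
    have hi : j = 0 ∨ j = 1 ∨ j = 2 := by revert j; decide
    rcases hi with e | e | e <;> subst e
    · exact a0
    · exact a1
    · linarith
  obtain ⟨M, -, -, hM, -⟩ := h.char ![-1, 1, 1] (by decide) (by decide) ⟨2, by decide⟩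
    (by decide)
  rw [Fin.sum_univ_three, Fin.sum_univ_three, sim h hA, sim h hA, sim h hA] at hM
  have hT := tri_ineq h
  apply hN
  apply sqrt_int (M := M)
  have hne : -ℓ 0 + ℓ 1 + ℓ 2 ≠ 0 := by linarith [hT.2.2]
  apply mul_right_cancel₀ hne
  simp [Fin.prod_univ_three] at hM
  linarith

theorem shape_330 {N : ℕ} (hN : ¬ IsSquare N) : ShapeH N ![![1,0,0],![0,1,0],![2,2,0]] := by
  intro ℓ θ S A β h hC
  exfalso
  have a0 : A 0 = θ 0 := by
    rw [h.angles 0, Fin.sum_univ_three]; simp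
  have a1 : A 1 = θ 1 := by
    rw [h.angles 1, Fin.sum_univ_three]; simp
  have a2 : A 2 = 2 * θ 0 + 2 * θ 1 := by
    rw [h.angles 2, Fin.sum_univ_three]; simp
  have hs := h.Asum
  have ht := h.tsum
  have hA : ∀ j, A j = θ j := by
    intro j
    have hi : j = 0 ∨ j = 1 ∨ j = 2 := by revert j; decide
    rcases hi with e | e | e <;> subst e
    · exact a0
    · exact a1
    · linarith
  obtain ⟨M, -, -, hM, -⟩ := h.char ![1, -1, 1] (by decide) (by decide) ⟨2, by decide⟩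
    (by decide)
  rw [Fin.sum_univ_three, Fin.sum_univ_three, sim h hA, sim h hA, sim h hA] at hM
  have hT := tri_ineq h
  apply hN
  apply sqrt_int (M := M)
  have hne : ℓ 0 - ℓ 1 + ℓ 2 ≠ 0 := by linarith [hT.2.1]
  apply mul_right_cancel₀ hne
  simp [Fin.prod_univ_three] at hM
  linarith

end Pool.Agent.TH387
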