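import Pool.Agent.TH609.NP.Lim3

set_option autoImplicit false

/-!
# Job 49 (MP_f4a5f6_an): Plemelj's symmetrization identity
-/

open MeasureTheory Set Filter Topology
open scoped ENNReal NNReal RealInnerProductSpace

namespace Pool.Agent.TH609.NP
open Pool.Agent.TH268.NP

section fin
variable {ψ : ℝ → ℝ} (hψ : Prof ψ)
include hψ

/-- the flux at a distance -/
lemma XX_le {t r s : ℝ} (ht : 1 ≤ |s - t|) (hr : 1 ≤ |s - r|) :
    |XX ψ t r s| ≤ 72 / Real.cosh (s - t) + 72 / Real.cosh (s - r) := by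
  have hne : ∀ {q : ℝ}, 1 ≤ |s - q| → s ≠ q := by
    intro q hq h
    rw [h] at hq
    simp at hq
    linarith
  have hub : ∀ {q : ℝ}, 1 ≤ |s - q| → ∀ x ∈ Icc (0 : ℝ) 1, |u ψ q s x| ≤ 6 / Real.cosh (s - q) ∧
      |us ψ q s x| ≤ 6 := by
    intro q hq x hx
    have hs := hne hq
    have hc := Real.cosh_pos (s - q)
    have h3 := cosh_third hq
    have h4 : Real.cosh (s - q) / 3 ≤ Real.cosh (s - q) - Real.cos (ψ q - ψ s * x) := by
      have := Real.cos_le_one (ψ q - ψ s * x)
      linarith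
    obtain ⟨h0, -, h1⟩ := u_bound hψ hs hx
    have h2 := us_bound hψ hs hx
    constructor
    · rw [abs_of_nonneg h0]
      refine h1.trans ?_
      calc 2 / (Real.cosh (s - q) - Real.cos (ψ q - ψ s * x)) ≤ 2 / (Real.cosh (s - q) / 3) := by
            gcongr
        _ = 6 / Real.cosh (s - q) := by field_simp; norm_num
    · refine h2.trans ?_
      have h5 := abs_sinh_le_cosh (s - q)
      calc 2 * |Real.sinh (s - q)| / (Real.cosh (s - q) - Real.cos (ψ q - ψ s * x))
          ≤ 2 * Real.cosh (s - q) / (Real.cosh (s - q) / 3) := by gcongr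
        _ = 6 := by field_simp; norm_num
  have hb : ‖∫ x in (0 : ℝ)..1, Phi ψ t r s x‖ ≤
      (72 / Real.cosh (s - t) + 72 / Real.cosh (s - r)) * |1 - 0| := by
    apply intervalIntegral.norm_integral_le_of_norm_le_const
    intro x hx
    rw [uIoc_of_le zero_le_one] at hx
    have hx' : x ∈ Icc (0 : ℝ) 1 := ⟨hx.1.le, hx.2⟩
    obtain ⟨a1, a2⟩ := hub ht x hx'
    obtain ⟨b1, b2⟩ := hub hr x hx'
    have hpi := Real.pi_pos
    have hpi4 := Real.pi_lt_four
    have hs1 := hψ.lo s
    have hs2 := hψ.hi s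
    have hs3 : ψ s ≤ 2 := by linarith
    have hct := Real.cosh_pos (s - t)
    have hcr := Real.cosh_pos (s - r)
    rw [Real.norm_eq_abs]
    unfold Phi FF
    rw [abs_mul, abs_of_nonneg (by linarith : 0 ≤ ψ s)]
    have h1 : |u ψ t s x * us ψ r s x - u ψ r s x * us ψ t s x| ≤
        6 / Real.cosh (s - t) * 6 + 6 / Real.cosh (s - r) * 6 := by
      refine (abs_sub _ _).trans ?_
      rw [abs_mul, abs_mul]
      gcongr
    calc ψ s * |u ψ t s x * us ψ r s x - u ψ r s x * us ψ t s x|
        ≤ 2 * (6 / Real.cosh (s - t) * 6 + 6 / Real.cosh (s - r) * 6) := by gcongr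
      _ = 72 / Real.cosh (s - t) + 72 / Real.cosh (s - r) := by ring
  simpa [XX] using hb

omit hψ in
lemma tendsto_cosh_top (q : ℝ) : Tendsto (fun s => Real.cosh (s - q)) atTop atTop := by
  refine tendsto_atTop_mono (f := fun s => (s - q) ^ 2 / 2) (fun s => ?_) ?_
  · linarith [cosh_ge (s - q)]
  · refine Tendsto.atTop_div_const two_pos ?_
    exact (tendsto_pow_atTop two_ne_zero).comp (tendsto_atTop_add_const_right _ (-q) tendsto_id)

omit hψ in
lemma tendsto_cosh_bot (q : ℝ) : Tendsto (fun s => Real.cosh (s - q)) atBot atTop := by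
  have h := (tendsto_cosh_top (-q)).comp tendsto_neg_atBot_atTop
  refine h.congr fun s => ?_
  simp only [Function.comp_apply]
  rw [← Real.cosh_neg]
  congr 1
  ring

lemma XX_top (t r : ℝ) : Tendsto (XX ψ t r) atTop (𝓝 0) := by
  refine squeeze_zero_norm' (a := fun s => 72 / Real.cosh (s - t) + 72 / Real.cosh (s - r)) ?_ ?_
  · filter_upwards [eventually_ge_atTop (t + 1), eventually_ge_atTop (r + 1)] with s h1 h2
    exact XX_le hψ (by rw [abs_of_nonneg (by linarith)]; linarith)
      (by rw [abs_of_nonneg (by linarith)]; linarith)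
  · have h1 := (tendsto_cosh_top t).const_div_atTop 72
    have h2 := (tendsto_cosh_top r).const_div_atTop 72
    simpa using h1.add h2

lemma XX_bot (t r : ℝ) : Tendsto (XX ψ t r) atBot (𝓝 0) := by
  refine squeeze_zero_norm' (a := fun s => 72 / Real.cosh (s - t) + 72 / Real.cosh (s - r)) ?_ ?_
  · filter_upwards [eventually_le_atBot (t - 1), eventually_le_atBot (r - 1)] with s h1 h2
    exact XX_le hψ (by rw [abs_of_nonpos (by linarith)]; linarith)
      (by rw [abs_of_nonpos (by linarith)]; linarith)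
  · have h1 := (tendsto_cosh_bot t).const_div_atTop 72
    have h2 := (tendsto_cosh_bot r).const_div_atTop 72
    simpa using h1.add h2

omit hψ in
lemma XX_anti (t r s : ℝ) : XX ψ r t s = -XX ψ t r s := by
  unfold XX
  rw [← intervalIntegral.integral_neg]
  refine intervalIntegral.integral_congr fun x _ => ?_
  simp only [Phi, FF]
  ring

omit hψ in
lemma u_symm (t r : ℝ) : u ψ r t 1 = u ψ t r 1 := by
  unfold u LL
  rw [show t - r = -(r - t) by ring, Real.cosh_neg, mul_one, mul_one, add_comm (ψ r),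
    show ψ r - ψ t = -(ψ t - ψ r) by ring, Real.cos_neg]

/-- the integrand -/
noncomputable def WW (ψ : ℝ → ℝ) (t r s : ℝ) : ℝ := GS ψ t s * kk ψ r s - GS ψ r s * kk ψ t s

lemma term_int (t r : ℝ) : Integrable (fun s => GS ψ t s * kk ψ r s) := by
  obtain ⟨C, hC0, hC⟩ := hψ.kk_le
  have h1 : Integrable (fun s => 2 * rho (t - s) * C) :=
    ((integrable_rho.comp_sub_left t).const_mul 2).mul_const C
  refine h1.mono' ?_ ?_
  · have m1 : Measurable (GS ψ t) := Measurable.of_uncurry_left hψ.GS_meas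
    have m2 : Measurable (kk ψ r) := Measurable.of_uncurry_left hψ.kk_meas
    exact (m1.mul m2).aestronglyMeasurable
  · refine Eventually.of_forall fun s => ?_
    rw [norm_mul, Real.norm_eq_abs, Real.norm_eq_abs, abs_of_nonneg (hψ.GS_nonneg t s)]
    have h2 := hψ.GS_le t s
    have h3 := hC r s
    have h4 : C / Real.cosh (r - s) ≤ C := div_le_self hC0 (Real.one_le_cosh _)
    have h5 := rho_nonneg (t - s)
    exact mul_le_mul h2 (h3.trans h4) (abs_nonneg _) (by positivity)

lemma WW_int (t r : ℝ) : Integrable (WW ψ t r) := (term_int hψ t r).sub (term_int hψ r t)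

omit hψ in
lemma WW_eq {t r s : ℝ} (ht : s ≠ t) (hr : s ≠ r) :
    WW ψ t r s = (1 / (16 * Real.pi ^ 2)) * ZZ ψ t r s 1 := by
  have hpi := Real.pi_ne_zero
  have hG : ∀ {q : ℝ}, s ≠ q → GS ψ q s = 1 / (4 * Real.pi) * u ψ q s 1 := by
    intro q hq
    have h1 := den_ne hq (ψ q + ψ s)
    have h2 := den_ne hq (ψ q - ψ s)
    unfold GS G u LL
    rw [mul_one, show q - s = -(s - q) by ring, Real.cosh_neg, Real.log_div h1 h2]
  have hk : ∀ q : ℝ, kk ψ q s = -(1 / (4 * Real.pi)) * (up ψ q s 1 - deriv ψ s * us ψ q s 1) := by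
    intro q
    unfold kk up us La Ly
    rw [mul_one, show q - s = -(s - q) by ring, Real.cosh_neg, Real.sinh_neg]
    ring
  unfold WW
  rw [hG ht, hG hr, hk r, hk t]
  unfold ZZ FF
  field_simp
  ring

lemma WW_green {t r a b : ℝ} (ht : t ∉ uIcc a b) (hr : r ∉ uIcc a b) :
    ∫ s in a..b, WW ψ t r s = (1 / (16 * Real.pi ^ 2)) * (XX ψ t r b - XX ψ t r a) := by
  rw [green hψ ht hr, ← intervalIntegral.integral_const_mul]
  refine intervalIntegral.integral_congr fun s hs => ?_
  exact WW_eq (fun h => ht (h ▸ hs)) (fun h => hr (h ▸ hs))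

theorem WW_zero {t r : ℝ} (htr : t < r) : ∫ s, WW ψ t r s = 0 := by
  have hI := WW_int hψ t r
  have hII : ∀ a b, IntervalIntegrable (WW ψ t r) volume a b := fun a b => hI.intervalIntegrable
  set κ : ℝ := 1 / (16 * Real.pi ^ 2) with hκ
  set I : ℝ → ℝ := fun b => ∫ s in t..b, WW ψ t r s with hIdef
  have hIc : Continuous I := intervalIntegral.continuous_primitive hII t
  have hdiff : ∀ a b, t ∉ uIcc a b → r ∉ uIcc a b →
      I b - κ * XX ψ t r b = I a - κ * XX ψ t r a := by
    intro a b h1 h2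
    have h3 := WW_green hψ h1 h2
    have h4 : I b - I a = ∫ s in a..b, WW ψ t r s :=
      intervalIntegral.integral_interval_sub_left (hII _ _) (hII _ _)
    rw [← h4] at h3
    linarith
  -- the three constants
  obtain ⟨k1, hk1⟩ : ∃ k, ∀ s < t, I s - κ * XX ψ t r s = k := by
    refine ⟨I (t - 1) - κ * XX ψ t r (t - 1), fun s hs => ?_⟩
    apply hdiff
    · intro h; rw [mem_uIcc] at h; rcases h with h | h <;> linarith
    · intro h; rw [mem_uIcc] at h; rcases h with h | h <;> linarith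
  obtain ⟨k2, hk2⟩ : ∃ k, ∀ s, t < s → s < r → I s - κ * XX ψ t r s = k := by
    refine ⟨I ((t + r) / 2) - κ * XX ψ t r ((t + r) / 2), fun s hs hs' => ?_⟩
    apply hdiff
    · intro h; rw [mem_uIcc] at h; rcases h with h | h <;> linarith
    · intro h; rw [mem_uIcc] at h; rcases h with h | h <;> linarith
  obtain ⟨k3, hk3⟩ : ∃ k, ∀ s, r < s → I s - κ * XX ψ t r s = k := by
    refine ⟨I (r + 1) - κ * XX ψ t r (r + 1), fun s hs => ?_⟩
    apply hdiff
    · intro h; rw [mem_uIcc] at h; rcases h with h | h <;> linarith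
    · intro h; rw [mem_uIcc] at h; rcases h with h | h <;> linarith
  -- the limits
  obtain ⟨a, c, hR, hL⟩ := XX_lim hψ (ne_of_lt htr)
  obtain ⟨a', c', hR', hL'⟩ := XX_lim hψ (ne_of_gt htr)
  have e1 : k1 = I t - κ * (a - u ψ r t 1 * (c + Real.pi)) := by
    have h1 : Tendsto (fun s => I s - κ * XX ψ t r s) (𝓝[<] t)
        (𝓝 (I t - κ * (a - u ψ r t 1 * (c + Real.pi)))) :=
      ((hIc.tendsto t).mono_left nhdsWithin_le_nhds).sub (hL.const_mul κ)
    refine tendsto_nhds_unique ?_ h1
    refine tendsto_const_nhds.congr' ?_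
    filter_upwards [self_mem_nhdsWithin] with s hs
    exact (hk1 s hs).symm
  have e2 : k2 = I t - κ * (a - u ψ r t 1 * (c - Real.pi)) := by
    have h1 : Tendsto (fun s => I s - κ * XX ψ t r s) (𝓝[>] t)
        (𝓝 (I t - κ * (a - u ψ r t 1 * (c - Real.pi)))) :=
      ((hIc.tendsto t).mono_left nhdsWithin_le_nhds).sub (hR.const_mul κ)
    refine tendsto_nhds_unique ?_ h1
    refine tendsto_const_nhds.congr' ?_
    filter_upwards [Ioo_mem_nhdsGT htr] with s hs
    exact (hk2 s hs.1 hs.2).symm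
  have e3 : k2 = I r - κ * (-(a' - u ψ t r 1 * (c' + Real.pi))) := by
    have h1 : Tendsto (fun s => I s - κ * XX ψ t r s) (𝓝[<] r)
        (𝓝 (I r - κ * (-(a' - u ψ t r 1 * (c' + Real.pi))))) := by
      refine ((hIc.tendsto r).mono_left nhdsWithin_le_nhds).sub (Tendsto.const_mul κ ?_)
      refine hL'.neg.congr fun s => ?_
      rw [XX_anti t r s, neg_neg]
    refine tendsto_nhds_unique ?_ h1
    refine tendsto_const_nhds.congr' ?_
    filter_upwards [Ioo_mem_nhdsLT htr] with s hs
    exact (hk2 s hs.1 hs.2).symm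
  have e4 : k3 = I r - κ * (-(a' - u ψ t r 1 * (c' - Real.pi))) := by
    have h1 : Tendsto (fun s => I s - κ * XX ψ t r s) (𝓝[>] r)
        (𝓝 (I r - κ * (-(a' - u ψ t r 1 * (c' - Real.pi))))) := by
      refine ((hIc.tendsto r).mono_left nhdsWithin_le_nhds).sub (Tendsto.const_mul κ ?_)
      refine hR'.neg.congr fun s => ?_
      rw [XX_anti t r s, neg_neg]
    refine tendsto_nhds_unique ?_ h1
    refine tendsto_const_nhds.congr' ?_
    filter_upwards [self_mem_nhdsWithin] with s hs
    exact (hk3 s hs).symm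
  have e5 : Tendsto I atTop (𝓝 k3) := by
    have h1 : Tendsto (fun s => k3 + κ * XX ψ t r s) atTop (𝓝 (k3 + κ * 0)) :=
      ((XX_top hψ t r).const_mul κ).const_add k3
    rw [mul_zero, add_zero] at h1
    refine h1.congr' ?_
    filter_upwards [eventually_gt_atTop r] with s hs
    have := hk3 s hs
    linarith
  have e6 : Tendsto I atBot (𝓝 k1) := by
    have h1 : Tendsto (fun s => k1 + κ * XX ψ t r s) atBot (𝓝 (k1 + κ * 0)) :=
      ((XX_bot hψ t r).const_mul κ).const_add k1
    rw [mul_zero, add_zero] at h1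
    refine h1.congr' ?_
    filter_upwards [eventually_lt_atBot t] with s hs
    have := hk1 s hs
    linarith
  have e7 : k3 - k1 = 0 := by
    have hsym := u_symm (ψ := ψ) t r
    rw [hsym] at e1 e2
    have : k3 - k1 = (k3 - k2) + (k2 - k1) := by ring
    rw [this]
    nth_rewrite 1 [e3]
    nth_rewrite 1 [e2]
    rw [e4, e1]
    ring
  have h2 : Tendsto (fun R : ℝ => ∫ s in (-R)..R, WW ψ t r s) atTop (𝓝 (∫ s, WW ψ t r s)) :=
    intervalIntegral_tendsto_integral hI tendsto_neg_atTop_atBot tendsto_id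
  have h3 : Tendsto (fun R : ℝ => ∫ s in (-R)..R, WW ψ t r s) atTop (𝓝 (k3 - k1)) := by
    have h4 := e5.sub (e6.comp tendsto_neg_atTop_atBot)
    refine h4.congr fun R => ?_
    exact intervalIntegral.integral_interval_sub_left (hII _ _) (hII _ _)
  rw [e7] at h3
  exact tendsto_nhds_unique h2 h3

theorem symm_lt {t r : ℝ} (htr : t < r) :
    ∫ s, GS ψ t s * kk ψ r s = ∫ s, GS ψ r s * kk ψ t s := by
  have h1 := WW_zero hψ htr
  unfold WW at h1
  rw [integral_sub (term_int hψ t r) (term_int hψ r t)] at h1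
  linarith

end fin

end Pool.Agent.TH609.NP

namespace Pool.Agent.TH268.NP

/-- NP-PLEM: Plemelj's symmetrization identity -/
theorem npplem (ψ : ℝ → ℝ) (hψ : Prof ψ) (t r : ℝ) (htr : t ≠ r) :
    ∫ s, GS ψ t s * kk ψ r s = ∫ s, GS ψ r s * kk ψ t s := by
  rcases lt_or_gt_of_ne htr with h | h
  · exact Pool.Agent.TH609.NP.symm_lt hψ h
  · exact (Pool.Agent.TH609.NP.symm_lt hψ h).symm

end Pool.Agent.TH268.NP
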