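import Pool.Agent.TH609.UV.Edge

/-!
# Highly twisted arborescent links with crossing circles: the critical value is the maximal volume
-/

set_option autoImplicit false

namespace Pool.Agent.TH609.UV

open Pool.Agent.TH563.UV
open Pool.Agent.W711.HT hiding XX
open Pool.Agent.W719.AR (Fl Gap flS)
open Pool.Agent.W737.AR (Lf ze TT vol_le alt_zero)
open Pool.Agent.W709.VC (S_TET)
open Pool.Agent.W374.HT.Cch (der1 der2 valh valq)
open Pool.Agent.W571.AR (eqn' im_eq val_re)
open scoped Real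

/-! ### Solutions -/

/-- the conditions at the edges -/
def hpt (dl : ℂ → ℂ → ℂ) : PB → Prop
  | .vx _ _ _ => True
  | .br t c => hpt dl t ∧ hpt dl c ∧ HQ c.rz t.rz (2 * π * dl c.rz t.rz)

/-- sum over the children of the root -/
noncomputable def lg (dl : ℂ → ℂ → ℂ) : PB → ℂ
  | .vx _ _ _ => 0
  | .br t c => lg dl t + Lg (2 * π * dl c.rz t.rz) t.rz

/-- the equation at a vertex -/
def VL (b : Bool) (a : ℤ) (z l : ℂ) : Prop :=
  (b = true → z = 0) ∧ (b = false → Complex.I * (a * z + 2 * π) = l)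

/-- the equations at the vertices other than the root -/
def lcr (dl : ℂ → ℂ → ℂ) : PB → Prop
  | .vx _ _ _ => True
  | .br t c => lcr dl t ∧ lcr dl c ∧
      VL c.bl c.wt c.rz (Lg (2 * π * dl c.rz t.rz) c.rz + lg dl c)

/-- sum of the hinge volumes -/
noncomputable def hs (dl : ℂ → ℂ → ℂ) : PB → ℝ
  | .vx _ _ _ => 0
  | .br t c => hs dl t + hs dl c + hv c.rz t.rz (2 * π * dl c.rz t.rz)

/-- the angle structure -/
noncomputable def ang (dl : ℂ → ℂ → ℂ) : PB → AB
  | .vx b a _ => .vx b a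
  | .br t c => .br (ang dl t) (ang dl c) (fe t.rz (2 * π * dl c.rz t.rz))
      (fe c.rz (2 * π * dl c.rz t.rz))

/-! ### The critical configurations are solutions -/

theorem vc_facts {ρ τ : ℝ} (hρ : 0 < ρ) (hτ : 0 < τ) {b : Bool} {a : ℤ} {z g : ℂ}
    (h : VC ρ τ b a z g) : z ∈ Rc ρ τ ∧ ‖z‖ ≤ 1 / 10 := by
  cases b with
  | true =>
    rw [h.1 rfl]
    refine ⟨⟨by simpa using hρ, by simpa using hτ⟩, by simp⟩
  | false =>
    obtain ⟨h1, -⟩ := h.2 rfl
    exact ⟨h1.mem, h1.sm⟩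

/-- the conditions at a hinge -/
lemma hq {ρ τ κ c : ℝ} {s dl : ℂ → ℂ → ℂ} (hK : KD ρ τ κ c s dl) {z ψ' : ℂ} (hz : z ∈ Rc ρ τ)
    (hψ : ψ' ∈ Rc ρ τ) (hz1 : ‖z‖ ≤ 1 / 10) (hψ1 : ‖ψ'‖ ≤ 1 / 10) :
    HQ z ψ' (2 * π * dl z ψ') := by
  have hz' := Pool.Agent.W374.HT.Cch.Rc_mono hK.hρ.1 hK.hτ.1 hz
  have hψ' := Pool.Agent.W374.HT.Cch.Rc_mono hK.hρ.1 hK.hτ.1 hψ
  have hpi := Real.pi_gt_three
  refine ⟨hz1, hψ1, ?_, hK.dcos z hz' ψ' hψ'⟩
  have h1 := hK.dclose z hz' ψ' hψ'
  have : 2 * (π : ℂ) * dl z ψ' - π / 2 = ((2 * π : ℝ) : ℂ) * (dl z ψ' - 1 / 4) := by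
    push_cast; ring
  rw [this, norm_mul, Complex.norm_real, Real.norm_eq_abs, abs_of_pos (by linarith)]
  nlinarith

/-- the term of a vertex -/
lemma vt_re {b : Bool} {a : ℤ} {z l : ℂ} (h : VL b a z l) :
    2 * π * (vt b a z).re = -(z.im * l.im) := by
  cases b with
  | true =>
    rw [h.1 rfl]
    simp [vt]
  | false =>
    have h1 := h.2 rfl
    have h2 := im_eq a z l h1
    rw [← h2]
    have h3 := val_re a z
    simpa [vt] using h3

theorem ind (hP : S_POTH) {ρ τ κ c : ℝ} {s dl : ℂ → ℂ → ℂ} (hK : KD ρ τ κ c s dl) :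
    ∀ p : PB, p.Crt s ρ τ → p.rz ∈ Rc ρ τ → ‖p.rz‖ ≤ 1 / 10 →
      p.gs s = -(1 / (2 * π)) * lg dl p ∧ hpt dl p ∧ lcr dl p ∧
      2 * π * (p.vl s).re = hs dl p + p.rz.im * (lg dl p).im
  | .vx b a z, _, _, _ => by
      refine ⟨?_, trivial, trivial, ?_⟩
      · simp [PB.gs, lg]
      · simp [PB.vl, hs, lg]
  | .br t d, hCr, t1, t3 => by
      obtain ⟨hC1, hC2, hC3⟩ := hCr
      obtain ⟨d1, d3⟩ := vc_facts hK.hρ.1 hK.hτ.1 hC3
      obtain ⟨i1, i2, i3, i4⟩ := ind hP hK t hC1 t1 t3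
      obtain ⟨j1, j2, j3, j4⟩ := ind hP hK d hC2 d1 d3
      have t1' : t.rz ∈ Rc ρ τ := t1
      have t3' : ‖t.rz‖ ≤ 1 / 10 := t3
      have hpp := hq hK d1 t1' d3 t3'
      have hD1 := der1 hK d1 t1'
      have hD2 := der2 hK d1 t1'
      have hV := valh hP hK d1 t1' d3 t3'
      have hE : VL d.bl d.wt d.rz (Lg (2 * π * dl d.rz t.rz) d.rz + lg dl d) := by
        refine ⟨hC3.1, fun hb => ?_⟩
        obtain ⟨-, h2⟩ := hC3.2 hb
        refine eqn' _ _ (d.gs s + deriv (fun w => s w t.rz) d.rz) _ ?_ h2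
        rw [j1, hD1]
        ring
      have hI := vt_re hE
      rw [Complex.add_im] at hI
      refine ⟨?_, ⟨i2, j2, hpp⟩, ⟨i3, j3, hE⟩, ?_⟩
      · simp only [PB.gs, lg]
        rw [i1, hD2]
        ring
      · simp only [PB.vl, hs, lg, PB.rz]
        rw [Complex.add_im]
        have e1 : (t.vl s + (vt d.bl d.wt d.rz + d.vl s + s d.rz t.rz)).re = (t.vl s).re
              + ((vt d.bl d.wt d.rz).re + (d.vl s).re + (s d.rz t.rz).re) := by
          rw [Complex.add_re, Complex.add_re, Complex.add_re]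
        rw [e1]
        linear_combination i4 + hI + j4 + hV

/-! ### The angle structure -/

/-- the pair of angles of an edge at a vertex with the critical point `ψ` -/
def EE (ψ : ℂ) (x : Fl × Fl) : Prop := ∃ ψ' u : ℂ, HQ ψ ψ' u ∧ x = (fe ψ u, fe ψ' u)

theorem vok {b : Bool} {w : ℤ} {ψ : ℂ} {l : List (Fl × Fl)} (hl : ∀ x ∈ l, EE ψ x)
    (hsum : b = false → (l.map fun y => y.1.cr).sum = 2 * π + w * ψ.re) : VOK b w l := by
  have htw : ∀ x ∈ l, x.1.tw = ψ.re := by
    intro x hx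
    obtain ⟨ψ', u, h, rfl⟩ := hl x hx
    exact (shp h).2.2.2.2.1
  refine ⟨Pool.Agent.W398.AR.isChain_all _ ?_, ?_, ?_⟩
  · intro x hx y hy
    have hx' : x ∈ l := by
      rcases List.mem_append.1 hx with h | h
      · exact h
      · exact List.mem_of_mem_take h
    have hy' : y ∈ l := by
      rcases List.mem_append.1 hy with h | h
      · exact h
      · exact List.mem_of_mem_take h
    obtain ⟨ψ₁, u₁, h₁, rfl⟩ := hl x hx'
    obtain ⟨ψ₂, u₂, h₂, rfl⟩ := hl y hy'
    have e1 := (shp h₁).2.2.1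
    have e2 := (shp h₂).2.2.2.1
    unfold Gap
    simp only
    linarith
  · intro x hx y hy
    rw [htw x hx, htw y hy]
  · intro hb x hx
    rw [htw x hx]
    exact hsum hb

theorem ang_wt (dl : ℂ → ℂ → ℂ) : ∀ p : PB, (ang dl p).wt = p.wt
  | .vx _ _ _ => rfl
  | .br t _ => ang_wt dl t

theorem ang_bl (dl : ℂ → ℂ → ℂ) : ∀ p : PB, (ang dl p).bl = p.bl
  | .vx _ _ _ => rfl
  | .br t _ => ang_bl dl t

theorem ang_shape (dl : ℂ → ℂ → ℂ) : ∀ p : PB, (ang dl p).shape = p.shape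
  | .vx _ _ _ => rfl
  | .br t c => by
    change Tb.br (ang dl t).shape (ang dl c).shape = Tb.br t.shape c.shape
    rw [ang_shape dl t, ang_shape dl c]

theorem ang_fl (dl : ℂ → ℂ → ℂ) : ∀ p : PB, hpt dl p →
    (∀ x ∈ (ang dl p).fl, EE p.rz x) ∧ ((ang dl p).fl.map fun y => y.1.cr).sum = (lg dl p).im
  | .vx b a z, _ => by
    refine ⟨?_, ?_⟩
    · intro x hx
      simp [ang, AB.fl] at hx
    · simp [ang, AB.fl, lg]
  | .br t c, h => by
    obtain ⟨h1, h2, h3⟩ := h
    obtain ⟨g1, g2⟩ := ang_fl dl t h1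
    have h4 := hq_symm h3
    refine ⟨?_, ?_⟩
    · intro x hx
      have hx' : x ∈ (ang dl t).fl ++ [(fe t.rz (2 * π * dl c.rz t.rz),
          fe c.rz (2 * π * dl c.rz t.rz))] := hx
      rcases List.mem_append.1 hx' with h | h
      · exact g1 x h
      · rw [List.mem_singleton] at h
        exact ⟨_, _, h4, h⟩
    · change (((ang dl t).fl ++ [(fe t.rz (2 * π * dl c.rz t.rz),
          fe c.rz (2 * π * dl c.rz t.rz))]).map fun y => y.1.cr).sum =
        (lg dl t + Lg (2 * π * dl c.rz t.rz) t.rz).im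
      rw [List.map_append, List.sum_append, g2, Complex.add_im]
      simp only [List.map_cons, List.map_nil, List.sum_cons, List.sum_nil, add_zero]
      rw [(shp h4).2.2.2.2.2]

theorem vl_im {b : Bool} {w : ℤ} {z l : ℂ} (h : VL b w z l) (hb : b = false) :
    l.im = 2 * π + w * z.re := by
  have := im_eq w z l (h.2 hb)
  linarith

theorem ang_isok (dl : ℂ → ℂ → ℂ) : ∀ p : PB, hpt dl p → lcr dl p → (ang dl p).OK
  | .vx _ _ _, _, _ => trivial
  | .br t c, h, h' => by
    obtain ⟨h1, h2, h3⟩ := h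
    obtain ⟨k1, k2, k3⟩ := h'
    have h4 := hq_symm h3
    obtain ⟨g1, g2⟩ := ang_fl dl c h2
    have s3 := shp h3
    have s4 := shp h4
    refine ⟨ang_isok dl t h1 k1, ang_isok dl c h2 k2, s4.1, s3.1, s4.2.1, ?_⟩
    rw [ang_wt, ang_bl]
    apply vok (ψ := c.rz)
    · intro x hx
      rcases List.mem_cons.1 hx with rfl | hx
      · exact ⟨_, _, h3, rfl⟩
      · exact g1 x hx
    · intro hb
      rw [List.map_cons, List.sum_cons, g2]
      simp only
      rw [s3.2.2.2.2.2, ← Complex.add_im]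
      exact vl_im k3 hb

theorem ang_vol (dl : ℂ → ℂ → ℂ) : ∀ p : PB, hpt dl p →
    (ang dl p).vol = hs dl p
  | .vx _ _ _, _ => rfl
  | .br t c, h => by
    obtain ⟨h1, h2, h3⟩ := h
    change (ang dl t).vol + (ang dl c).vol + 2 * ((fe t.rz (2 * π * dl c.rz t.rz)).vol +
      (fe c.rz (2 * π * dl c.rz t.rz)).vol) = hs dl t + hs dl c + hv c.rz t.rz
        (2 * π * dl c.rz t.rz)
    rw [ang_vol dl t h1, ang_vol dl c h2, ← vlf h3]
    ring

/-! ### Maximality -/

/-- the edges at the root: parameter, number at the child, the two `Fl` of `y` -/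
noncomputable def el (dl : ℂ → ℂ → ℂ) : PB → AB → List ((ℂ × ℂ) × (Fl × Fl))
  | .br t c, .br t' _ f g => el dl t t' ++ [((2 * π * dl c.rz t.rz, c.rz), (f, g))]
  | _, _ => []

/-- the total derivative -/
noncomputable def LL (dl : ℂ → ℂ → ℂ) : PB → AB → ℝ
  | .br t c, .br t' c' f g => LL dl t t' + LL dl c c' +
      (Lf (fe t.rz (2 * π * dl c.rz t.rz)) f + Lf (fe c.rz (2 * π * dl c.rz t.rz)) g)
  | _, _ => 0

lemma shape_cases (p : PB) (y : AB) (h : y.shape = p.shape) :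
    (∃ b a z, p = .vx b a z ∧ y = .vx b a) ∨
    ∃ t c t' c' f g, p = .br t c ∧ y = .br t' c' f g ∧ t'.shape = t.shape ∧ c'.shape = c.shape := by
  cases p with
  | vx b a z =>
    cases y with
    | vx b' a' =>
      left
      simp only [AB.shape, PB.shape, Tb.vx.injEq] at h
      exact ⟨b, a, z, rfl, by rw [h.1, h.2]⟩
    | br t' c' f g => simp [AB.shape, PB.shape] at h
  | br t c =>
    cases y with
    | vx b' a' => simp [AB.shape, PB.shape] at h
    | br t' c' f g =>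
      right
      simp only [AB.shape, PB.shape, Tb.br.injEq] at h
      exact ⟨t, c, t', c', f, g, rfl, rfl, h.1, h.2⟩

lemma wt_eq : ∀ (p : PB) (y : AB), y.shape = p.shape → y.wt = p.wt ∧ y.bl = p.bl := by
  intro p
  induction p with
  | vx b a z =>
    intro y h
    rcases shape_cases _ y h with ⟨b', a', z', h1, rfl⟩ | ⟨t, c, t', c', f, g, h1, -⟩
    · simp only [PB.vx.injEq] at h1
      simp [AB.wt, PB.wt, AB.bl, PB.bl, h1.1, h1.2.1]
    · simp at h1
  | br t c iht ihc =>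
    intro y h
    rcases shape_cases _ y h with ⟨b', a', z', h1, -⟩ | ⟨t, c, t', c', f, g, h1, rfl, h2, h3⟩
    · simp at h1
    · simp only [PB.br.injEq] at h1
      obtain ⟨rfl, rfl⟩ := h1
      simpa [AB.wt, PB.wt, AB.bl, PB.bl] using iht t' h2

lemma el_map (dl : ℂ → ℂ → ℂ) (p : PB) (y : AB) (h : y.shape = p.shape) :
    (el dl p y).map Prod.snd = y.fl := by
  induction p generalizing y with
  | vx b a z =>
    rcases shape_cases _ y h with ⟨b', a', z', h1, rfl⟩ | ⟨t, c, t', c', f, g, h1, -⟩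
    · simp [el, AB.fl]
    · simp at h1
  | br t c iht ihc =>
    rcases shape_cases _ y h with ⟨b', a', z', h1, -⟩ | ⟨t, c, t', c', f, g, h1, rfl, h2, h3⟩
    · simp at h1
    · simp only [PB.br.injEq] at h1
      obtain ⟨rfl, rfl⟩ := h1
      simp [el, AB.fl, iht t' h2]

lemma el_lg (dl : ℂ → ℂ → ℂ) (p : PB) (y : AB) (h : y.shape = p.shape) :
    ((el dl p y).map (fun e => Lg e.1.1 p.rz)).sum = lg dl p := by
  induction p generalizing y with
  | vx b a z =>
    rcases shape_cases _ y h with ⟨b', a', z', h1, rfl⟩ | ⟨t, c, t', c', f, g, h1, -⟩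
    · simp [el, lg]
    · simp at h1
  | br t c iht ihc =>
    rcases shape_cases _ y h with ⟨b', a', z', h1, -⟩ | ⟨t, c, t', c', f, g, h1, rfl, h2, h3⟩
    · simp at h1
    · simp only [PB.br.injEq] at h1
      obtain ⟨rfl, rfl⟩ := h1
      have := iht t' h2
      simp only [el, List.map_append, List.map_cons, List.map_nil, List.sum_append, List.sum_cons,
        List.sum_nil, add_zero, lg, PB.rz]
      rw [this]

lemma vertex (b : Bool) (ψ : ℂ) (w : ℤ) (l : List ((ℂ × ℂ) × (Fl × Fl)))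
    (hpos : ∀ e ∈ l, e.2.1.Pos ∧ e.2.2.Pos) (hv : VOK b w (l.map Prod.snd))
    (hlg : VL b w ψ (l.map (fun e => Lg e.1.1 ψ)).sum) :
    (l.map (fun e => TT ψ e.1.1 e.2.1 e.2.2)).sum = 0 := by
  cases b with
  | true =>
    rw [hlg.1 rfl]
    have : l.map (fun e => TT 0 e.1.1 e.2.1 e.2.2) = l.map (fun _ => (0 : ℝ)) :=
      List.map_congr_left fun e _ => TT_zero _ _ _
    rw [this]
    simp
  | false =>
    obtain ⟨h1, h2, h3⟩ := hv
    exact Pool.Agent.W737.AR.vertex ψ w l hpos ⟨h1, h2, h3 rfl⟩ (hlg.2 rfl)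

lemma el_pos (dl : ℂ → ℂ → ℂ) (p : PB) (y : AB) (h : y.shape = p.shape) (hy : y.OK) :
    ∀ e ∈ el dl p y, e.2.1.Pos ∧ e.2.2.Pos := by
  induction p generalizing y with
  | vx b a z =>
    rcases shape_cases _ y h with ⟨b', a', z', h1, rfl⟩ | ⟨t, c, t', c', f, g, h1, -⟩
    · simp [el]
    · simp at h1
  | br t c iht ihc =>
    rcases shape_cases _ y h with ⟨b', a', z', h1, -⟩ | ⟨t, c, t', c', f, g, h1, rfl, h2, h3⟩
    · simp at h1
    · simp only [PB.br.injEq] at h1
      obtain ⟨rfl, rfl⟩ := h1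
      obtain ⟨k1, k2, k3, k4, k5, k6⟩ := hy
      intro e he
      simp only [el, List.mem_append, List.mem_singleton] at he
      rcases he with he | rfl
      · exact iht t' h2 k1 e he
      · exact ⟨k3, k4⟩

lemma LL_eq (dl : ℂ → ℂ → ℂ) (p : PB) (hp : hpt dl p)
    (hcr : lcr dl p) (y : AB) (h : y.shape = p.shape) (hy : y.OK) :
    LL dl p y = ((el dl p y).map (fun e => TT p.rz e.1.1 e.2.1 e.2.2)).sum := by
  induction p generalizing y with
  | vx b a z =>
    rcases shape_cases _ y h with ⟨b', a', z', h1, rfl⟩ | ⟨t, c, t', c', f, g, h1, -⟩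
    · simp [el, LL]
    · simp at h1
  | br t c iht ihc =>
    rcases shape_cases _ y h with ⟨b', a', z', h1, -⟩ | ⟨t, c, t', c', f, g, h1, rfl, h2, h3⟩
    · simp at h1
    · simp only [PB.br.injEq] at h1
      obtain ⟨rfl, rfl⟩ := h1
      obtain ⟨k1, k2, k3, k4, k5, k6⟩ := hy
      obtain ⟨n1, n2, n3⟩ := hp
      obtain ⟨r1, r2, r3⟩ := hcr
      have e1 := iht n1 r1 t' h2 k1
      have e2 := ihc n2 r2 c' h3 k2
      have e3 := edge_id (hq_symm n3) f g k3 k4 k5
      have e4 := vertex c.bl c.rz c.wt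
        (((2 * π * dl c.rz t.rz, t.rz), (g, f)) :: el dl c c')
        (by
          intro e he
          rcases List.mem_cons.mp he with rfl | he
          · exact ⟨k4, k3⟩
          · exact el_pos dl c c' h3 k2 e he)
        (by
          rw [List.map_cons, el_map dl c c' h3, ← (wt_eq c c' h3).1, ← (wt_eq c c' h3).2]
          exact k6)
        (by
          rw [List.map_cons, List.sum_cons, el_lg dl c c' h3]
          exact r3)
      simp only [List.map_cons, List.sum_cons] at e4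
      simp only [LL, el, List.map_append, List.map_cons, List.map_nil, List.sum_append,
        List.sum_cons, List.sum_nil, add_zero, PB.rz]
      rw [e1, e2, e3]
      linarith

lemma vol_LL (htet : S_TET) (dl : ℂ → ℂ → ℂ) (p : PB) (hp : hpt dl p)
    (y : AB) (h : y.shape = p.shape) (hy : y.OK) :
    y.vol ≤ (ang dl p).vol - 2 * LL dl p y := by
  induction p generalizing y with
  | vx b a z =>
    rcases shape_cases _ y h with ⟨b', a', z', h1, rfl⟩ | ⟨t, c, t', c', f, g, h1, -⟩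
    · simp [LL, AB.vol, ang]
    · simp at h1
  | br t c iht ihc =>
    rcases shape_cases _ y h with ⟨b', a', z', h1, -⟩ | ⟨t, c, t', c', f, g, h1, rfl, h2, h3⟩
    · simp at h1
    · simp only [PB.br.injEq] at h1
      obtain ⟨rfl, rfl⟩ := h1
      obtain ⟨k1, k2, k3, k4, k5, k6⟩ := hy
      obtain ⟨n1, n2, n3⟩ := hp
      have e1 := iht n1 t' h2 k1
      have e2 := ihc n2 c' h3 k2
      have e3 := vol_le htet _ f (shp (hq_symm n3)).1 k3
      have e4 := vol_le htet _ g (shp n3).1 k4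
      simp only [LL, AB.vol, ang]
      linarith

/-- the value at a critical configuration is the maximal volume of the angle structures -/
theorem geob : S_GEOB := by
  intro ρ τ κ c s dl hK p hCr hV hnc
  obtain ⟨z1, z3⟩ := vc_facts hK.hρ.1 hK.hτ.1 hV
  obtain ⟨i1, i2, i3, i4⟩ := ind W583.HTP.poth hK p hCr z1 z3
  have hE : VL p.bl p.wt p.rz (lg dl p) := by
    refine ⟨hV.1, fun hb => ?_⟩
    obtain ⟨-, h2⟩ := hV.2 hb
    exact eqn' _ _ _ _ i1 h2
  have hI := vt_re hE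
  have hval : 2 * π * (vt p.bl p.wt p.rz + p.vl s).re = hs dl p := by
    rw [Complex.add_re]
    linear_combination hI + i4
  have hvol := ang_vol dl p i2
  obtain ⟨g1, g2⟩ := ang_fl dl p i2
  rw [hval]
  constructor
  · refine ⟨ang dl p, ang_shape dl p, ⟨ang_isok dl p i2 i3, ?_⟩, hvol⟩
    rw [ang_wt, ang_bl]
    refine vok g1 fun hb => ?_
    rw [g2]
    exact vl_im hE hb
  · rintro W ⟨y, hshape, hy, rfl⟩
    have h1 := vol_LL W120.VC.tet dl p i2 y hshape hy.1
    have h2 := LL_eq dl p i2 i3 y hshape hy.1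
    have h3 := vertex p.bl p.rz p.wt (el dl p y) (el_pos dl p y hshape hy.1)
      (by rw [el_map dl p y hshape, ← (wt_eq p y hshape).1, ← (wt_eq p y hshape).2]; exact hy.2)
      (by rw [el_lg dl p y hshape]; exact hE)
    rw [h3] at h2
    rw [h2] at h1
    linarith

end Pool.Agent.TH609.UV
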