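import Pool.Agent.TH609.J30
import Pool.Agent.TH609.Z.Base

/-!
# Hubs of weight zero: the critical value is the maximal volume
-/

set_option autoImplicit false

namespace Pool.Agent.TH609.Z

open Pool.Agent.TH563.UV
open Pool.Agent.TH563.Z
open Pool.Agent.W711.HT hiding XX
open Pool.Agent.W719.AR (Fl Gap flS)
open Pool.Agent.W737.AR (Lf ze TT vol_le alt_zero)
open Pool.Agent.W709.VC (S_TET)
open Pool.Agent.W571.AR (eqn' im_eq val_re)
open Pool.Agent.TH609.UV (fe hpt lg VL lcr hs ang vc_facts hq vt_re ind EE ang_wt ang_bl ang_shape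
  ang_fl vl_im ang_isok ang_vol el LL shape_cases wt_eq el_map el_lg vertex el_pos LL_eq vol_LL)
open scoped Real

/-! ### The value at a hinge at the hub -/

theorem valz {η r c C : ℝ} {s dl : ℂ → ℂ → ℂ} (hS : SDZ η r c C s dl) {ψ φ : ℂ}
    (hψ : ψ ∈ Rc r r) (hφ : φ ∈ Rz η r r) (hδ : DR (dl ψ φ)) (h1 : |ψ.re| ≤ 1 / 4)
    (h2 : |φ.re| ≤ 1 / 4) :
    2 * π * (s ψ φ).re = hv ψ φ (2 * π * dl ψ φ) + ψ.im * (Lg (2 * π * dl ψ φ) ψ).im +
      φ.im * (Lg (2 * π * dl ψ φ) φ).im := by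
  obtain ⟨a1, b1⟩ := poth hδ h1
  obtain ⟨a2, -⟩ := poth hδ h2
  have hl := congrArg Complex.im (hS.dcrit ψ hψ φ hφ)
  have e4 : (4 * Complex.log (2 * Complex.sin (π * dl ψ φ))).im =
      4 * (Complex.log (2 * Complex.sin (π * dl ψ φ))).im := by
    rw [show (4 : ℂ) = ((4 : ℝ) : ℂ) by norm_num, Complex.im_ofReal_mul]
  rw [Complex.add_im, e4] at hl
  rw [hS.scrit ψ hψ φ hφ]
  have e1 : (rrF (dl ψ φ) ψ + rrF (dl ψ φ) φ - 4 * ssF (dl ψ φ)).re =
      (rrF (dl ψ φ) ψ).re + (rrF (dl ψ φ) φ).re - 4 * (ssF (dl ψ φ)).re := by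
    have : (4 * ssF (dl ψ φ)).re = 4 * (ssF (dl ψ φ)).re := by
      rw [show (4 : ℂ) = ((4 : ℝ) : ℂ) by norm_num, Complex.re_ofReal_mul]
    rw [Complex.sub_re, Complex.add_re, this]
  rw [e1]
  unfold hv
  linear_combination a1 + a2 + 4 * b1 + (-(2 * (π : ℂ) * dl ψ φ).im) * hl

/-- everything that is needed at a hinge at the hub -/
structure HB (η r : ℝ) (dl : ℂ → ℂ → ℂ) (ψ φ : ℂ) : Prop where
  m1 : ψ ∈ Rc r r
  m2 : φ ∈ Rz η r r
  dr : DR (dl ψ φ)
  r1 : |ψ.re| ≤ 1 / 4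
  r2 : |φ.re| ≤ 1 / 4
  hg : HG ψ φ (2 * π * dl ψ φ)

theorem exists_g {η r c C : ℝ} {s dl : ℂ → ℂ → ℂ} (hA : Adm η) (hS : SDZ η r c C s dl) :
    ∃ g : ℝ, 0 < g ∧ ∀ ψ φ : ℂ, ‖ψ‖ ≤ g → ‖φ - η * Complex.I‖ ≤ g → HB η r dl ψ φ := by
  obtain ⟨g, hg, h⟩ := near_base hA
  have hr := hS.hr.1
  have hC := hS.hC
  refine ⟨min (min g (r / 2)) (g / (2 * C)), by positivity, fun ψ φ h1 h2 => ?_⟩
  have k1 : ‖ψ‖ ≤ g := h1.trans ((min_le_left _ _).trans (min_le_left _ _))
  have k2 : ‖φ - η * Complex.I‖ ≤ g := h2.trans ((min_le_left _ _).trans (min_le_left _ _))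
  have k3 : ‖ψ‖ ≤ r / 2 := h1.trans ((min_le_left _ _).trans (min_le_right _ _))
  have k4 : ‖φ - η * Complex.I‖ ≤ r / 2 := h2.trans ((min_le_left _ _).trans (min_le_right _ _))
  have k5 : ‖ψ‖ ≤ g / (2 * C) := h1.trans (min_le_right _ _)
  have k6 : ‖φ - η * Complex.I‖ ≤ g / (2 * C) := h2.trans (min_le_right _ _)
  have m1 : ψ ∈ Rc r r :=
    ⟨((Complex.abs_re_le_norm ψ).trans k3).trans_lt (by linarith),
      ((Complex.abs_im_le_norm ψ).trans k3).trans_lt (by linarith)⟩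
  have m2 : φ ∈ Rz η r r := by
    have e1 := (Complex.abs_re_le_norm _).trans k4
    have e2 := (Complex.abs_im_le_norm _).trans k4
    have e3 : (φ - η * Complex.I).re = φ.re := by simp
    have e4 : (φ - η * Complex.I).im = φ.im - η := by simp
    rw [e3] at e1
    rw [e4] at e2
    exact ⟨e1.trans_lt (by linarith), e2.trans_lt (by linarith)⟩
  have k7 : ‖dl ψ φ - dz η‖ ≤ g := by
    refine (hS.dlip ψ m1 φ m2).trans ?_
    have : C * (‖ψ‖ + ‖φ - η * Complex.I‖) ≤ C * (g / (2 * C) + g / (2 * C)) :=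
      mul_le_mul_of_nonneg_left (by linarith) hC.le
    refine this.trans (le_of_eq ?_)
    field_simp
    ring
  obtain ⟨q1, q2, q3, q4⟩ := h ψ φ (dl ψ φ) k1 k2 k7
  exact ⟨m1, m2, q1, q2, q3, q4 (hS.dcos ψ m1 φ m2)⟩

/-! ### Solutions -/

/-- the conditions at the edges -/
def hptz (dl dl' : ℂ → ℂ → ℂ) : PB → Prop
  | .vx _ _ _ => True
  | .br t c => hptz dl dl' t ∧ hpt dl c ∧ HG c.rz t.rz (2 * π * dl' c.rz t.rz)

/-- the equations at the vertices other than the root -/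
def lcrz (dl dl' : ℂ → ℂ → ℂ) : PB → Prop
  | .vx _ _ _ => True
  | .br t c => lcrz dl dl' t ∧ lcr dl c ∧
      VL c.bl c.wt c.rz (Lg (2 * π * dl' c.rz t.rz) c.rz + lg dl c)

/-- sum of the hinge volumes -/
noncomputable def hsz (dl dl' : ℂ → ℂ → ℂ) : PB → ℝ
  | .vx _ _ _ => 0
  | .br t c => hsz dl dl' t + hs dl c + hv c.rz t.rz (2 * π * dl' c.rz t.rz)

/-- the angle structure -/
noncomputable def angz (dl dl' : ℂ → ℂ → ℂ) : PB → AB
  | .vx b a _ => .vx b a
  | .br t c => .br (angz dl dl' t) (ang dl c) (fe t.rz (2 * π * dl' c.rz t.rz))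
      (fe c.rz (2 * π * dl' c.rz t.rz))

/-- the critical configurations are solutions -/
theorem indz {ρ τ κ c : ℝ} {s dl : ℂ → ℂ → ℂ} (hK : KD ρ τ κ c s dl)
    {η r c' C : ℝ} {s' dl' : ℂ → ℂ → ℂ} (hS : SDZ η r c' C s' dl') {g : ℝ}
    (hg : ∀ ψ φ : ℂ, ‖ψ‖ ≤ g → ‖φ - η * Complex.I‖ ≤ g → HB η r dl' ψ φ) :
    ∀ p : PB, HCrt s s' ρ τ p → ‖p.rz - η * Complex.I‖ ≤ g → nearc g p →
      hgs s' p = -(1 / (2 * π)) * lg dl' p ∧ hptz dl dl' p ∧ lcrz dl dl' p ∧
      2 * π * (hvl s s' p).re = hsz dl dl' p + p.rz.im * (lg dl' p).im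
  | .vx b a z, _, _, _ => by
      refine ⟨?_, trivial, trivial, ?_⟩
      · simp [hgs, lg]
      · simp [hvl, hsz, lg]
  | .br t d, hCr, t1, hn => by
      obtain ⟨hC1, hC2, hC3⟩ := hCr
      obtain ⟨n1, n2⟩ := hn
      obtain ⟨d1, d3⟩ := vc_facts hK.hρ.1 hK.hτ.1 hC3
      obtain ⟨i1, i2, i3, i4⟩ := indz hK hS hg t hC1 t1 n1
      obtain ⟨j1, j2, j3, j4⟩ := ind Pool.Agent.W583.HTP.poth hK d hC2 d1 d3
      have t1' : ‖t.rz - η * Complex.I‖ ≤ g := t1
      have hb := hg d.rz t.rz n2 t1'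
      have hD1 := (hS.sder1 d.rz hb.m1 t.rz hb.m2).deriv
      have hD2 := (hS.sder2 d.rz hb.m1 t.rz hb.m2).deriv
      have hV := valz hS hb.m1 hb.m2 hb.dr hb.r1 hb.r2
      have hE : VL d.bl d.wt d.rz (Lg (2 * π * dl' d.rz t.rz) d.rz + lg dl d) := by
        refine ⟨hC3.1, fun hb' => ?_⟩
        obtain ⟨-, h2⟩ := hC3.2 hb'
        refine eqn' _ _ (d.gs s + deriv (fun w => s' w t.rz) d.rz) _ ?_ h2
        rw [j1, hD1]
        ring
      have hI := vt_re hE
      rw [Complex.add_im] at hI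
      refine ⟨?_, ⟨i2, j2, hb.hg⟩, ⟨i3, j3, hE⟩, ?_⟩
      · simp only [hgs, lg]
        rw [i1, hD2]
        ring
      · simp only [hvl, hsz, lg, PB.rz]
        rw [Complex.add_im]
        have e1 : (hvl s s' t + (vt d.bl d.wt d.rz + d.vl s + s' d.rz t.rz)).re = (hvl s s' t).re
              + ((vt d.bl d.wt d.rz).re + (d.vl s).re + (s' d.rz t.rz).re) := by
          rw [Complex.add_re, Complex.add_re, Complex.add_re]
        rw [e1]
        linear_combination i4 + hI + j4 + hV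

/-! ### The angle structure -/

/-- the pair of angles of an edge at a vertex with the critical point `ψ` -/
def EG (ψ : ℂ) (x : Fl × Fl) : Prop := ∃ ψ' u : ℂ, HG ψ ψ' u ∧ x = (fe ψ u, fe ψ' u)

lemma eg_of_ee {ψ : ℂ} {x : Fl × Fl} (h : EE ψ x) : EG ψ x := by
  obtain ⟨ψ', u, h1, h2⟩ := h
  exact ⟨ψ', u, hg_of_hq h1, h2⟩

theorem vok {b : Bool} {w : ℤ} {ψ : ℂ} {l : List (Fl × Fl)} (hl : ∀ x ∈ l, EG ψ x)
    (hsum : b = false → (l.map fun y => y.1.cr).sum = 2 * π + w * ψ.re) : VOK b w l := by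
  have htw : ∀ x ∈ l, x.1.tw = ψ.re := by
    intro x hx
    obtain ⟨ψ', u, h, rfl⟩ := hl x hx
    exact (shp h).2.2.2.2.1
  refine ⟨Pool.Agent.W398.AR.isChain_all _ ?_, ?_, ?_⟩
  · intro x hx y hy
    have hx' : x ∈ l := by
      rcases List.mem_append.1 hx with h | h
      · exact h
      · exact List.mem_of_mem_take h
    have hy' : y ∈ l := by
      rcases List.mem_append.1 hy with h | h
      · exact h
      · exact List.mem_of_mem_take h
    obtain ⟨ψ₁, u₁, h₁, rfl⟩ := hl x hx'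
    obtain ⟨ψ₂, u₂, h₂, rfl⟩ := hl y hy'
    have e1 := (shp h₁).2.2.1
    have e2 := (shp h₂).2.2.2.1
    unfold Gap
    simp only
    linarith
  · intro x hx y hy
    rw [htw x hx, htw y hy]
  · intro hb x hx
    rw [htw x hx]
    exact hsum hb

theorem angz_wt (dl dl' : ℂ → ℂ → ℂ) : ∀ p : PB, (angz dl dl' p).wt = p.wt
  | .vx _ _ _ => rfl
  | .br t _ => angz_wt dl dl' t

theorem angz_bl (dl dl' : ℂ → ℂ → ℂ) : ∀ p : PB, (angz dl dl' p).bl = p.bl
  | .vx _ _ _ => rfl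
  | .br t _ => angz_bl dl dl' t

theorem angz_shape (dl dl' : ℂ → ℂ → ℂ) : ∀ p : PB, (angz dl dl' p).shape = p.shape
  | .vx _ _ _ => rfl
  | .br t c => by
    change Tb.br (angz dl dl' t).shape (ang dl c).shape = Tb.br t.shape c.shape
    rw [angz_shape dl dl' t, ang_shape dl c]

theorem angz_fl (dl dl' : ℂ → ℂ → ℂ) : ∀ p : PB, hptz dl dl' p →
    (∀ x ∈ (angz dl dl' p).fl, EG p.rz x) ∧
      ((angz dl dl' p).fl.map fun y => y.1.cr).sum = (lg dl' p).im
  | .vx b a z, _ => by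
    refine ⟨?_, ?_⟩
    · intro x hx
      simp [angz, AB.fl] at hx
    · simp [angz, AB.fl, lg]
  | .br t c, h => by
    obtain ⟨h1, h2, h3⟩ := h
    obtain ⟨g1, g2⟩ := angz_fl dl dl' t h1
    have h4 := hg_symm h3
    refine ⟨?_, ?_⟩
    · intro x hx
      have hx' : x ∈ (angz dl dl' t).fl ++ [(fe t.rz (2 * π * dl' c.rz t.rz),
          fe c.rz (2 * π * dl' c.rz t.rz))] := hx
      rcases List.mem_append.1 hx' with h | h
      · exact g1 x h
      · rw [List.mem_singleton] at h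
        exact ⟨_, _, h4, h⟩
    · change (((angz dl dl' t).fl ++ [(fe t.rz (2 * π * dl' c.rz t.rz),
          fe c.rz (2 * π * dl' c.rz t.rz))]).map fun y => y.1.cr).sum =
        (lg dl' t + Lg (2 * π * dl' c.rz t.rz) t.rz).im
      rw [List.map_append, List.sum_append, g2, Complex.add_im]
      simp only [List.map_cons, List.map_nil, List.sum_cons, List.sum_nil, add_zero]
      rw [(shp h4).2.2.2.2.2]

theorem angz_isok (dl dl' : ℂ → ℂ → ℂ) : ∀ p : PB, hptz dl dl' p → lcrz dl dl' p →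
    (angz dl dl' p).OK
  | .vx _ _ _, _, _ => trivial
  | .br t c, h, h' => by
    obtain ⟨h1, h2, h3⟩ := h
    obtain ⟨k1, k2, k3⟩ := h'
    have h4 := hg_symm h3
    obtain ⟨g1, g2⟩ := ang_fl dl c h2
    have s3 := shp h3
    have s4 := shp h4
    refine ⟨angz_isok dl dl' t h1 k1, ang_isok dl c h2 k2, s4.1, s3.1, s4.2.1, ?_⟩
    rw [ang_wt, ang_bl]
    apply vok (ψ := c.rz)
    · intro x hx
      rcases List.mem_cons.1 hx with rfl | hx
      · exact ⟨_, _, h3, rfl⟩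
      · exact eg_of_ee (g1 x hx)
    · intro hb
      rw [List.map_cons, List.sum_cons, g2]
      simp only
      rw [s3.2.2.2.2.2, ← Complex.add_im]
      exact vl_im k3 hb

theorem angz_vol (dl dl' : ℂ → ℂ → ℂ) : ∀ p : PB, hptz dl dl' p →
    (angz dl dl' p).vol = hsz dl dl' p
  | .vx _ _ _, _ => rfl
  | .br t c, h => by
    obtain ⟨h1, h2, h3⟩ := h
    change (angz dl dl' t).vol + (ang dl c).vol + 2 * ((fe t.rz (2 * π * dl' c.rz t.rz)).vol +
      (fe c.rz (2 * π * dl' c.rz t.rz)).vol) = hsz dl dl' t + hs dl c + hv c.rz t.rz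
        (2 * π * dl' c.rz t.rz)
    rw [angz_vol dl dl' t h1, ang_vol dl c h2, ← vlf h3]
    ring

/-! ### Maximality -/

/-- the total derivative -/
noncomputable def LLz (dl dl' : ℂ → ℂ → ℂ) : PB → AB → ℝ
  | .br t c, .br t' c' f g => LLz dl dl' t t' + LL dl c c' +
      (Lf (fe t.rz (2 * π * dl' c.rz t.rz)) f + Lf (fe c.rz (2 * π * dl' c.rz t.rz)) g)
  | _, _ => 0

lemma LLz_eq (dl dl' : ℂ → ℂ → ℂ) (p : PB) (hp : hptz dl dl' p)
    (hcr : lcrz dl dl' p) (y : AB) (h : y.shape = p.shape) (hy : y.OK) :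
    LLz dl dl' p y = ((el dl' p y).map (fun e => TT p.rz e.1.1 e.2.1 e.2.2)).sum := by
  induction p generalizing y with
  | vx b a z =>
    rcases shape_cases _ y h with ⟨b', a', z', h1, rfl⟩ | ⟨t, c, t', c', f, g, h1, -⟩
    · simp [el, LLz]
    · simp at h1
  | br t c iht ihc =>
    rcases shape_cases _ y h with ⟨b', a', z', h1, -⟩ | ⟨t, c, t', c', f, g, h1, rfl, h2, h3⟩
    · simp at h1
    · simp only [PB.br.injEq] at h1
      obtain ⟨rfl, rfl⟩ := h1
      obtain ⟨k1, k2, k3, k4, k5, k6⟩ := hy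
      obtain ⟨n1, n2, n3⟩ := hp
      obtain ⟨r1, r2, r3⟩ := hcr
      have e1 := iht n1 r1 t' h2 k1
      have e2 := LL_eq dl c n2 r2 c' h3 k2
      have e3 := edge_id (hg_symm n3) f g k3 k4 k5
      have e4 := vertex c.bl c.rz c.wt
        (((2 * π * dl' c.rz t.rz, t.rz), (g, f)) :: el dl c c')
        (by
          intro e he
          rcases List.mem_cons.mp he with rfl | he
          · exact ⟨k4, k3⟩
          · exact el_pos dl c c' h3 k2 e he)
        (by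
          rw [List.map_cons, el_map dl c c' h3, ← (wt_eq c c' h3).1, ← (wt_eq c c' h3).2]
          exact k6)
        (by
          rw [List.map_cons, List.sum_cons, el_lg dl c c' h3]
          exact r3)
      simp only [List.map_cons, List.sum_cons] at e4
      simp only [LLz, el, List.map_append, List.map_cons, List.map_nil, List.sum_append,
        List.sum_cons, List.sum_nil, add_zero, PB.rz]
      rw [e1, e2, e3]
      linarith

lemma vol_LLz (htet : S_TET) (dl dl' : ℂ → ℂ → ℂ) (p : PB) (hp : hptz dl dl' p)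
    (y : AB) (h : y.shape = p.shape) (hy : y.OK) :
    y.vol ≤ (angz dl dl' p).vol - 2 * LLz dl dl' p y := by
  induction p generalizing y with
  | vx b a z =>
    rcases shape_cases _ y h with ⟨b', a', z', h1, rfl⟩ | ⟨t, c, t', c', f, g, h1, -⟩
    · simp [LLz, AB.vol, angz]
    · simp at h1
  | br t c iht ihc =>
    rcases shape_cases _ y h with ⟨b', a', z', h1, -⟩ | ⟨t, c, t', c', f, g, h1, rfl, h2, h3⟩
    · simp at h1
    · simp only [PB.br.injEq] at h1
      obtain ⟨rfl, rfl⟩ := h1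
      obtain ⟨k1, k2, k3, k4, k5, k6⟩ := hy
      obtain ⟨n1, n2, n3⟩ := hp
      have e1 := iht n1 t' h2 k1
      have e2 := vol_LL htet dl c n2 c' h3 k2
      have e3 := vol_le htet _ f (shp (hg_symm n3)).1 k3
      have e4 := vol_le htet _ g (shp n3).1 k4
      simp only [LLz, AB.vol, angz]
      linarith

/-- the value at a critical configuration is the maximal volume of the angle structures -/
theorem geoz : S_GEOZ := by
  intro ρ τ κ c s dl hK η r c' C s' dl' hA hS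
  obtain ⟨g, hg0, hg⟩ := exists_g hA hS
  refine ⟨g, hg0, fun p hCr hbl hwt hz hn hI hnc => ?_⟩
  obtain ⟨i1, i2, i3, i4⟩ := indz hK hS hg p hCr hz hn
  have hE : VL p.bl p.wt p.rz (lg dl' p) := by
    refine ⟨fun hb => ?_, fun _ => ?_⟩
    · rw [hbl] at hb
      exact absurd hb (by simp)
    · refine eqn' _ _ (hgs s' p) _ i1 ?_
      rw [hwt]
      simpa using hI
  have hI' := vt_re hE
  have hvt : vt p.bl p.wt p.rz = Complex.I * p.rz := by
    rw [hbl, hwt]
    simp [vt]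
  rw [hvt] at hI'
  have hval : 2 * π * (Complex.I * p.rz + hvl s s' p).re = hsz dl dl' p := by
    rw [Complex.add_re]
    linear_combination hI' + i4
  have hvol := angz_vol dl dl' p i2
  obtain ⟨g1, g2⟩ := angz_fl dl dl' p i2
  rw [hval]
  constructor
  · refine ⟨angz dl dl' p, angz_shape dl dl' p, ⟨angz_isok dl dl' p i2 i3, ?_⟩, hvol⟩
    rw [angz_wt, angz_bl]
    refine vok g1 fun hb => ?_
    rw [g2]
    exact vl_im hE hb
  · rintro W ⟨y, hshape, hy, rfl⟩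
    have h1 := vol_LLz W120.VC.tet dl dl' p i2 y hshape hy.1
    have h2 := LLz_eq dl dl' p i2 i3 y hshape hy.1
    have h3 := vertex p.bl p.rz p.wt (el dl' p y) (el_pos dl' p y hshape hy.1)
      (by rw [el_map dl' p y hshape, ← (wt_eq p y hshape).1, ← (wt_eq p y hshape).2]; exact hy.2)
      (by rw [el_lg dl' p y hshape]; exact hE)
    rw [h3] at h2
    rw [h2] at h1
    linarith

end Pool.Agent.TH609.Z
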