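import Pool.Agent.TH598.KG.Base
import Pool.Agent.TH609.KG.Rad

set_option autoImplicit false

/-!
# Job 118 (KG-D, MP_38461c_gt): explicit forms in the chart, the balanced metric
-/

open scoped Manifold ContDiff Topology ComplexConjugate MatrixGroups UpperHalfPlane Matrix
open MeasureTheory Set Filter

namespace Pool.Agent.TH598.KG

open Pool.Agent.W549.CY (Cn dz dzbar HermitianMetric chernRicci chernScalar)
open Pool.Agent.W711.KC (jj nn)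
open Pool.Agent.TH609.KG

/-! ### The reference forms in the chart -/

theorem Nn_pos {p : Cn 3} (hp : p ∈ UU) : 0 < Nn p := Nn_pos' hp

theorem Fa_mem (g : SL(2, ℝ)) {p : Cn 3} (hp : p ∈ UU) : Fa g p ∈ UU := Fa_mem' g hp

theorem ss_Fa (g : SL(2, ℝ)) {p : Cn 3} (hp : p ∈ UU) : ss (Fa g p) = ss p := ss_Fa' g hp

theorem sig_Fa (g : SL(2, ℝ)) {p : Cn 3} (hp : p ∈ UU) : sig (Fa g p) = sig p := sig_Fa' g hp

/-- the derivative of the action. -/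
theorem fderiv_Fa (g : SL(2, ℝ)) {p : Cn 3} (hp : p ∈ UU) (v : Cn 3) :
    fderiv ℂ (Fa g) p v = ![v 0 / jj g (p 0) ^ 2,
      v 1 / jj g (p 0) - (g 1 0 : ℂ) * p 1 * v 0 / jj g (p 0) ^ 2,
      v 2 / jj g (p 0) - (g 1 0 : ℂ) * p 2 * v 0 / jj g (p 0) ^ 2] := fderiv_Fa' g hp v

theorem Th_herm {p : Cn 3} (_hp : p ∈ UU) : (Th p).IsHermitian := Th_herm' p

theorem omC_herm (p : Cn 3) : (omC p).IsHermitian := omC_herm' p

theorem contDiffOn_Th (j k : Fin 3) : ContDiffOn ℝ ∞ (fun p => Th p j k) UU := contDiffOn_Th' j k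

theorem contDiffOn_omC (j k : Fin 3) : ContDiffOn ℝ ∞ (fun p => omC p j k) UU :=
  contDiffOn_omC' j k

theorem contDiffOn_sig : ContDiffOn ℝ ∞ sig UU := contDiffOn_sig'

theorem closed_Th : Closed Th := closed_Th'

theorem closed_omC : Closed omC := closed_omC'

theorem equi_Th (Γ : Subgroup SL(2, ℝ)) : Equi Γ Th := equi_Th' Γ

theorem equi_omC (Γ : Subgroup SL(2, ℝ)) : Equi Γ omC := equi_omC' Γ

theorem rotInv_Th : RotInv Th := rotInv_Th'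

theorem rotInv_omC : RotInv omC := rotInv_omC'

/-- `Θ ≥ σ/2 ω_C ≥ 0`. -/
theorem Th_ge {p : Cn 3} (hp : p ∈ UU) (v : Cn 3) :
    sig p / 2 * (hf (omC p) v).re ≤ (hf (Th p) v).re := by
  rw [hf_omC_real, hf_Th_real, Complex.ofReal_re, Complex.ofReal_re]
  exact qT_ge hp v

theorem omC_nonneg (p : Cn 3) (v : Cn 3) : 0 ≤ (hf (omC p) v).re := by
  rw [hf_omC_real, Complex.ofReal_re]
  exact qC_nonneg p v

theorem g0_pos {p : Cn 3} (hp : p ∈ UU) {v : Cn 3} (hv : v ≠ 0) : 0 < (hf (g0 p) v).re := by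
  rw [hf_g0, Complex.ofReal_re]
  exact qg_pos hp hv

theorem det_g0 {p : Cn 3} (hp : p ∈ UU) :
    (g0 p).det = (((p 0).im + 2 * nsq p : ℝ) : ℂ) / (4 * ((p 0).im : ℂ) * (Nn p : ℂ) ^ 4) :=
  det_g0' hp

theorem bdd_rho0 : Bdd rho0 4 := bdd_rho0'

/-- `ρ₀ = i∂∂̄ (3 log N + log y)`. -/
theorem rho0_eq {p : Cn 3} (hp : p ∈ UU) (j k : Fin 3) :
    rho0 p j k = dz j (dzbar k fun q => ((3 * Real.log (Nn q) + Real.log (q 0).im : ℝ) : ℂ)) p :=
  rho0_eq' hp j k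

/-! ### The balanced metric -/

theorem Gm_ge {p : Cn 3} (hp : p ∈ UU) (v : Cn 3) :
    1 / 16 * (hf (g0 p) v).re ≤ (hf (Gm p) v).re := Gm_ge' hp v

theorem bdd_Gm : ∃ C : ℝ, Bdd Gm C := bdd_Gm'

theorem balanced_Gm {p : Cn 3} (hp : p ∈ UU) (k : Fin 3) :
    ∑ j, dz j (fun q => padj (Gm q) (Gm q) k j) p = 0 := balanced_Gm' hp k

theorem DD_Gm {p : Cn 3} (hp : p ∈ UU) :
    DD (rho0 p) (Gm p) (Gm p) =
      ((9 / 2 * sig p * f1 (sig p) ^ 2 + 6 * f1 (sig p) * f2 (sig p) - 2 * f1 (sig p) ^ 2 : ℝ) : ℂ) /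
        (((p 0).im : ℂ) * (Nn p : ℂ) ^ 3) := DD_Gm' hp

/-- the integral of the curvature of the balanced metric. -/
theorem integral_Gm {φ : ℂ → ℝ} (hφ : Continuous φ) (hφc : HasCompactSupport φ)
    (hs : tsupport φ ⊆ {z | 0 < z.im}) :
    Phi φ Gm Gm = -4 * (Real.pi : ℂ) ^ 2 * ∫ z in {z : ℂ | 0 < z.im}, (φ z : ℂ) / ((z.im : ℂ) ^ 2) :=
  integral_Gm' hφ hφc hs

end Pool.Agent.TH598.KG
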